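import Mathlib

/-!
# A finitely stable packing with eleven neighbours: definitions

The plane is `ℂ`; `ze = e^{iπ/5}`, `f = (1+√5)/2`, and points are written `pt a b = a + b ζ`.
The body `K` is a hexagon with an angle of `36` degrees at the origin. Ten copies `ζ^k K` form a
star; the packing consists of the stars centred at the points `m u + n v`.
-/

namespace Pool.Agent.H113R4.EN

/-! ### General notions (in a normed space `E`, later the Euclidean plane) -/

section general

variable {E : Type} [NormedAddCommGroup E] [NormedSpace ℝ E]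

/-- Congruent sets: one is the image of the other under an isometry of the space. -/
def Cong (A B : Set E) : Prop := ∃ g : E ≃ᵢ E, g '' A = B

/-- Convex bodies. -/
def IsBody (A : Set E) : Prop := IsCompact A ∧ Convex ℝ A ∧ (interior A).Nonempty

/-- A packing: a family of convex bodies whose interiors are pairwise disjoint. -/
def IsPacking (F : Set (Set E)) : Prop :=
  (∀ C ∈ F, IsBody C) ∧ ∀ A ∈ F, ∀ B ∈ F, A ≠ B → Disjoint (interior A) (interior B)

/-- `k`-stability: for any `k` different members `C i` there is `ε > 0` such that, whenever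
`C' i` is congruent to `C i` and at Hausdorff distance less than `ε` from it, and the family
obtained by replacing the `C i` by the `C' i` is a packing again, then `C' = C`. -/
def KStable (F : Set (Set E)) (k : ℕ) : Prop :=
  ∀ C : Fin k → Set E, Function.Injective C → (∀ i, C i ∈ F) → ∃ ε : ℝ, 0 < ε ∧
    ∀ C' : Fin k → Set E, (∀ i, Cong (C i) (C' i)) →
      (∀ i, Metric.hausdorffDist (C i) (C' i) < ε) →
      (∀ i j, i ≠ j → Disjoint (interior (C' i)) (interior (C' j))) →
      (∀ i, ∀ D ∈ F, D ∉ Set.range C → Disjoint (interior (C' i)) (interior D)) → C' = C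

/-- Finitely stable: `k`-stable for every positive integer `k`. -/
def FinStable (F : Set (Set E)) : Prop := ∀ k : ℕ, 1 ≤ k → KStable F k

/-- The neighbours of `C`: the other members which it touches. -/
def nbrs (F : Set (Set E)) (C : Set E) : Set (Set E) := {D | D ∈ F ∧ D ≠ C ∧ (C ∩ D).Nonempty}

/-- The statement: a convex body `K` and a finitely stable packing by congruent copies of `K` in
which every member has exactly eleven neighbours. -/
def Eleven (E : Type) [NormedAddCommGroup E] [NormedSpace ℝ E] : Prop :=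
  ∃ (K : Set E) (F : Set (Set E)), IsBody K ∧ F.Nonempty ∧ (∀ C ∈ F, Cong K C) ∧ IsPacking F ∧
    FinStable F ∧ ∀ C ∈ F, (nbrs F C).encard = 11

end general

/-! ### The packing -/

/-- `φ = (1 + √5) / 2` -/
noncomputable def f : ℝ := (1 + Real.sqrt 5) / 2

/-- `ζ = e^{iπ/5}` -/
noncomputable def ze : ℂ := Complex.exp (((Real.pi / 5 : ℝ) : ℂ) * Complex.I)

/-- the complex number `a + b ζ` -/
noncomputable def pt (a b : ℝ) : ℂ := (a : ℂ) + (b : ℂ) * ze

/-- the cross product -/
def crs (z w : ℂ) : ℝ := z.re * w.im - z.im * w.re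

/-- the vertices of the hexagon, in counterclockwise order -/
noncomputable def V : Fin 6 → ℂ :=
  ![pt 0 0, pt (44 * f - 55) 0, pt (77 - 33 * f) (44 - 22 * f), pt 22 22,
    pt (44 - 22 * f) (77 - 33 * f), pt 0 (44 * f - 55)]

/-- the hexagon -/
noncomputable def K : Set ℂ := convexHull ℝ (Set.range V)

/-- the lattice vectors -/
noncomputable def uu : ℂ := pt (12 + 4 * f) (34 * f - 8)

/-- the lattice vectors -/
noncomputable def vv : ℂ := pt (-38 - 42 * f) (46 + 30 * f)

/-- the centres of the stars -/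
noncomputable def cen (P : ℤ × ℤ) : ℂ := (P.1 : ℂ) * uu + (P.2 : ℂ) * vv

/-- the tiles -/
noncomputable def tile (k : Fin 10) (P : ℤ × ℤ) : Set ℂ :=
  (fun z => cen P + ze ^ (k : ℕ) * z) '' K

/-- the packing -/
def FF : Set (Set ℂ) := Set.range fun i : Fin 10 × (ℤ × ℤ) => tile i.1 i.2

/-! ### Motions -/

/-- the motion with translation part `x.1` and rotation angle `x.2` about the centre `c` -/
noncomputable def mot (c : ℂ) (x : ℂ × ℝ) (z : ℂ) : ℂ :=
  c + x.1 + Complex.exp (Complex.I * (x.2 : ℂ)) * (z - c)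

/-- its velocity field -/
noncomputable def vel (c : ℂ) (x : ℂ × ℝ) (z : ℂ) : ℂ := x.1 + Complex.I * (x.2 : ℂ) * (z - c)

/-- `a` is an interior direction of `A` at `p` -/
def IntDir (A : Set ℂ) (p a : ℂ) : Prop := ∃ s : ℝ, 0 < s ∧ p + (s : ℂ) * a ∈ interior A

/-! ### The contacts between different stars

Contact `c` is between the tile `kA c` of the star `P + dA c` (which contains the point
`cen P + pt (p1 c) (p2 c)`) and the tile `kB c` of the star `P + dB c` (which has this point on an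
edge with edge vector `pt (e1 c) (e2 c)`, and which is to the left of this edge). -/

/-- index of the tile with the vertex -/
def kA : Fin 12 → Fin 10 := ![0, 5, 6, 1, 0, 5, 3, 8, 7, 2, 3, 8]

/-- index of the tile with the edge -/
def kB : Fin 12 → Fin 10 := ![5, 0, 9, 4, 6, 1, 8, 3, 4, 9, 7, 2]

/-- star of the tile with the vertex, relative to `P` -/
def dA : Fin 12 → ℤ × ℤ :=
  ![(0, 0), (1, 0), (1, 0), (0, 0), (0, 0), (1, 0), (0, 0), (0, 1), (0, 1), (0, 0), (0, 0), (0, 1)]

/-- star of the tile with the edge, relative to `P` -/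
def dB : Fin 12 → ℤ × ℤ :=
  ![(1, 0), (0, 0), (0, 0), (1, 0), (1, 0), (0, 0), (0, 1), (0, 0), (0, 0), (0, 1), (0, 1), (0, 0)]

/-- first coordinate of the contact point relative to `cen P` -/
noncomputable def p1 : Fin 12 → ℝ :=
  ![44 - 22 * f, -32 + 26 * f, 34 + 4 * f, -22, 22, -10 + 4 * f,
    55 - 66 * f, -93 + 24 * f, -16 - 20 * f, -22 - 22 * f, -44 * f, -38 + 2 * f]

/-- second coordinate of the contact point relative to `cen P` -/
noncomputable def p2 : Fin 12 → ℝ :=
  ![77 - 33 * f, -85 + 67 * f, -30 + 12 * f, 22 + 22 * f, 22, -30 + 34 * f,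
    11 + 22 * f, 35 + 8 * f, 46 - 14 * f, 44 * f, 22 + 22 * f, 24 + 8 * f]

/-- first coordinate of the edge vector -/
noncomputable def e1 : Fin 12 → ℝ :=
  ![-22 + 22 * f, 22 - 22 * f, 33 - 33 * f, -33 + 33 * f, 44 - 22 * f, -44 + 22 * f,
    55 - 22 * f, -55 + 22 * f, -11, 11, 33 - 33 * f, -33 + 33 * f]

/-- second coordinate of the edge vector -/
noncomputable def e2 : Fin 12 → ℝ :=
  ![-55 + 33 * f, 55 - 33 * f, -22 + 22 * f, 22 - 22 * f, -110 + 55 * f, 110 - 55 * f,
    -11, 11, -55 + 33 * f, 55 - 33 * f, -99 + 77 * f, 99 - 77 * f]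

/-- the pairs of sectors used at the centre of a star -/
def pairs : List (ℕ × ℕ) := [(4, 6), (4, 7), (4, 8), (5, 7), (5, 8), (5, 9), (6, 8), (6, 9), (7, 9)]

/-- First order conditions for velocities `y k P` of the tiles `tile k P`. -/
structure FO (y : Fin 10 → ℤ × ℤ → ℂ × ℝ) : Prop where
  inner : ∀ (k : Fin 10) (P : ℤ × ℤ) (t : ℝ), 0 < t → t < 44 * f - 55 →
    0 ≤ crs (ze ^ (k : ℕ)) (vel (cen P) (y k P) (cen P + (t : ℂ) * ze ^ (k : ℕ)) -
      vel (cen P) (y (k - 1) P) (cen P + (t : ℂ) * ze ^ (k : ℕ)))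
  outer : ∀ (c : Fin 12) (P : ℤ × ℤ),
    crs (pt (e1 c) (e2 c))
      (vel (cen (P + dA c)) (y (kA c) (P + dA c)) (cen P + pt (p1 c) (p2 c)) -
        vel (cen (P + dB c)) (y (kB c) (P + dB c)) (cen P + pt (p1 c) (p2 c))) ≤ 0
  center : ∀ (P : ℤ × ℤ) (j k : ℕ), (j, k) ∈ pairs → ∀ α β : ℝ, 0 < α → 0 < β →
    (y (Fin.ofNat 10 k) P).1 - (y (Fin.ofNat 10 j) P).1 ≠
      (α : ℂ) * ze ^ (j + 1) - (β : ℂ) * ze ^ k

/-! ### Coordinates: a velocity is `(t1, t2, w)`, translation part `pt t1 t2` and angular velocity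
`2 w Im ζ` -/

/-- coordinates of the velocity at the point with coordinates `p` relative to the centre -/
noncomputable def velc (X : ℝ × ℝ × ℝ) (p : ℝ × ℝ) : ℝ × ℝ :=
  (X.1 + X.2.2 * (-f * p.1 - 2 * p.2), X.2.1 + X.2.2 * (2 * p.1 + f * p.2))

/-- cross product in coordinates -/
def dt (e r : ℝ × ℝ) : ℝ := e.1 * r.2 - e.2 * r.1

/-- coordinates of `ζ^k` -/
noncomputable def rho : Fin 10 → ℝ × ℝ :=
  ![(1, 0), (0, 1), (-1, f), (-f, f), (-f, 1), (-1, 0), (0, -1), (1, -f), (f, -f), (f, -1)]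

/-- coordinates of the lattice vector `d.1 u + d.2 v` for `d` one of the values of `dA`, `dB` -/
noncomputable def lat (d : ℤ × ℤ) : ℝ × ℝ :=
  ((d.1 : ℝ) * (12 + 4 * f) + (d.2 : ℝ) * (-38 - 42 * f),
    (d.1 : ℝ) * (34 * f - 8) + (d.2 : ℝ) * (46 + 30 * f))

/-- gap at the centre -/
noncomputable def G (X : Fin 10 → ℤ × ℤ → ℝ × ℝ × ℝ) (k : Fin 10) (P : ℤ × ℤ) : ℝ :=
  dt (rho k) (velc (X k P) (0, 0) - velc (X (k - 1) P) (0, 0))

/-- gap at the outer end of the common side -/
noncomputable def H (X : Fin 10 → ℤ × ℤ → ℝ × ℝ × ℝ) (k : Fin 10) (P : ℤ × ℤ) : ℝ :=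
  dt (rho k) (velc (X k P) ((44 * f - 55) • rho k) - velc (X (k - 1) P) ((44 * f - 55) • rho k))

/-- gaps at the outer contacts -/
noncomputable def O (X : Fin 10 → ℤ × ℤ → ℝ × ℝ × ℝ) (c : Fin 12) (P : ℤ × ℤ) : ℝ :=
  -dt (e1 c, e2 c) (velc (X (kA c) (P + dA c)) ((p1 c, p2 c) - lat (dA c)) -
    velc (X (kB c) (P + dB c)) ((p1 c, p2 c) - lat (dB c)))

/-- First order conditions in coordinates. -/
structure FOX (X : Fin 10 → ℤ × ℤ → ℝ × ℝ × ℝ) : Prop where
  g : ∀ k P, 0 ≤ G X k P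
  h : ∀ k P, 0 ≤ H X k P
  o : ∀ c P, 0 ≤ O X c P
  center : ∀ (P : ℤ × ℤ) (j k : ℕ), (j, k) ∈ pairs → ∀ α β : ℝ, 0 < α → 0 < β →
    ((X (Fin.ofNat 10 k) P).1 - (X (Fin.ofNat 10 j) P).1,
      (X (Fin.ofNat 10 k) P).2.1 - (X (Fin.ofNat 10 j) P).2.1) ≠
      α • rho (Fin.ofNat 10 (j + 1)) - β • rho (Fin.ofNat 10 k)

/-- finite support -/
def FinSup {M : Type} [Zero M] (X : Fin 10 → ℤ × ℤ → M) : Prop :=
  {P : ℤ × ℤ | ∃ k, X k P ≠ 0}.Finite

end Pool.Agent.H113R4.EN
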