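import Mathlib
import Pool.Agent.H113R4.EN.Defs

/-! # The literal form of stability -/

namespace Pool.Agent.H113R4.EN

section

variable {E : Type} [NormedAddCommGroup E] [NormedSpace ℝ E]

/-- `k`-stability, literally: for any `k` different members `C i` there is `ε > 0` such that,
whenever `C' i` is congruent to `C i` and at Hausdorff distance less than `ε` from it, and
`(F \ {C 1, …, C k}) ∪ {C' 1, …, C' k}` is a packing again, then `C' i = C i` for all `i`. -/
def KStab (F : Set (Set E)) (k : ℕ) : Prop :=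
  ∀ C : Fin k → Set E, Function.Injective C → (∀ i, C i ∈ F) → ∃ ε : ℝ, 0 < ε ∧
    ∀ C' : Fin k → Set E, (∀ i, Cong (C i) (C' i)) →
      (∀ i, Metric.hausdorffDist (C i) (C' i) < ε) →
      IsPacking ((F \ Set.range C) ∪ Set.range C') → ∀ i, C' i = C i

/-- a body whose interior does not meet the open set `U` does not meet `U` -/
lemma body_disjoint {D U : Set E} (hD : IsBody D) (hU : IsOpen U)
    (h : Disjoint U (interior D)) : Disjoint U D := by
  rw [Set.disjoint_left]
  intro z hz hzD
  have h1 : z ∈ closure (interior D) := by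
    rw [hD.2.1.closure_interior_eq_closure_of_nonempty_interior hD.2.2]
    exact subset_closure hzD
  rw [mem_closure_iff] at h1
  obtain ⟨w, hwU, hwD⟩ := h1 U hU hz
  exact Set.disjoint_left.1 h hwU hwD

lemma body_nonempty {D : Set E} (hD : IsBody D) : D.Nonempty :=
  hD.2.2.mono interior_subset

lemma edist_ne_top {C D : Set E} (hC : IsBody C) (hD : IsBody D) :
    Metric.hausdorffEDist C D ≠ ⊤ :=
  Metric.hausdorffEDist_ne_top_of_nonempty_of_bounded (body_nonempty hC) (body_nonempty hD)
    hC.1.isBounded hD.1.isBounded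

/-- lower bound for the Hausdorff distance of two bodies without common interior point -/
lemma body_far {C D : Set E} {c : E} {r : ℝ} (hC : IsBody C) (hD : IsBody D)
    (hr : 0 < r) (hb : Metric.ball c r ⊆ interior C)
    (h : Disjoint (interior C) (interior D)) : r ≤ Metric.hausdorffDist C D := by
  have h1 : Disjoint (Metric.ball c r) D :=
    body_disjoint hD Metric.isOpen_ball (h.mono_left hb)
  have hc : c ∈ C := interior_subset (hb (Metric.mem_ball_self hr))
  refine le_trans ?_ (Metric.infDist_le_hausdorffDist_of_mem hc (edist_ne_top hC hD))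
  rw [Metric.le_infDist (body_nonempty hD)]
  intro y hy
  by_contra hlt
  rw [not_le] at hlt
  exact Set.disjoint_left.1 h1 (Metric.mem_ball'.2 hlt) hy

/-- the version with indexed families implies the literal version -/
theorem lit {F : Set (Set E)} (hF : IsPacking F) (k : ℕ) (h : KStable F k) : KStab F k := by
  intro C hinj hC
  obtain ⟨ε, hε, hst⟩ := h C hinj hC
  have hball : ∀ i, ∃ c : E, ∃ r : ℝ, 0 < r ∧ Metric.ball c r ⊆ interior (C i) := by
    intro i
    obtain ⟨c, hc⟩ := (hF.1 _ (hC i)).2.2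
    obtain ⟨r, hr, hb⟩ := Metric.isOpen_iff.1 isOpen_interior c hc
    exact ⟨c, r, hr, hb⟩
  choose c r hr hb using hball
  obtain ⟨ρ, hρ, hρr⟩ : ∃ ρ : ℝ, 0 < ρ ∧ ∀ i, ρ ≤ r i := by
    rcases Nat.eq_zero_or_pos k with hk | hk
    · subst hk
      exact ⟨1, one_pos, fun i => i.elim0⟩
    · have : Nonempty (Fin k) := ⟨⟨0, hk⟩⟩
      obtain ⟨i0, hi0⟩ := Finite.exists_min r
      exact ⟨r i0, hr i0, hi0⟩
  refine ⟨min ε (ρ / 2), lt_min hε (by linarith), ?_⟩
  intro C' hcong hdist hpack
  have hB : ∀ i, IsBody (C i) := fun i => hF.1 _ (hC i)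
  have hB' : ∀ i, IsBody (C' i) := fun i => hpack.1 _ (Or.inr ⟨i, rfl⟩)
  have hne1 : ∀ i j, i ≠ j → C' i ≠ C' j := by
    intro i j hij heq
    have h1 := lt_of_lt_of_le (hdist i) (min_le_right _ _)
    have h2 := lt_of_lt_of_le (hdist j) (min_le_right _ _)
    rw [← heq, Metric.hausdorffDist_comm] at h2
    have h3 := Metric.hausdorffDist_triangle (s := C i) (t := C' i) (u := C j)
      (edist_ne_top (hB i) (hB' i))
    have h4 := body_far (hB i) (hB j) (hr i) (hb i)
      (hF.2 _ (hC i) _ (hC j) (fun e => hij (hinj e)))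
    have h5 := hρr i
    linarith
  have hne2 : ∀ i, ∀ D ∈ F, D ∉ Set.range C → C' i ≠ D := by
    intro i D hD hDC heq
    have h1 := lt_of_lt_of_le (hdist i) (min_le_right _ _)
    rw [heq] at h1
    have h4 := body_far (hB i) (hF.1 _ hD) (hr i) (hb i)
      (hF.2 _ (hC i) _ hD (fun e => hDC ⟨i, e⟩))
    have h5 := hρr i
    linarith
  have := hst C' hcong (fun i => lt_of_lt_of_le (hdist i) (min_le_left _ _))
    (fun i j hij => hpack.2 _ (Or.inr ⟨i, rfl⟩) _ (Or.inr ⟨j, rfl⟩) (hne1 i j hij))
    (fun i D hD hDC => hpack.2 _ (Or.inr ⟨i, rfl⟩) _ (Or.inl ⟨hD, hDC⟩) (hne2 i D hD hDC))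
  intro i
  rw [this]

end

end Pool.Agent.H113R4.EN
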