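import Mathlib
import Pool.Agent.H113R4.EN.Defs

/-! # Statements of the tasks -/

namespace Pool.Agent.H113R4.EN

open Filter Topology

/-! ### A. algebra -/

/-- facts on `f` -/
def S_F : Prop := f ^ 2 = f + 1 ∧ 1.6180339 < f ∧ f < 1.618034

/-- facts on `ζ` -/
def S_Z : Prop := ze ^ 2 = (f : ℂ) * ze - 1 ∧ ze ^ 5 = -1 ∧ 0 < ze.im ∧ ze.re = f / 2 ∧ ‖ze‖ = 1 ∧
  (starRingEnd ℂ) ze = (f : ℂ) - ze ∧ Complex.I * ((2 * ze.im : ℝ) : ℂ) = 2 * ze - (f : ℂ) ∧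
  (∀ k : Fin 10, ze ^ (k : ℕ) = pt (rho k).1 (rho k).2)

/-- coordinates -/
def S_PT : Prop :=
  (∀ a b c d : ℝ, pt a b + pt c d = pt (a + c) (b + d)) ∧
  (∀ a b c d : ℝ, pt a b - pt c d = pt (a - c) (b - d)) ∧
  (∀ s a b : ℝ, (s : ℂ) * pt a b = pt (s * a) (s * b)) ∧
  (∀ a b : ℝ, ze * pt a b = pt (-b) (a + f * b)) ∧
  (∀ a b c d : ℝ, crs (pt a b) (pt c d) = ze.im * (a * d - b * c)) ∧
  (∀ z : ℂ, ∃ a b : ℝ, z = pt a b) ∧
  (∀ a b c d : ℝ, pt a b = pt c d → a = c ∧ b = d) ∧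
  (∀ a b : ℝ, ‖pt a b‖ ^ 2 = a ^ 2 + b ^ 2 + f * a * b) ∧
  (∀ P : ℤ × ℤ, cen P = pt (lat P).1 (lat P).2) ∧
  (∀ P Q : ℤ × ℤ, cen (P + Q) = cen P + cen Q)

/-- cross product -/
def S_CRS : Prop :=
  (∀ z w w' : ℂ, crs z (w + w') = crs z w + crs z w') ∧
  (∀ z w w' : ℂ, crs z (w - w') = crs z w - crs z w') ∧
  (∀ (z w : ℂ) (t : ℝ), crs z ((t : ℂ) * w) = t * crs z w) ∧
  (∀ (z w : ℂ) (t : ℝ), crs ((t : ℂ) * z) w = t * crs z w) ∧
  (∀ z w : ℂ, crs z w = -crs w z) ∧ (∀ z : ℂ, crs z z = 0) ∧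
  (∀ z w a : ℂ, ‖a‖ = 1 → crs (a * z) (a * w) = crs z w)

/-! ### B. the tiles -/

/-- the tiles are convex bodies congruent to `K` -/
def S_BODY : Prop := IsBody K ∧ ∀ k P, IsBody (tile k P) ∧ Cong K (tile k P) ∧
  ∀ i : Fin 6, cen P + ze ^ (k : ℕ) * V i ∈ tile k P

/-- a linear inequality on a tile has to be checked at the vertices only -/
def S_HULL : Prop := ∀ (k : Fin 10) (P : ℤ × ℤ) (e q : ℂ),
  (∀ i : Fin 6, 0 ≤ crs e (cen P + ze ^ (k : ℕ) * V i - q)) → ∀ z ∈ tile k P, 0 ≤ crs e (z - q)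

/-- separation: disjoint interiors -/
def S_SEP : Prop := ∀ (A B : Set ℂ) (e q : ℂ), e ≠ 0 → (∀ z ∈ A, 0 ≤ crs e (z - q)) →
  (∀ z ∈ B, crs e (z - q) ≤ 0) → Disjoint (interior A) (interior B)

/-- different sectors of the same star do not overlap -/
def S_SAME : Prop := ∀ (k l : Fin 10) (P : ℤ × ℤ), k ≠ l →
  Disjoint (interior (tile k P)) (interior (tile l P))

/-- tiles of `P` and `P + u`: which pairs touch -/
def touchU : List (Fin 10 × Fin 10) := [(0, 5), (9, 6), (1, 4), (0, 6), (1, 5)]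

/-- tiles of `P` and `P + v`: which pairs touch -/
def touchV : List (Fin 10 × Fin 10) := [(3, 8), (4, 7), (2, 9), (3, 7), (2, 8)]

/-- tiles of `P` and `P + u`: the interiors are disjoint -/
def S_NU1 : Prop := ∀ (k l : Fin 10) (P : ℤ × ℤ),
  Disjoint (interior (tile k P)) (interior (tile l (P + (1, 0))))

/-- tiles of `P` and `P + u` which do not touch -/
def S_NU2 : Prop := ∀ (k l : Fin 10) (P : ℤ × ℤ), (k, l) ∉ touchU →
  Disjoint (tile k P) (tile l (P + (1, 0)))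

/-- tiles of `P` and `P + v`: the interiors are disjoint -/
def S_NV1 : Prop := ∀ (k l : Fin 10) (P : ℤ × ℤ),
  Disjoint (interior (tile k P)) (interior (tile l (P + (0, 1))))

/-- tiles of `P` and `P + v` which do not touch -/
def S_NV2 : Prop := ∀ (k l : Fin 10) (P : ℤ × ℤ), (k, l) ∉ touchV →
  Disjoint (tile k P) (tile l (P + (0, 1)))

/-- tiles of stars which are far apart -/
def S_FAR : Prop := ∀ (k l : Fin 10) (P Q : ℤ × ℤ), 2 ≤ (Q.1 - P.1) ^ 2 + (Q.2 - P.2) ^ 2 →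
  Disjoint (tile k P) (tile l Q)

/-- the geometric data of the twelve outer contacts -/
def S_CON : Prop := ∀ (c : Fin 12) (P : ℤ × ℤ),
  cen P + pt (p1 c) (p2 c) ∈ tile (kA c) (P + dA c) ∧
  ∃ q₁ ∈ tile (kB c) (P + dB c), ∃ q₂ ∈ tile (kB c) (P + dB c),
    q₂ - q₁ = pt (e1 c) (e2 c) ∧ cen P + pt (p1 c) (p2 c) ∈ openSegment ℝ q₁ q₂ ∧
    ∀ z ∈ tile (kB c) (P + dB c), 0 ≤ crs (pt (e1 c) (e2 c)) (z - q₁)

/-- the geometric data of the common sides -/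
def S_CONI : Prop := ∀ (k : Fin 10) (P : ℤ × ℤ) (t : ℝ), 0 < t → t < 44 * f - 55 →
  cen P + (t : ℂ) * ze ^ (k : ℕ) ∈ tile k P ∧
  ∃ q₁ ∈ tile (k - 1) P, ∃ q₂ ∈ tile (k - 1) P,
    q₂ - q₁ = -(((44 * f - 55 : ℝ) : ℂ) * ze ^ (k : ℕ)) ∧
    cen P + (t : ℂ) * ze ^ (k : ℕ) ∈ openSegment ℝ q₁ q₂ ∧
    ∀ z ∈ tile (k - 1) P, 0 ≤ crs (-(((44 * f - 55 : ℝ) : ℂ) * ze ^ (k : ℕ))) (z - q₁)

/-- interior directions at the centre of a star -/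
def S_CONE : Prop := ∀ (k : Fin 10) (P : ℤ × ℤ) (x y : ℝ), 0 < x → 0 < y →
  cen P ∈ tile k P ∧
  IntDir (tile k P) (cen P) ((x : ℂ) * ze ^ (k : ℕ) + (y : ℂ) * ze ^ ((k : ℕ) + 1))

/-- every tile has exactly eleven neighbours; the family has no repetitions -/
def S_CNT : Prop := (∀ i j : Fin 10 × (ℤ × ℤ), tile i.1 i.2 = tile j.1 j.2 → i = j) ∧
  IsPacking FF ∧ ∀ C ∈ FF, (nbrs FF C).encard = 11

/-! ### C. analysis -/

/-- the tangent condition -/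
def S_TAN : Prop := ∀ (A B : Set ℂ) (p a b c c' : ℂ) (r : ℕ → ℝ) (x x' : ℕ → ℂ × ℝ)
  (y y' : ℂ × ℝ), Convex ℝ A → Convex ℝ B → p ∈ A → p ∈ B → IntDir A p a → IntDir B p b →
  (∀ n, 0 < r n) → Tendsto r atTop (𝓝 0) →
  Tendsto (fun n => ((x n).1 / (r n : ℂ), (x n).2 / r n)) atTop (𝓝 y) →
  Tendsto (fun n => ((x' n).1 / (r n : ℂ), (x' n).2 / r n)) atTop (𝓝 y') →
  vel c y p - vel c' y' p = b - a →
  ∀ᶠ n in atTop, ¬ Disjoint (interior (mot c (x n) '' A)) (interior (mot c' (x' n) '' B))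

/-- the inequality at a contact of a point of `A` with the relative interior of an edge of `B` -/
def S_EDGE : Prop := ∀ (A B : Set ℂ) (p q₁ q₂ c c' : ℂ) (r : ℕ → ℝ) (x x' : ℕ → ℂ × ℝ)
  (y y' : ℂ × ℝ), Convex ℝ A → Convex ℝ B → (interior A).Nonempty → (interior B).Nonempty →
  p ∈ A → q₁ ∈ B → q₂ ∈ B → q₁ ≠ q₂ → p ∈ openSegment ℝ q₁ q₂ →
  (∀ z ∈ B, 0 ≤ crs (q₂ - q₁) (z - q₁)) →
  (∀ n, 0 < r n) → Tendsto r atTop (𝓝 0) →
  Tendsto (fun n => ((x n).1 / (r n : ℂ), (x n).2 / r n)) atTop (𝓝 y) →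
  Tendsto (fun n => ((x' n).1 / (r n : ℂ), (x' n).2 / r n)) atTop (𝓝 y') →
  (∀ n, Disjoint (interior (mot c (x n) '' A)) (interior (mot c' (x' n) '' B))) →
  crs (q₂ - q₁) (vel c y p - vel c' y' p) ≤ 0

/-- the only rotation and translation which preserves `K` is the identity -/
def S_INJ : Prop := ∀ e b : ℂ, ‖b‖ = 1 → (fun z => e + b * z) '' K = K → e = 0 ∧ b = 1

/-- sets congruent to a tile and close to it are obtained by a small motion -/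
def S_PAR : Prop := ∀ (k : Fin 10) (P : ℤ × ℤ) (ε : ℝ), 0 < ε → ∃ δ : ℝ, 0 < δ ∧
  ∀ C : Set ℂ, Cong (tile k P) C → Metric.hausdorffDist (tile k P) C < δ →
    ∃ x : ℂ × ℝ, ‖x‖ < ε ∧ C = mot (cen P) x '' tile k P

/-- compactness: normalised limits -/
def S_CPT : Prop := ∀ (k : ℕ) (B : Set (Fin k → ℂ × ℝ)),
  (∀ ε : ℝ, 0 < ε → ∃ x ∈ B, x ≠ 0 ∧ ‖x‖ < ε) →
  ∃ (x : ℕ → Fin k → ℂ × ℝ) (y : Fin k → ℂ × ℝ), (∀ n, x n ∈ B ∧ x n ≠ 0) ∧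
    Tendsto (fun n => ‖x n‖) atTop (𝓝 0) ∧ ‖y‖ = 1 ∧
    ∀ i, Tendsto (fun n => ((x n i).1 / (‖x n‖ : ℂ), (x n i).2 / ‖x n‖)) atTop (𝓝 (y i))

/-- normalised sequences of motions of the tiles with limit velocities `y` -/
structure Lim (r : ℕ → ℝ) (x : ℕ → Fin 10 → ℤ × ℤ → ℂ × ℝ) (y : Fin 10 → ℤ × ℤ → ℂ × ℝ) :
    Prop where
  pos : ∀ n, 0 < r n
  lim : Tendsto r atTop (𝓝 0)
  conv : ∀ k P, Tendsto (fun n => ((x n k P).1 / (r n : ℂ), (x n k P).2 / r n)) atTop (𝓝 (y k P))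
  disj : ∀ n k l P Q, (k, P) ≠ (l, Q) →
    Disjoint (interior (mot (cen P) (x n k P) '' tile k P))
      (interior (mot (cen Q) (x n l Q) '' tile l Q))

/-- if the packing is not finitely stable, there are normalised sequences of motions -/
def S_LIM : Prop := ¬ FinStable FF → ∃ r x y, Lim r x y ∧ FinSup y ∧ ∃ k P, y k P ≠ 0

/-- the limit velocities satisfy the first order conditions -/
def S_FOL : Prop := ∀ r x y, Lim r x y → FO y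

/-! ### D. first order rigidity -/

/-- the coordinates of velocities -/
noncomputable def co (x : ℂ × ℝ) : ℝ × ℝ × ℝ :=
  (x.1.re - x.1.im / ze.im * (f / 2), x.1.im / ze.im, x.2 / (2 * ze.im))

/-- transition to coordinates -/
def S_CO : Prop := (∀ x : ℂ × ℝ, co x = 0 → x = 0) ∧ co 0 = 0 ∧
  ∀ y : Fin 10 → ℤ × ℤ → ℂ × ℝ, FO y → FOX fun k P => co (y k P)

/-- weights of the equilibrium stress -/
noncomputable def wg : Fin 10 → ℝ :=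
  ![13180 - 7080 * f, 8961 - 4948 * f, -8524 + 5500 * f, 8961 - 4948 * f, 13180 - 7080 * f,
    13180 - 7080 * f, 8961 - 4948 * f, -8524 + 5500 * f, 8961 - 4948 * f, 13180 - 7080 * f]

/-- weights of the equilibrium stress -/
noncomputable def wh : Fin 10 → ℝ :=
  ![-5128 + 3406 * f, -7091 + 5047 * f, 3200, -7091 + 5047 * f, -5128 + 3406 * f,
    -5128 + 3406 * f, -7091 + 5047 * f, 3200, -7091 + 5047 * f, -5128 + 3406 * f]

/-- weights of the equilibrium stress -/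
noncomputable def wo : Fin 12 → ℝ :=
  ![-39 + 55 * f, -39 + 55 * f, 226 - 54 * f, 226 - 54 * f, 89, 89,
    -39 + 55 * f, -39 + 55 * f, 226 - 54 * f, 226 - 54 * f, 89, 89]

/-- the weights are positive -/
def S_WPOS : Prop := (∀ k, 0 < wg k) ∧ (∀ k, 0 < wh k) ∧ ∀ c, 0 < wo c

/-- the equilibrium stress -/
def S_STR : Prop := ∀ X : Fin 10 → ℤ × ℤ → ℝ × ℝ × ℝ, FinSup X → FOX X →
  (∀ k P, G X k P = 0) ∧ (∀ k P, H X k P = 0) ∧ ∀ c P, O X c P = 0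

/-- no rotations -/
def S_ROT : Prop := ∀ X : Fin 10 → ℤ × ℤ → ℝ × ℝ × ℝ, FinSup X →
  (∀ k P, G X k P = 0) → (∀ k P, H X k P = 0) → (∀ c P, O X c P = 0) → ∀ k P, (X k P).2.2 = 0

/-- the sectors `9, 0, 1, 2, 3, 4` of an extreme star are fixed -/
def S_SEC : Prop := ∀ (X : Fin 10 → ℤ × ℤ → ℝ × ℝ × ℝ) (P : ℤ × ℤ),
  (∀ k P, G X k P = 0) → (∀ c P, O X c P = 0) → (∀ k P, (X k P).2.2 = 0) →
  (∀ k, X k (P + (1, 0)) = 0) → (∀ k, X k (P + (0, 1)) = 0) →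
  X 9 P = 0 ∧ X 0 P = 0 ∧ X 1 P = 0 ∧ X 2 P = 0 ∧ X 3 P = 0 ∧ X 4 P = 0

/-- the remaining sectors are fixed -/
def S_STAR : Prop := ∀ (X : Fin 10 → ℤ × ℤ → ℝ × ℝ × ℝ) (P : ℤ × ℤ), FOX X →
  (∀ k P, G X k P = 0) → (∀ k P, (X k P).2.2 = 0) → X 9 P = 0 → X 4 P = 0 →
  X 5 P = 0 ∧ X 6 P = 0 ∧ X 7 P = 0 ∧ X 8 P = 0

/-- infinitesimal rigidity -/
def S_INF : Prop := ∀ X : Fin 10 → ℤ × ℤ → ℝ × ℝ × ℝ, FinSup X → FOX X → ∀ k P, X k P = 0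

/-! ### E. transfer -/

/-- transfer to the Euclidean plane -/
def S_TRA : Prop := Eleven ℂ → Eleven (EuclideanSpace ℝ (Fin 2))

end Pool.Agent.H113R4.EN
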