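import Mathlib
import Pool.Agent.H113R4.EN.Stubs
import Pool.Agent.H113R4.EN.Lit

/-! # Assembly, from the statements of the tasks -/

namespace Pool.Agent.H113R4.EN

/-- the packing is finitely stable -/
theorem finStable_FF (hLIM : S_LIM) (hFOL : S_FOL) (hCO : S_CO) (hINF : S_INF) :
    FinStable FF := by
  by_contra h
  obtain ⟨r, x, y, hL, hfs, k, P, hne⟩ := hLIM h
  have hFO := hFOL r x y hL
  have hX := hCO.2.2 y hFO
  have hfin : FinSup fun k P => co (y k P) := by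
    refine Set.Finite.subset hfs ?_
    rintro Q ⟨l, hl⟩
    refine ⟨l, fun h0 => hl ?_⟩
    change co (y l Q) = 0
    rw [h0]
    exact hCO.2.1
  exact hne (hCO.1 _ (hINF _ hfin hX k P))

/-- the answer in the complex plane -/
theorem eleven_complex (hLIM : S_LIM) (hFOL : S_FOL) (hCO : S_CO) (hINF : S_INF)
    (hBODY : S_BODY) (hCNT : S_CNT) : Eleven ℂ := by
  refine ⟨K, FF, hBODY.1, ⟨_, ⟨(0, (0, 0)), rfl⟩⟩, ?_, hCNT.2.1,
    finStable_FF hLIM hFOL hCO hINF, hCNT.2.2⟩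
  rintro C ⟨i, rfl⟩
  exact (hBODY.2 i.1 i.2).2.1

end Pool.Agent.H113R4.EN
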