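import Pool.Agent.H113R4.EN.Stubs

/-! The inequality at an edge contact. -/

set_option autoImplicit false

namespace Pool.Agent.H113R4.EN

open Filter Topology

theorem intDir_edge (hCRS : S_CRS) (B : Set ℂ) (p q₁ q₂ b : ℂ) (hB : Convex ℝ B)
    (hBi : (interior B).Nonempty) (h1 : q₁ ∈ B) (h2 : q₂ ∈ B) (hne : q₁ ≠ q₂)
    (hp : p ∈ openSegment ℝ q₁ q₂) (hleft : ∀ z ∈ B, 0 ≤ crs (q₂ - q₁) (z - q₁))
    (hb : 0 < crs (q₂ - q₁) b) : IntDir B p b := by
  obtain ⟨cadd, csub, csmul, csmul', canti, cself, -⟩ := hCRS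
  obtain ⟨b₀, hb₀⟩ := hBi
  set e := q₂ - q₁ with he
  have he0 : e ≠ 0 := sub_ne_zero.mpr hne.symm
  have hen : 0 < Complex.normSq e := Complex.normSq_pos.mpr he0
  obtain ⟨l₁, l₂, hl₁, hl₂, hl, hpe⟩ := hp
  have hpe' : p = q₁ + (l₂ : ℂ) * e := by
    rw [← hpe, he, Complex.real_smul, Complex.real_smul]
    have : (l₁ : ℂ) = 1 - (l₂ : ℂ) := by
      have : l₁ = 1 - l₂ := by linarith
      rw [this]; push_cast; ring
    rw [this]; ring
  -- crs e (b₀ - q₁) > 0
  have hb₀' : 0 < crs e (b₀ - q₁) := by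
    have hcont : Tendsto (fun t : ℝ => b₀ - (t : ℂ) * (Complex.I * e)) (𝓝 0) (𝓝 b₀) := by
      have h3 : Continuous (fun t : ℝ => b₀ - (t : ℂ) * (Complex.I * e)) := by fun_prop
      have h4 := h3.tendsto 0
      simpa using h4
    have hev : ∀ᶠ t : ℝ in 𝓝 0, b₀ - (t : ℂ) * (Complex.I * e) ∈ interior B :=
      hcont.eventually (isOpen_interior.mem_nhds hb₀)
    obtain ⟨δ, hδ, hball⟩ := Metric.eventually_nhds_iff.mp hev
    have hm : b₀ - ((δ / 2 : ℝ) : ℂ) * (Complex.I * e) ∈ B := interior_subset (hball (by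
      rw [dist_zero_right, Real.norm_eq_abs, abs_of_pos (by linarith)]
      linarith))
    have h5 := hleft _ hm
    have h6 : b₀ - ((δ / 2 : ℝ) : ℂ) * (Complex.I * e) - q₁ =
        (b₀ - q₁) - ((δ / 2 : ℝ) : ℂ) * (Complex.I * e) := by ring
    rw [h6, csub, csmul] at h5
    have h7 : crs e (Complex.I * e) = Complex.normSq e := by
      unfold crs
      rw [Complex.normSq_apply]
      simp
    rw [h7] at h5
    nlinarith
  set h := crs e (b₀ - q₁) with hh
  have hbp : crs e (b₀ - p) = h := by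
    rw [hpe']
    have : b₀ - (q₁ + (l₂ : ℂ) * e) = (b₀ - q₁) - (l₂ : ℂ) * e := by ring
    rw [this, csub, csmul, cself, mul_zero, sub_zero]
  set y := crs e b / h with hy
  have hy0 : 0 < y := div_pos hb hb₀'
  -- b - y (b₀ - p) is a multiple of e
  obtain ⟨x, hx⟩ : ∃ x : ℝ, b - (y : ℂ) * (b₀ - p) = (x : ℂ) * e := by
    set v := b - (y : ℂ) * (b₀ - p) with hv
    have hv0 : crs e v = 0 := by
      rw [hv, csub, csmul, hbp, hy, div_mul_cancel₀ _ hb₀'.ne', sub_self]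
    refine ⟨(e.re * v.re + e.im * v.im) / Complex.normSq e, ?_⟩
    unfold crs at hv0
    have hn : e.re * e.re + e.im * e.im ≠ 0 := by
      rw [← Complex.normSq_apply]; exact hen.ne'
    apply Complex.ext
    · rw [Complex.re_ofReal_mul, Complex.normSq_apply, div_mul_eq_mul_div, eq_div_iff hn]
      linear_combination (-e.im) * hv0
    · rw [Complex.im_ofReal_mul, Complex.normSq_apply, div_mul_eq_mul_div, eq_div_iff hn]
      linear_combination e.re * hv0
  -- a small step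
  obtain ⟨s, hs, hs1, hs2, hs3⟩ : ∃ s : ℝ, 0 < s ∧ s * y ≤ 1 / 2 ∧ 2 * (s * |x|) ≤ l₁ ∧
      2 * (s * |x|) ≤ l₂ := by
    have hx0 : 0 ≤ |x| := abs_nonneg x
    refine ⟨min (1 / (2 * y)) (min (l₁ / (2 * (|x| + 1))) (l₂ / (2 * (|x| + 1)))), ?_, ?_, ?_, ?_⟩
    · positivity
    · calc _ ≤ (1 / (2 * y)) * y := mul_le_mul_of_nonneg_right (min_le_left _ _) hy0.le
        _ = 1 / 2 := by field_simp
    · have h3 : min (1 / (2 * y)) (min (l₁ / (2 * (|x| + 1))) (l₂ / (2 * (|x| + 1)))) ≤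
          l₁ / (2 * (|x| + 1)) := (min_le_right _ _).trans (min_le_left _ _)
      calc _ ≤ 2 * (l₁ / (2 * (|x| + 1)) * |x|) := by gcongr
        _ = l₁ * (|x| / (|x| + 1)) := by field_simp
        _ ≤ l₁ * 1 := by
            refine mul_le_mul_of_nonneg_left ?_ hl₁.le
            rw [div_le_one (by positivity)]; linarith
        _ = l₁ := mul_one _
    · have h3 : min (1 / (2 * y)) (min (l₁ / (2 * (|x| + 1))) (l₂ / (2 * (|x| + 1)))) ≤
          l₂ / (2 * (|x| + 1)) := (min_le_right _ _).trans (min_le_right _ _)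
      calc _ ≤ 2 * (l₂ / (2 * (|x| + 1)) * |x|) := by gcongr
        _ = l₂ * (|x| / (|x| + 1)) := by field_simp
        _ ≤ l₂ * 1 := by
            refine mul_le_mul_of_nonneg_left ?_ hl₂.le
            rw [div_le_one (by positivity)]; linarith
        _ = l₂ := mul_one _
  refine ⟨s, hs, ?_⟩
  have hsy : 0 < 1 - s * y := by linarith
  set κ := s * x / (1 - s * y) with hκ
  have hκ' : |κ| ≤ l₁ ∧ |κ| ≤ l₂ := by
    have h3 : |κ| ≤ 2 * (s * |x|) := by
      rw [hκ, abs_div, abs_mul, abs_of_pos hs, abs_of_pos hsy, div_le_iff₀ hsy]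
      have : 0 ≤ s * |x| := by positivity
      nlinarith
    exact ⟨h3.trans hs2, h3.trans hs3⟩
  have hq : p + (κ : ℂ) * e ∈ B := by
    have h3 := hB h1 h2 (a := l₁ - κ) (b := l₂ + κ)
      (by have := (abs_le.mp hκ'.1).2; linarith) (by have := (abs_le.mp hκ'.2).1; linarith)
      (by linarith)
    rw [Complex.real_smul, Complex.real_smul] at h3
    have h4 : ((l₁ - κ : ℝ) : ℂ) * q₁ + ((l₂ + κ : ℝ) : ℂ) * q₂ = p + (κ : ℂ) * e := by
      have : (l₁ : ℂ) = 1 - (l₂ : ℂ) := by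
        have : l₁ = 1 - l₂ := by linarith
        rw [this]; push_cast; ring
      rw [hpe', he]
      push_cast
      rw [this]
      ring
    rw [h4] at h3
    exact h3
  have h3 := hB.combo_self_interior_mem_interior hq hb₀ (a := 1 - s * y) (b := s * y) hsy.le
    (by positivity) (by ring)
  rw [Complex.real_smul, Complex.real_smul] at h3
  have h4 : ((1 - s * y : ℝ) : ℂ) * (p + (κ : ℂ) * e) + ((s * y : ℝ) : ℂ) * b₀ =
      p + (s : ℂ) * b := by
    have h5 : ((1 - s * y : ℝ) : ℂ) * (κ : ℂ) = (s : ℂ) * x := by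
      rw [hκ, ← Complex.ofReal_mul, mul_div_cancel₀ _ hsy.ne']
      push_cast; ring
    push_cast at h5 ⊢
    linear_combination e * h5 - (s : ℂ) * hx
  rw [h4] at h3
  exact h3

theorem t_EDGE (hTAN : S_TAN) (hCRS : S_CRS) : S_EDGE := by
  intro A B p q₁ q₂ c c' r x x' y y' hA hB hAi hBi hpA h1 h2 hne hp hleft hpos hr hx hx' hdis
  by_contra hcon
  push Not at hcon
  obtain ⟨a₀, ha₀⟩ := hAi
  set Vv := vel c y p - vel c' y' p with hV
  have hcrs := hCRS
  obtain ⟨cadd, csub, csmul, -⟩ := hcrs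
  -- small t
  obtain ⟨t, ht, ht'⟩ : ∃ t : ℝ, 0 < t ∧
      0 < crs (q₂ - q₁) Vv + t * crs (q₂ - q₁) (a₀ - p) := by
    have hcont : Tendsto (fun t : ℝ => crs (q₂ - q₁) Vv + t * crs (q₂ - q₁) (a₀ - p)) (𝓝[>] 0)
        (𝓝 (crs (q₂ - q₁) Vv + 0 * crs (q₂ - q₁) (a₀ - p))) := by
      apply Tendsto.mono_left _ nhdsWithin_le_nhds
      have : Continuous (fun t : ℝ => crs (q₂ - q₁) Vv + t * crs (q₂ - q₁) (a₀ - p)) := by
        fun_prop
      exact this.tendsto 0
    rw [zero_mul, add_zero] at hcont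
    have hev := hcont.eventually (lt_mem_nhds hcon)
    obtain ⟨t, ht1, ht2⟩ := (hev.and self_mem_nhdsWithin).exists
    exact ⟨t, ht2, ht1⟩
  have hpB : p ∈ B := hB.openSegment_subset h1 h2 hp
  have hIA : IntDir A p ((t : ℂ) * (a₀ - p)) := by
    refine ⟨1 / t, by positivity, ?_⟩
    have : p + ((1 / t : ℝ) : ℂ) * ((t : ℂ) * (a₀ - p)) = a₀ := by
      have htc : (t : ℂ) ≠ 0 := by exact_mod_cast ht.ne'
      push_cast
      field_simp
      ring
    rw [this]; exact ha₀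
  have hIB : IntDir B p (Vv + (t : ℂ) * (a₀ - p)) := by
    refine intDir_edge hCRS B p q₁ q₂ _ hB hBi h1 h2 hne hp hleft ?_
    rw [cadd, csmul]
    exact ht'
  have hev := hTAN A B p _ _ c c' r x x' y y' hA hB hpA hpB hIA hIB hpos hr hx hx' (by
    rw [← hV]; ring)
  obtain ⟨n, hn⟩ := hev.exists
  exact hn (hdis n)

end Pool.Agent.H113R4.EN
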