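import Mathlib
import Pool.Agent.H113R4.EN.Stubs

namespace Pool.Agent.H113R4.EN

namespace ROTownAux

theorem rho_unit (hf : f ^ 2 = f + 1) (k : Fin 10) :
    (rho k).1 ^ 2 + (rho k).2 ^ 2 + f * (rho k).1 * (rho k).2 = 1 := by
  fin_cases k <;> simp [rho] <;> linear_combination (norm := ring_nf) (0 : ℝ) * hf <;>
    nlinarith [hf]

end ROTownAux

theorem t_ROTown (hF : S_F) : S_ROT := by
  intro X hfin hG hH hO
  obtain ⟨hf, hf1, hf2⟩ := hF
  have hk : ∀ k P, (X k P).2.2 = (X (k - 1) P).2.2 := by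
    intro k P
    have h1 := hG k P
    have h2 := hH k P
    unfold G at h1
    unfold H at h2
    have h3 := ROTownAux.rho_unit hf k
    have h4 : 2 * (44 * f - 55) * ((X k P).2.2 - (X (k - 1) P).2.2) = 0 := by
      simp only [dt, velc, Prod.fst_sub, Prod.snd_sub, Prod.smul_fst, Prod.smul_snd,
        smul_eq_mul, mul_zero, add_zero, sub_zero] at h1 h2
      linear_combination h2 - h1 - 2 * (44 * f - 55) * ((X k P).2.2 - (X (k - 1) P).2.2) * h3
    have h5 : (2 * (44 * f - 55) : ℝ) ≠ 0 := by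
      have : (0 : ℝ) < 44 * f - 55 := by linarith
      positivity
    have := (mul_eq_zero.1 h4).resolve_left h5
    linarith
  have hall : ∀ P (n : ℕ) (hn : n < 10), (X ⟨n, hn⟩ P).2.2 = (X 0 P).2.2 := by
    intro P n
    induction n with
    | zero => intro _; rfl
    | succ m ih =>
      intro hn
      rw [hk, ← ih (by omega)]
      congr 2
      congr 1
      ext
      rw [Fin.sub_def]
      simp
      omega
  have hall' : ∀ k P, (X k P).2.2 = (X 0 P).2.2 := fun k P => hall P k.1 k.2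
  have hPP : ∀ P : ℤ × ℤ, P + (0, 0) = P := by
    intro P
    ext <;> simp
  have hu : ∀ P, (X 0 P).2.2 = (X 0 (P + (1, 0))).2.2 := by
    intro P
    have h0 := hO 0 P
    have h1 := hO 1 P
    rw [← hall' 5 (P + (1, 0))]
    simp only [O, kA, kB, dA, dB, p1, p2, e1, e2, Matrix.cons_val_zero, Matrix.cons_val_one,
      hPP] at h0 h1
    simp only [dt, velc, lat, Prod.fst_sub, Prod.snd_sub] at h0 h1
    generalize X 0 P = A at h0 h1 ⊢
    generalize X 5 (P + (1, 0)) = B at h0 h1 ⊢
    obtain ⟨a1, a2, a3⟩ := A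
    obtain ⟨b1, b2, b3⟩ := B
    simp only at h0 h1 ⊢
    push_cast at h0 h1
    have z1 : a3 * (f ^ 2 - f - 1) = 0 := by rw [hf]; ring
    have z2 : a3 * f * (f ^ 2 - f - 1) = 0 := by rw [hf]; ring
    have z3 : b3 * (f ^ 2 - f - 1) = 0 := by rw [hf]; ring
    have z4 : b3 * f * (f ^ 2 - f - 1) = 0 := by rw [hf]; ring
    have h5 : (a3 - b3) * (14036 * f - 22748) = 0 := by linarith
    have h6 : (14036 * f - 22748 : ℝ) ≠ 0 := by
      intro h7
      nlinarith
    have h8 := (mul_eq_zero.1 h5).resolve_right h6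
    linarith
  -- infinitely many equal values
  intro k P
  rw [hall' k P]
  have hn : ∀ n : ℕ, (X 0 (P + ((n : ℤ), 0))).2.2 = (X 0 P).2.2 := by
    intro n
    induction n with
    | zero => simp only [Nat.cast_zero, hPP]
    | succ m ih =>
      rw [← ih, hu (P + ((m : ℤ), 0))]
      congr 3
      ext <;> simp [add_assoc]
  by_contra hne
  have hinj : Function.Injective fun n : ℕ => P + (((n : ℤ), 0) : ℤ × ℤ) := by
    intro m n hmn
    have := congrArg Prod.fst hmn
    simpa using this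
  refine Set.infinite_of_injective_forall_mem hinj (s := {P : ℤ × ℤ | ∃ k, X k P ≠ 0}) ?_ hfin
  intro n
  refine ⟨0, fun h0 => hne ?_⟩
  rw [← hn n, h0]
  rfl

end Pool.Agent.H113R4.EN
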