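import Pool.Agent.H113R4.EN.Stubs

/-! The tangent condition. -/

set_option autoImplicit false

namespace Pool.Agent.H113R4.EN

open Filter Topology

/-- the inverse motion -/
noncomputable def minv (c : ℂ) (x : ℂ × ℝ) (w : ℂ) : ℂ :=
  c + Complex.exp (-(Complex.I * (x.2 : ℂ))) * (w - c - x.1)

theorem mot_minv (c : ℂ) (x : ℂ × ℝ) (w : ℂ) : mot c x (minv c x w) = w := by
  unfold mot minv
  have h : Complex.exp (Complex.I * (x.2 : ℂ)) * Complex.exp (-(Complex.I * (x.2 : ℂ))) = 1 := by
    rw [← Complex.exp_add, add_neg_cancel, Complex.exp_zero]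
  linear_combination (w - c - x.1) * h

theorem minv_mot (c : ℂ) (x : ℂ × ℝ) (z : ℂ) : minv c x (mot c x z) = z := by
  unfold mot minv
  have h : Complex.exp (Complex.I * (x.2 : ℂ)) * Complex.exp (-(Complex.I * (x.2 : ℂ))) = 1 := by
    rw [← Complex.exp_add, add_neg_cancel, Complex.exp_zero]
  linear_combination (z - c) * h

/-- motions are homeomorphisms -/
noncomputable def motH (c : ℂ) (x : ℂ × ℝ) : ℂ ≃ₜ ℂ where
  toFun := mot c x
  invFun := minv c x
  left_inv := minv_mot c x
  right_inv := mot_minv c x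
  continuous_toFun := by unfold mot; fun_prop
  continuous_invFun := by unfold minv; fun_prop

theorem mot_interior (c : ℂ) (x : ℂ × ℝ) (A : Set ℂ) {z : ℂ} (hz : z ∈ interior A) :
    mot c x z ∈ interior (mot c x '' A) := by
  have h := (motH c x).image_interior A
  have h2 : mot c x z ∈ (motH c x) '' interior A := ⟨z, hz, rfl⟩
  rw [h] at h2
  exact h2

/-- difference quotients of the exponential -/
theorem exp_quot (r θ : ℕ → ℝ) (η : ℝ) (hpos : ∀ n, 0 < r n) (hr : Tendsto r atTop (𝓝 0))
    (h : Tendsto (fun n => θ n / r n) atTop (𝓝 η)) :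
    Tendsto θ atTop (𝓝 0) ∧
    Tendsto (fun n => (Complex.exp (Complex.I * (θ n : ℂ)) - 1) / (r n : ℂ)) atTop
      (𝓝 (Complex.I * (η : ℂ))) := by
  have hθ : Tendsto θ atTop (𝓝 0) := by
    have h1 := h.mul hr
    rw [mul_zero] at h1
    refine h1.congr fun n => ?_
    exact div_mul_cancel₀ _ (hpos n).ne'
  refine ⟨hθ, ?_⟩
  have hz : Tendsto (fun n => Complex.I * (θ n : ℂ)) atTop (𝓝 0) := by
    have h1 : Tendsto (fun n => ((θ n : ℝ) : ℂ)) atTop (𝓝 ((0 : ℝ) : ℂ)) :=
      (Complex.continuous_ofReal.tendsto 0).comp hθ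
    have h2 := h1.const_mul Complex.I
    simpa using h2
  have hd : ContinuousAt (dslope Complex.exp 0) 0 :=
    continuousAt_dslope_same.mpr Complex.differentiableAt_exp
  have hd' : Tendsto (fun n => dslope Complex.exp 0 (Complex.I * (θ n : ℂ))) atTop (𝓝 1) := by
    have h1 := hd.tendsto.comp hz
    rw [dslope_same, Complex.deriv_exp, Complex.exp_zero] at h1
    exact h1
  have hq : Tendsto (fun n => Complex.I * ((θ n / r n : ℝ) : ℂ)) atTop (𝓝 (Complex.I * (η : ℂ))) :=
    ((Complex.continuous_ofReal.tendsto η).comp h).const_mul Complex.I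
  have h3 := hq.mul hd'
  rw [mul_one] at h3
  refine h3.congr fun n => ?_
  have h4 := sub_smul_dslope Complex.exp 0 (Complex.I * (θ n : ℂ))
  rw [Complex.exp_zero, sub_zero, smul_eq_mul] at h4
  rw [← h4]
  push_cast
  field_simp

theorem t_TAN : S_TAN := by
  intro A B p a b c c' r x x' y y' hA hB hpA hpB hdA hdB hpos hr hx hx' hv
  obtain ⟨s, hs, hsA⟩ := hdA
  obtain ⟨t, ht, htB⟩ := hdB
  have hx1 : Tendsto (fun n => (x n).1 / (r n : ℂ)) atTop (𝓝 y.1) :=
    (continuous_fst.tendsto y).comp hx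
  have hx2 : Tendsto (fun n => (x n).2 / r n) atTop (𝓝 y.2) :=
    (continuous_snd.tendsto y).comp hx
  have hx1' : Tendsto (fun n => (x' n).1 / (r n : ℂ)) atTop (𝓝 y'.1) :=
    (continuous_fst.tendsto y').comp hx'
  have hx2' : Tendsto (fun n => (x' n).2 / r n) atTop (𝓝 y'.2) :=
    (continuous_snd.tendsto y').comp hx'
  obtain ⟨hθ, he⟩ := exp_quot r _ _ hpos hr hx2
  have hneg : Tendsto (fun n => (-(x' n).2) / r n) atTop (𝓝 (-y'.2)) := by
    refine hx2'.neg.congr fun n => ?_
    rw [neg_div]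
  obtain ⟨hθ', he'⟩ := exp_quot r (fun n => -(x' n).2) _ hpos hr hneg
  have hrC : Tendsto (fun n => ((r n : ℝ) : ℂ)) atTop (𝓝 0) := by
    have := (Complex.continuous_ofReal.tendsto 0).comp hr
    rw [Complex.ofReal_zero] at this
    exact this
  -- the point in the second coordinate system
  let w : ℕ → ℂ := fun n => minv c' (x' n) (mot c (x n) (p + (r n : ℂ) * a))
  have hexp' : Tendsto (fun n => Complex.exp (Complex.I * ((-(x' n).2 : ℝ) : ℂ))) atTop (𝓝 1) := by
    have h1 : Tendsto (fun n => Complex.I * ((-(x' n).2 : ℝ) : ℂ)) atTop (𝓝 0) := by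
      have h2 := ((Complex.continuous_ofReal.tendsto 0).comp hθ').const_mul Complex.I
      simpa using h2
    have h3 := (Complex.continuous_exp.tendsto 0).comp h1
    rw [Complex.exp_zero] at h3
    exact h3
  have hw : Tendsto (fun n => (w n - p) / (r n : ℂ)) atTop (𝓝 b) := by
    have hz : Tendsto (fun n => p + (r n : ℂ) * a - c) atTop (𝓝 (p - c)) := by
      have h1 := (hrC.mul_const a).const_add p
      have h2 := h1.sub_const c
      simpa using h2
    have hlim : Tendsto (fun n =>
        (Complex.exp (Complex.I * ((-(x' n).2 : ℝ) : ℂ)) - 1) / (r n : ℂ) * (p - c') +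
        Complex.exp (Complex.I * ((-(x' n).2 : ℝ) : ℂ)) *
          ((x n).1 / (r n : ℂ) - (x' n).1 / (r n : ℂ) +
            (Complex.exp (Complex.I * ((x n).2 : ℂ)) - 1) / (r n : ℂ) *
              (p + (r n : ℂ) * a - c) + a)) atTop
        (𝓝 (Complex.I * ((-y'.2 : ℝ) : ℂ) * (p - c') +
          1 * (y.1 - y'.1 + Complex.I * (y.2 : ℂ) * (p - c) + a))) :=
      (he'.mul_const _).add (hexp'.mul (((hx1.sub hx1').add (he.mul hz)).add_const a))
    have hval : Complex.I * ((-y'.2 : ℝ) : ℂ) * (p - c') +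
          1 * (y.1 - y'.1 + Complex.I * (y.2 : ℂ) * (p - c) + a) = b := by
      unfold vel at hv
      push_cast
      linear_combination hv
    rw [hval] at hlim
    refine hlim.congr fun n => ?_
    have hrn : (r n : ℂ) ≠ 0 := by exact_mod_cast (hpos n).ne'
    simp only [w, minv, mot]
    have e1 : -(Complex.I * ((x' n).2 : ℂ)) = Complex.I * ((-(x' n).2 : ℝ) : ℂ) := by
      push_cast; ring
    rw [e1]
    field_simp
    ring
  -- eventually interior
  have hA' : ∀ᶠ n in atTop, p + (r n : ℂ) * a ∈ interior A := by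
    have h1 : ∀ᶠ n in atTop, r n < s := hr.eventually_lt_const hs
    filter_upwards [h1] with n hn
    have h2 := hA.add_smul_mem_interior hpA hsA (t := r n / s)
      ⟨div_pos (hpos n) hs, (div_le_one hs).mpr hn.le⟩
    have h3 : (r n / s) • ((s : ℂ) * a) = (r n : ℂ) * a := by
      rw [Complex.real_smul]
      push_cast
      have : (s : ℂ) ≠ 0 := by exact_mod_cast hs.ne'
      field_simp
    rw [h3] at h2
    exact h2
  have hB' : ∀ᶠ n in atTop, w n ∈ interior B := by
    have h1 : ∀ᶠ n in atTop, r n < t := hr.eventually_lt_const ht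
    have h2 : Tendsto (fun n => p + (t : ℂ) * ((w n - p) / (r n : ℂ))) atTop
        (𝓝 (p + (t : ℂ) * b)) := (hw.const_mul _).const_add p
    have h3 : ∀ᶠ n in atTop, p + (t : ℂ) * ((w n - p) / (r n : ℂ)) ∈ interior B :=
      h2.eventually (isOpen_interior.mem_nhds htB)
    filter_upwards [h1, h3] with n hn hn3
    have h4 := hB.add_smul_mem_interior hpB hn3 (t := r n / t)
      ⟨div_pos (hpos n) ht, (div_le_one ht).mpr hn.le⟩
    have h5 : p + (r n / t) • ((t : ℂ) * ((w n - p) / (r n : ℂ))) = w n := by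
      rw [Complex.real_smul]
      push_cast
      have : (t : ℂ) ≠ 0 := by exact_mod_cast ht.ne'
      have hrn : (r n : ℂ) ≠ 0 := by exact_mod_cast (hpos n).ne'
      field_simp
      ring
    rw [h5] at h4
    exact h4
  filter_upwards [hA', hB'] with n h1 h2 hdis
  rw [Set.disjoint_left] at hdis
  refine hdis (mot_interior c (x n) A h1) ?_
  have h3 := mot_interior c' (x' n) B h2
  rw [mot_minv] at h3
  exact h3

end Pool.Agent.H113R4.EN
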