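import Mathlib
import Pool.Agent.H113R4.EN.Stubs

/-! # Task BODY: the tiles are convex bodies congruent to `K` -/

namespace Pool.Agent.H113R4.EN

namespace BODYaux

theorem ze_norm : ‖ze‖ = 1 := by
  unfold ze
  exact Complex.norm_exp_ofReal_mul_I _

theorem zek_norm (k : ℕ) : ‖ze ^ k‖ = 1 := by
  rw [norm_pow, ze_norm, one_pow]

theorem zek_ne (k : ℕ) : ze ^ k ≠ 0 := by
  intro h
  have h1 := zek_norm k
  rw [h, norm_zero] at h1
  exact zero_ne_one h1

/-- the isometry which maps `K` to the tile -/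
noncomputable def gi (k : ℕ) (c : ℂ) : ℂ ≃ᵢ ℂ where
  toFun z := c + ze ^ k * z
  invFun z := (ze ^ k)⁻¹ * (z - c)
  left_inv z := by
    have h := zek_ne k
    show (ze ^ k)⁻¹ * (c + ze ^ k * z - c) = z
    rw [add_sub_cancel_left, inv_mul_cancel_left₀ h]
  right_inv z := by
    have h := zek_ne k
    show c + ze ^ k * ((ze ^ k)⁻¹ * (z - c)) = z
    rw [mul_inv_cancel_left₀ h]
    ring
  isometry_toFun := by
    apply Isometry.of_dist_eq
    intro z w
    show dist (c + ze ^ k * z) (c + ze ^ k * w) = dist z w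
    rw [dist_eq_norm, dist_eq_norm]
    have h : c + ze ^ k * z - (c + ze ^ k * w) = ze ^ k * (z - w) := by ring
    rw [h, norm_mul, zek_norm, one_mul]

theorem K_int (hF : S_F) (hPT : S_PT) : (interior K).Nonempty := by
  obtain ⟨-, hf1, hf2⟩ := hF
  obtain ⟨-, -, -, -, -, hex, -⟩ := hPT
  unfold K
  rw [interior_convexHull_nonempty_iff_affineSpan_eq_top,
    AffineSubspace.affineSpan_eq_top_iff_vectorSpan_eq_top_of_nonempty ℝ ℂ ℂ
      (Set.range_nonempty V), eq_top_iff]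
  intro z _
  obtain ⟨a, b, rfl⟩ := hex z
  have hs : (44 * f - 55 : ℝ) ≠ 0 := by
    intro h
    linarith
  have h1 : V 1 - V 0 ∈ vectorSpan ℝ (Set.range V) :=
    vsub_mem_vectorSpan ℝ ⟨1, rfl⟩ ⟨0, rfl⟩
  have h5 : V 5 - V 0 ∈ vectorSpan ℝ (Set.range V) :=
    vsub_mem_vectorSpan ℝ ⟨5, rfl⟩ ⟨0, rfl⟩
  have e1 : V 1 - V 0 = ((44 * f - 55 : ℝ) : ℂ) := by
    show pt (44 * f - 55) 0 - pt 0 0 = _
    unfold pt
    push_cast
    ring
  have e5 : V 5 - V 0 = ((44 * f - 55 : ℝ) : ℂ) * ze := by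
    show pt 0 (44 * f - 55) - pt 0 0 = _
    unfold pt
    push_cast
    ring
  have hs' : ((44 * f - 55 : ℝ) : ℂ) ≠ 0 := by exact_mod_cast hs
  have h : pt a b = (a / (44 * f - 55)) • (V 1 - V 0) + (b / (44 * f - 55)) • (V 5 - V 0) := by
    rw [e1, e5, Complex.real_smul, Complex.real_smul, Complex.ofReal_div, Complex.ofReal_div,
      ← mul_assoc, div_mul_cancel₀ _ hs', div_mul_cancel₀ _ hs']
    rfl
  rw [h]
  exact Submodule.add_mem _ (Submodule.smul_mem _ _ h1) (Submodule.smul_mem _ _ h5)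

end BODYaux

open BODYaux in
theorem t_BODY (hF : S_F) (hPT : S_PT) : S_BODY := by
  have hK : IsBody K := ⟨(Set.finite_range V).isCompact_convexHull (𝕜 := ℝ), convex_convexHull ℝ _,
    K_int hF hPT⟩
  refine ⟨hK, fun k P => ⟨⟨?_, ?_, ?_⟩, ⟨gi k (cen P), rfl⟩, fun i => ?_⟩⟩
  · exact hK.1.image (gi k (cen P)).continuous
  · rintro _ ⟨z, hz, rfl⟩ _ ⟨w, hw, rfl⟩ a b ha hb hab
    refine ⟨a • z + b • w, hK.2.1 hz hw ha hb hab, ?_⟩
    have hab' : (a : ℂ) + (b : ℂ) = 1 := by exact_mod_cast hab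
    show cen P + ze ^ (k : ℕ) * (a • z + b • w) =
      a • (cen P + ze ^ (k : ℕ) * z) + b • (cen P + ze ^ (k : ℕ) * w)
    simp only [Complex.real_smul]
    linear_combination (-cen P) * hab'
  · have h : (gi k (cen P)).toHomeomorph '' interior K = interior (tile k P) :=
      (gi k (cen P)).toHomeomorph.image_interior K
    rw [← h]
    exact hK.2.2.image _
  · exact ⟨V i, subset_convexHull ℝ _ ⟨i, rfl⟩, rfl⟩

end Pool.Agent.H113R4.EN
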