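import Mathlib
import Pool.Agent.H113R4.EN.Stubs

/-! # Every tile has exactly eleven neighbours -/

namespace Pool.Agent.H113R4.EN

namespace CNTaux

/-- touching pairs, `l` in the star `P + d` and `k` in the star `P` -/
def adj (k l : Fin 10) (d : ℤ × ℤ) : Bool :=
  (decide (d = (0, 0)) && decide (k ≠ l)) ||
  (decide (d = (1, 0)) && decide ((k, l) ∈ touchU)) ||
  (decide (d = (-1, 0)) && decide ((l, k) ∈ touchU)) ||
  (decide (d = (0, 1)) && decide ((k, l) ∈ touchV)) ||
  (decide (d = (0, -1)) && decide ((l, k) ∈ touchV))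

/-- the possible differences -/
def ds : Finset (ℤ × ℤ) := {(0, 0), (1, 0), (-1, 0), (0, 1), (0, -1)}

/-- the indices of the neighbours of `tile k P`, relative to `P` -/
def nb (k : Fin 10) : Finset (Fin 10 × (ℤ × ℤ)) :=
  ((Finset.univ : Finset (Fin 10)) ×ˢ ds).filter fun x => adj k x.1 x.2 = true

lemma nb_card : ∀ k : Fin 10, (nb k).card = 11 := by decide +kernel

lemma adj_iff (k l : Fin 10) (d : ℤ × ℤ) : adj k l d = true ↔
    (d = (0, 0) ∧ k ≠ l) ∨ (d = (1, 0) ∧ (k, l) ∈ touchU) ∨ (d = (-1, 0) ∧ (l, k) ∈ touchU) ∨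
      (d = (0, 1) ∧ (k, l) ∈ touchV) ∨ (d = (0, -1) ∧ (l, k) ∈ touchV) := by
  simp only [adj, Bool.or_eq_true, Bool.and_eq_true, decide_eq_true_eq]
  tauto

lemma mem_nb (k l : Fin 10) (d : ℤ × ℤ) : (l, d) ∈ nb k ↔ adj k l d = true := by
  simp only [nb, Finset.mem_filter, Finset.mem_product, Finset.mem_univ, true_and]
  constructor
  · exact fun h => h.2
  · intro h
    refine ⟨?_, h⟩
    rw [adj_iff] at h
    rcases h with h | h | h | h | h <;> rw [h.1] <;> simp [ds]

lemma cases_d (d : ℤ × ℤ) : d = (0, 0) ∨ d = (1, 0) ∨ d = (-1, 0) ∨ d = (0, 1) ∨ d = (0, -1) ∨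
    2 ≤ d.1 ^ 2 + d.2 ^ 2 := by
  obtain ⟨a, b⟩ := d
  by_cases h : 2 ≤ a ^ 2 + b ^ 2
  · exact Or.inr (Or.inr (Or.inr (Or.inr (Or.inr h))))
  · push Not at h
    have ha : -1 ≤ a := by nlinarith [sq_nonneg b]
    have ha' : a ≤ 1 := by nlinarith [sq_nonneg b]
    have hb : -1 ≤ b := by nlinarith [sq_nonneg a]
    have hb' : b ≤ 1 := by nlinarith [sq_nonneg a]
    interval_cases a <;> interval_cases b <;> simp_all

section

variable (hBODY : S_BODY) (hSAME : S_SAME) (hNU1 : S_NU1) (hNU2 : S_NU2) (hNV1 : S_NV1)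
  (hNV2 : S_NV2) (hFAR : S_FAR) (hCON : S_CON) (hCONE : S_CONE)

include hSAME hNU1 hNV1 hFAR in
lemma disj (k l : Fin 10) (P d : ℤ × ℤ) (h : (l, d) ≠ (k, (0, 0))) :
    Disjoint (interior (tile k P)) (interior (tile l (P + d))) := by
  rcases cases_d d with rfl | rfl | rfl | rfl | rfl | hd
  · have hkl : k ≠ l := fun e => h (by rw [e])
    have : P + (0, 0) = P := by
      ext <;> simp
    rw [this]
    exact hSAME k l P hkl
  · exact hNU1 k l P
  · have := hNU1 l k (P + (-1, 0))
    have e : P + (-1, 0) + (1, 0) = P := by ext <;> simp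
    rw [e] at this
    exact this.symm
  · exact hNV1 k l P
  · have := hNV1 l k (P + (0, -1))
    have e : P + (0, -1) + (0, 1) = P := by ext <;> simp
    rw [e] at this
    exact this.symm
  · have := hFAR k l P (P + d) (by simpa using hd)
    exact this.mono interior_subset interior_subset

include hNU2 hNV2 hFAR in
lemma adj_of_touch (k l : Fin 10) (P d : ℤ × ℤ) (h : (l, d) ≠ (k, (0, 0)))
    (ht : (tile k P ∩ tile l (P + d)).Nonempty) : adj k l d = true := by
  rw [adj_iff]
  rw [← Set.not_disjoint_iff_nonempty_inter] at ht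
  rcases cases_d d with rfl | rfl | rfl | rfl | rfl | hd
  · exact Or.inl ⟨rfl, fun e => h (by rw [e])⟩
  · refine Or.inr (Or.inl ⟨rfl, ?_⟩)
    by_contra hc
    exact ht (hNU2 k l P hc)
  · refine Or.inr (Or.inr (Or.inl ⟨rfl, ?_⟩))
    by_contra hc
    have := hNU2 l k (P + (-1, 0)) hc
    have e : P + (-1, 0) + (1, 0) = P := by ext <;> simp
    rw [e] at this
    exact ht this.symm
  · refine Or.inr (Or.inr (Or.inr (Or.inl ⟨rfl, ?_⟩)))
    by_contra hc
    exact ht (hNV2 k l P hc)
  · refine Or.inr (Or.inr (Or.inr (Or.inr ⟨rfl, ?_⟩)))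
    by_contra hc
    have := hNV2 l k (P + (0, -1)) hc
    have e : P + (0, -1) + (0, 1) = P := by ext <;> simp
    rw [e] at this
    exact ht this.symm
  · exact absurd (hFAR k l P (P + d) (by simpa using hd)) ht

include hBODY hCON in
lemma contact (c : Fin 12) (P : ℤ × ℤ) :
    (tile (kA c) (P + dA c) ∩ tile (kB c) (P + dB c)).Nonempty := by
  obtain ⟨h1, q₁, hq₁, q₂, hq₂, -, h2, -⟩ := hCON c P
  refine ⟨_, h1, ?_⟩
  exact (hBODY.2 (kB c) (P + dB c)).1.2.1.openSegment_subset hq₁ hq₂ h2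

include hBODY hCON in
lemma touch_U (k l : Fin 10) (P : ℤ × ℤ) (h : (k, l) ∈ touchU) :
    (tile k P ∩ tile l (P + (1, 0))).Nonempty := by
  have e : P + (0, 0) = P := by ext <;> simp
  simp only [touchU, List.mem_cons, Prod.mk.injEq, List.not_mem_nil, or_false] at h
  rcases h with ⟨rfl, rfl⟩ | ⟨rfl, rfl⟩ | ⟨rfl, rfl⟩ | ⟨rfl, rfl⟩ | ⟨rfl, rfl⟩
  · have := contact hBODY hCON 0 P
    change (tile 0 (P + (0, 0)) ∩ tile 5 (P + (1, 0))).Nonempty at this
    rwa [e] at this
  · have := contact hBODY hCON 2 P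
    change (tile 6 (P + (1, 0)) ∩ tile 9 (P + (0, 0))).Nonempty at this
    rw [e, Set.inter_comm] at this
    exact this
  · have := contact hBODY hCON 3 P
    change (tile 1 (P + (0, 0)) ∩ tile 4 (P + (1, 0))).Nonempty at this
    rwa [e] at this
  · have := contact hBODY hCON 4 P
    change (tile 0 (P + (0, 0)) ∩ tile 6 (P + (1, 0))).Nonempty at this
    rwa [e] at this
  · have := contact hBODY hCON 5 P
    change (tile 5 (P + (1, 0)) ∩ tile 1 (P + (0, 0))).Nonempty at this
    rw [e, Set.inter_comm] at this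
    exact this

include hBODY hCON in
lemma touch_V (k l : Fin 10) (P : ℤ × ℤ) (h : (k, l) ∈ touchV) :
    (tile k P ∩ tile l (P + (0, 1))).Nonempty := by
  have e : P + (0, 0) = P := by ext <;> simp
  simp only [touchV, List.mem_cons, Prod.mk.injEq, List.not_mem_nil, or_false] at h
  rcases h with ⟨rfl, rfl⟩ | ⟨rfl, rfl⟩ | ⟨rfl, rfl⟩ | ⟨rfl, rfl⟩ | ⟨rfl, rfl⟩
  · have := contact hBODY hCON 6 P
    change (tile 3 (P + (0, 0)) ∩ tile 8 (P + (0, 1))).Nonempty at this
    rwa [e] at this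
  · have := contact hBODY hCON 8 P
    change (tile 7 (P + (0, 1)) ∩ tile 4 (P + (0, 0))).Nonempty at this
    rw [e, Set.inter_comm] at this
    exact this
  · have := contact hBODY hCON 9 P
    change (tile 2 (P + (0, 0)) ∩ tile 9 (P + (0, 1))).Nonempty at this
    rwa [e] at this
  · have := contact hBODY hCON 10 P
    change (tile 3 (P + (0, 0)) ∩ tile 7 (P + (0, 1))).Nonempty at this
    rwa [e] at this
  · have := contact hBODY hCON 11 P
    change (tile 8 (P + (0, 1)) ∩ tile 2 (P + (0, 0))).Nonempty at this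
    rw [e, Set.inter_comm] at this
    exact this

include hBODY hCON hCONE in
lemma touch_of_adj (k l : Fin 10) (P d : ℤ × ℤ) (h : adj k l d = true) :
    (tile k P ∩ tile l (P + d)).Nonempty := by
  rw [adj_iff] at h
  rcases h with ⟨rfl, -⟩ | ⟨rfl, h⟩ | ⟨rfl, h⟩ | ⟨rfl, h⟩ | ⟨rfl, h⟩
  · have e : P + (0, 0) = P := by ext <;> simp
    rw [e]
    exact ⟨cen P, (hCONE k P 1 1 one_pos one_pos).1, (hCONE l P 1 1 one_pos one_pos).1⟩
  · exact touch_U hBODY hCON k l P h
  · have := touch_U hBODY hCON l k (P + (-1, 0)) h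
    have e : P + (-1, 0) + (1, 0) = P := by ext <;> simp
    rw [e, Set.inter_comm] at this
    exact this
  · exact touch_V hBODY hCON k l P h
  · have := touch_V hBODY hCON l k (P + (0, -1)) h
    have e : P + (0, -1) + (0, 1) = P := by ext <;> simp
    rw [e, Set.inter_comm] at this
    exact this

include hSAME hNU1 hNV1 hFAR in
lemma disj' (i j : Fin 10 × (ℤ × ℤ)) (h : i ≠ j) :
    Disjoint (interior (tile i.1 i.2)) (interior (tile j.1 j.2)) := by
  have := disj hSAME hNU1 hNV1 hFAR i.1 j.1 i.2 (j.2 - i.2) (by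
    intro e
    apply h
    have e1 := congrArg Prod.fst e
    have e2 := congrArg Prod.snd e
    have e3 : j.2 - i.2 = 0 := e2
    have e4 : j.2 = i.2 := sub_eq_zero.mp e3
    exact Prod.ext e1.symm e4.symm)
  rwa [add_sub_cancel] at this

include hBODY hSAME hNU1 hNV1 hFAR in
lemma inj (i j : Fin 10 × (ℤ × ℤ)) (h : tile i.1 i.2 = tile j.1 j.2) : i = j := by
  by_contra hne
  have h1 := disj' hSAME hNU1 hNV1 hFAR i j hne
  rw [← h, disjoint_self] at h1
  exact (hBODY.2 i.1 i.2).1.2.2.ne_empty h1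

include hBODY hSAME hNU1 hNU2 hNV1 hNV2 hFAR hCON hCONE in
lemma main : S_CNT := by
  refine ⟨inj hBODY hSAME hNU1 hNV1 hFAR, ⟨?_, ?_⟩, ?_⟩
  · rintro C ⟨i, rfl⟩
    exact (hBODY.2 i.1 i.2).1
  · rintro A ⟨i, rfl⟩ B ⟨j, rfl⟩ hne
    exact disj' hSAME hNU1 hNV1 hFAR i j (fun e => hne (by rw [e]))
  · rintro C ⟨⟨k, P⟩, rfl⟩
    have hinj : Function.Injective fun x : Fin 10 × (ℤ × ℤ) => tile x.1 (P + x.2) := by
      intro x y hxy
      have := inj hBODY hSAME hNU1 hNV1 hFAR (x.1, P + x.2) (y.1, P + y.2) hxy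
      have e1 := congrArg Prod.fst this
      have e2 := congrArg Prod.snd this
      exact Prod.ext e1 (add_left_cancel e2)
    have hset : nbrs FF (tile k P) =
        (fun x : Fin 10 × (ℤ × ℤ) => tile x.1 (P + x.2)) '' ((nb k : Finset _) : Set _) := by
      ext D
      constructor
      · rintro ⟨⟨⟨l, Q⟩, rfl⟩, hne, ht⟩
        refine ⟨(l, Q - P), ?_, ?_⟩
        · rw [Finset.mem_coe, mem_nb]
          apply adj_of_touch hNU2 hNV2 hFAR k l P (Q - P)
          · intro e
            apply hne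
            have e1 : l = k := congrArg Prod.fst e
            have e2 : Q - P = 0 := congrArg Prod.snd e
            have e3 : Q = P := sub_eq_zero.mp e2
            simp only [e1, e3]
          · rwa [add_sub_cancel]
        · simp only [add_sub_cancel]
      · rintro ⟨⟨l, d⟩, hx, rfl⟩
        rw [Finset.mem_coe, mem_nb] at hx
        refine ⟨⟨(l, P + d), rfl⟩, ?_, touch_of_adj hBODY hCON hCONE k l P d hx⟩
        intro e
        have := inj hBODY hSAME hNU1 hNV1 hFAR (l, P + d) (k, P) e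
        have e1 : l = k := congrArg Prod.fst this
        have e2 : P + d = P := congrArg Prod.snd this
        have e3 : d = 0 := by simpa using e2
        rw [adj_iff, e1, e3] at hx
        rcases hx with h | h | h | h | h
        · exact h.2 rfl
        · exact absurd h.1 (by decide)
        · exact absurd h.1 (by decide)
        · exact absurd h.1 (by decide)
        · exact absurd h.1 (by decide)
    change (nbrs FF (tile k P)).encard = 11
    rw [hset, hinj.encard_image, Set.encard_coe_eq_coe_finsetCard, nb_card]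
    rfl

end

end CNTaux

/-- Every tile has exactly eleven neighbours; the family has no repetitions. -/
theorem t_CNT (hSAME : S_SAME) (hNU1 : S_NU1) (hNU2 : S_NU2) (hNV1 : S_NV1) (hNV2 : S_NV2)
    (hFAR : S_FAR) (hBODY : S_BODY) (hCON : S_CON) (hCONE : S_CONE) : S_CNT :=
  CNTaux.main hBODY hSAME hNU1 hNU2 hNV1 hNV2 hFAR hCON hCONE

end Pool.Agent.H113R4.EN
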