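import Mathlib
import Pool.Agent.H113R4.EN.Stubs

/-! # Transition to coordinates -/

namespace Pool.Agent.H113R4.EN

open Filter Topology

namespace COaux

/-- the translation part in coordinates -/
theorem pt_co (hZ : S_Z) (x : ℂ × ℝ) : pt (co x).1 (co x).2.1 = x.1 := by
  obtain ⟨-, -, h0, hre, -⟩ := hZ
  have h0' : ze.im ≠ 0 := h0.ne'
  apply Complex.ext
  · simp only [pt, co, Complex.add_re, Complex.mul_re, Complex.ofReal_re, Complex.ofReal_im,
      zero_mul, sub_zero, hre]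
    ring
  · simp only [pt, co, Complex.add_im, Complex.mul_im, Complex.ofReal_re, Complex.ofReal_im,
      zero_mul, add_zero, zero_add]
    field_simp

theorem mul_pt (hZ : S_Z) (a b : ℝ) :
    (2 * ze - (f : ℂ)) * pt a b = pt (-f * a - 2 * b) (2 * a + f * b) := by
  obtain ⟨h1, -⟩ := hZ
  simp only [pt]
  push_cast
  linear_combination (2 * (b : ℂ)) * h1

theorem vel_eq (hZ : S_Z) (c : ℂ) (x : ℂ × ℝ) (a b : ℝ) :
    vel c x (c + pt a b) = pt (velc (co x) (a, b)).1 (velc (co x) (a, b)).2 := by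
  have h0 : ze.im ≠ 0 := hZ.2.2.1.ne'
  have hI := hZ.2.2.2.2.2.2.1
  have h2 : Complex.I * (x.2 : ℂ) = ((co x).2.2 : ℂ) * (2 * ze - (f : ℂ)) := by
    rw [← hI]
    have h3 : (x.2 : ℂ) = ((co x).2.2 : ℂ) * ((2 * ze.im : ℝ) : ℂ) := by
      rw [← Complex.ofReal_mul]
      congr 1
      simp only [co]
      field_simp
    rw [h3]
    ring
  have h4 : vel c x (c + pt a b) = x.1 + Complex.I * (x.2 : ℂ) * pt a b := by
    simp only [vel]
    ring
  rw [h4, h2, mul_assoc, mul_pt hZ, ← pt_co hZ x]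
  simp only [pt, velc]
  push_cast
  ring

theorem crs_eq (hPT : S_PT) (a b c d c' d' : ℝ) :
    crs (pt a b) (pt c d - pt c' d') = ze.im * dt (a, b) ((c, d) - (c', d')) := by
  obtain ⟨-, h2, -, -, h5, -⟩ := hPT
  rw [h2, h5]
  simp only [dt, Prod.mk_sub_mk]

/-- the gap along the common side, as a function of the distance to the centre -/
noncomputable def ga (y : Fin 10 → ℤ × ℤ → ℂ × ℝ) (k : Fin 10) (P : ℤ × ℤ) (t : ℝ) : ℝ :=
  dt (rho k) (velc (co (y k P)) (t • rho k) - velc (co (y (k - 1) P)) (t • rho k))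

theorem ga_nonneg (hZ : S_Z) (hPT : S_PT) (y : Fin 10 → ℤ × ℤ → ℂ × ℝ) (hy : FO y) (k : Fin 10)
    (P : ℤ × ℤ) (t : ℝ) (h0 : 0 < t) (h1 : t < 44 * f - 55) : 0 ≤ ga y k P t := by
  have h := hy.inner k P t h0 h1
  have hz : ze ^ (k : ℕ) = pt (rho k).1 (rho k).2 := hZ.2.2.2.2.2.2.2 k
  have e1 : (t : ℂ) * ze ^ (k : ℕ) = pt (t * (rho k).1) (t * (rho k).2) := by
    rw [hz]
    exact hPT.2.2.1 _ _ _
  rw [e1, vel_eq hZ, vel_eq hZ, hz, crs_eq hPT] at h
  exact nonneg_of_mul_nonneg_right h hZ.2.2.1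

theorem ga_cont (y : Fin 10 → ℤ × ℤ → ℂ × ℝ) (k : Fin 10) (P : ℤ × ℤ) :
    Continuous (ga y k P) := by
  have e : ga y k P = fun t => dt (rho k) (velc (co (y k P)) (t • rho k) -
      velc (co (y (k - 1) P)) (t • rho k)) := rfl
  rw [e]
  simp only [dt, velc]
  fun_prop

theorem ga_nonneg' (hF : S_F) (hZ : S_Z) (hPT : S_PT) (y : Fin 10 → ℤ × ℤ → ℂ × ℝ) (hy : FO y)
    (k : Fin 10) (P : ℤ × ℤ) (t : ℝ) (h0 : 0 ≤ t) (h1 : t ≤ 44 * f - 55) : 0 ≤ ga y k P t := by
  have hc : IsClosed {t | 0 ≤ ga y k P t} := isClosed_le continuous_const (ga_cont y k P)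
  have hpos : (0 : ℝ) ≠ 44 * f - 55 := by
    have := hF.2.1
    intro h
    linarith
  have hsub : Set.Ioo (0 : ℝ) (44 * f - 55) ⊆ {t | 0 ≤ ga y k P t} :=
    fun t ht => ga_nonneg hZ hPT y hy k P t ht.1 ht.2
  have h2 := closure_minimal hsub hc
  rw [closure_Ioo hpos] at h2
  exact h2 ⟨h0, h1⟩

theorem pairs_lt (j k : ℕ) (h : (j, k) ∈ pairs) : j + 1 < 10 ∧ k < 10 := by
  simp only [pairs, List.mem_cons, Prod.mk.injEq, List.not_mem_nil, or_false] at h
  omega

end COaux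

open COaux in
theorem t_CO (hF : S_F) (hZ : S_Z) (hPT : S_PT) : S_CO := by
  have h0 : ze.im ≠ 0 := hZ.2.2.1.ne'
  refine ⟨?_, ?_, ?_⟩
  · intro x hx
    have h1 := pt_co hZ x
    rw [hx] at h1
    have h2 : x.2 / (2 * ze.im) = 0 := congrArg (fun z : ℝ × ℝ × ℝ => z.2.2) hx
    apply Prod.ext
    · rw [← h1]
      simp [pt]
    · rw [div_eq_zero_iff] at h2
      rcases h2 with h2 | h2
      · exact h2
      · exact absurd h2 (mul_ne_zero two_ne_zero h0)
  · simp [co]
  · intro y hy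
    have hT : 0 ≤ 44 * f - 55 := by
      have := hF.2.1
      linarith
    refine ⟨?_, ?_, ?_, ?_⟩
    · intro k P
      have h := ga_nonneg' hF hZ hPT y hy k P 0 le_rfl hT
      simp only [ga, zero_smul] at h
      exact h
    · intro k P
      exact ga_nonneg' hF hZ hPT y hy k P _ hT le_rfl
    · intro c P
      have h := hy.outer c P
      have e : ∀ d : ℤ × ℤ, cen P + pt (p1 c) (p2 c) =
          cen (P + d) + pt (p1 c - (lat d).1) (p2 c - (lat d).2) := by
        intro d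
        have h9 := hPT.2.2.2.2.2.2.2.2.1 d
        have h10 := hPT.2.2.2.2.2.2.2.2.2 P d
        rw [← hPT.2.1, ← h9, h10]
        ring
      have eA : vel (cen (P + dA c)) (y (kA c) (P + dA c)) (cen P + pt (p1 c) (p2 c)) =
          pt (velc (co (y (kA c) (P + dA c))) ((p1 c, p2 c) - lat (dA c))).1
            (velc (co (y (kA c) (P + dA c))) ((p1 c, p2 c) - lat (dA c))).2 := by
        rw [e (dA c), vel_eq hZ]
        rfl
      have eB : vel (cen (P + dB c)) (y (kB c) (P + dB c)) (cen P + pt (p1 c) (p2 c)) =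
          pt (velc (co (y (kB c) (P + dB c))) ((p1 c, p2 c) - lat (dB c))).1
            (velc (co (y (kB c) (P + dB c))) ((p1 c, p2 c) - lat (dB c))).2 := by
        rw [e (dB c), vel_eq hZ]
        rfl
      rw [eA, eB, crs_eq hPT] at h
      have h2 : dt (e1 c, e2 c)
          (velc (co (y (kA c) (P + dA c))) ((p1 c, p2 c) - lat (dA c)) -
            velc (co (y (kB c) (P + dB c))) ((p1 c, p2 c) - lat (dB c))) ≤ 0 := by
        by_contra hcon
        push Not at hcon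
        have := mul_pos hZ.2.2.1 hcon
        linarith
      unfold O
      linarith
    · intro P j k hjk α β hα hβ heq
      apply hy.center P j k hjk α β hα hβ
      obtain ⟨hj, hk⟩ := pairs_lt j k hjk
      have hz1 := hZ.2.2.2.2.2.2.2 (Fin.ofNat 10 (j + 1))
      have hz2 := hZ.2.2.2.2.2.2.2 (Fin.ofNat 10 k)
      have n1 : ((Fin.ofNat 10 (j + 1) : Fin 10) : ℕ) = j + 1 := Nat.mod_eq_of_lt hj
      have n2 : ((Fin.ofNat 10 k : Fin 10) : ℕ) = k := Nat.mod_eq_of_lt hk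
      rw [n1] at hz1
      rw [n2] at hz2
      rw [hz1, hz2, hPT.2.2.1, hPT.2.2.1, hPT.2.1, ← pt_co hZ (y (Fin.ofNat 10 k) P),
        ← pt_co hZ (y (Fin.ofNat 10 j) P), hPT.2.1]
      have q1 := congrArg Prod.fst heq
      have q2 := congrArg Prod.snd heq
      simp only [Prod.fst_sub, Prod.snd_sub, Prod.smul_fst, Prod.smul_snd, smul_eq_mul] at q1 q2
      rw [q1, q2]

end Pool.Agent.H113R4.EN
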