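import Mathlib
import Pool.Agent.H113R4.EN.Stubs

/-! # Task CON: the geometric data of the twelve outer contacts -/

set_option autoImplicit false

namespace Pool.Agent.H113R4.EN

namespace CONaux

theorem rot (hZ : S_Z) (hPT : S_PT) (k : Fin 10) (r1 r2 a b : ℝ) (hr : rho k = (r1, r2)) :
    ze ^ (k : ℕ) * pt a b = pt (a * r1 - b * r2) (a * r2 + b * (r1 + f * r2)) := by
  obtain ⟨hadd, _, hsm, hze, _⟩ := hPT
  obtain ⟨_, _, _, _, _, _, _, hpow⟩ := hZ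
  have h1 : ze ^ (k : ℕ) = pt r1 r2 := by rw [hpow k, hr]
  have h2 : ze ^ (k : ℕ) * pt a b = (a : ℂ) * pt r1 r2 + (b : ℂ) * (ze * pt r1 r2) := by
    rw [← h1]
    unfold pt
    ring
  rw [h2, hze, hsm, hsm, hadd]
  congr 1
  ring

/-- coordinates of the vertices -/
noncomputable def v1 : Fin 6 → ℝ := ![0, 44 * f - 55, 77 - 33 * f, 22, 44 - 22 * f, 0]

/-- coordinates of the vertices -/
noncomputable def v2 : Fin 6 → ℝ := ![0, 0, 44 - 22 * f, 22, 77 - 33 * f, 44 * f - 55]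

theorem hV : ∀ i, V i = pt (v1 i) (v2 i) := by
  intro i
  fin_cases i <;> rfl

theorem conv (hZ : S_Z) (hPT : S_PT) (i k j : Fin 6)
    (h : 0 ≤ (v1 k - v1 i) * (v2 j - v2 i) - (v2 k - v2 i) * (v1 j - v1 i)) :
    0 ≤ crs (V k - V i) (V j - V i) := by
  obtain ⟨_, hsub, _, _, hcrs, _⟩ := hPT
  obtain ⟨_, _, him, _⟩ := hZ
  rw [hV, hV, hV, hsub, hsub, hcrs]
  exact mul_nonneg him.le h

theorem conv1 (hF : S_F) (hZ : S_Z) (hPT : S_PT) (j : Fin 6) :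
    0 ≤ crs (V 2 - V 1) (V j - V 1) := by
  obtain ⟨h2, h3, h4⟩ := hF
  refine conv hZ hPT 1 2 j ?_
  have a1 : v1 1 = 44 * f - 55 := rfl
  have a2 : v2 1 = 0 := rfl
  have b1 : v1 2 = 77 - 33 * f := rfl
  have b2 : v2 2 = 44 - 22 * f := rfl
  rw [a1, a2, b1, b2]
  fin_cases j
  · show 0 ≤ _ * ((0 : ℝ) - _) - _ * ((0 : ℝ) - _)
    nlinarith [h2, h3, h4]
  · show 0 ≤ _ * ((0 : ℝ) - _) - _ * ((44 * f - 55 : ℝ) - _)
    nlinarith [h2, h3, h4]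
  · show 0 ≤ _ * ((44 - 22 * f : ℝ) - _) - _ * ((77 - 33 * f : ℝ) - _)
    nlinarith [h2, h3, h4]
  · show 0 ≤ _ * ((22 : ℝ) - _) - _ * ((22 : ℝ) - _)
    nlinarith [h2, h3, h4]
  · show 0 ≤ _ * ((77 - 33 * f : ℝ) - _) - _ * ((44 - 22 * f : ℝ) - _)
    nlinarith [h2, h3, h4]
  · show 0 ≤ _ * ((44 * f - 55 : ℝ) - _) - _ * ((0 : ℝ) - _)
    nlinarith [h2, h3, h4]

theorem conv2 (hF : S_F) (hZ : S_Z) (hPT : S_PT) (j : Fin 6) :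
    0 ≤ crs (V 3 - V 2) (V j - V 2) := by
  obtain ⟨h2, h3, h4⟩ := hF
  refine conv hZ hPT 2 3 j ?_
  have a1 : v1 2 = 77 - 33 * f := rfl
  have a2 : v2 2 = 44 - 22 * f := rfl
  have b1 : v1 3 = 22 := rfl
  have b2 : v2 3 = 22 := rfl
  rw [a1, a2, b1, b2]
  fin_cases j
  · show 0 ≤ _ * ((0 : ℝ) - _) - _ * ((0 : ℝ) - _)
    nlinarith [h2, h3, h4]
  · show 0 ≤ _ * ((0 : ℝ) - _) - _ * ((44 * f - 55 : ℝ) - _)
    nlinarith [h2, h3, h4]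
  · show 0 ≤ _ * ((44 - 22 * f : ℝ) - _) - _ * ((77 - 33 * f : ℝ) - _)
    nlinarith [h2, h3, h4]
  · show 0 ≤ _ * ((22 : ℝ) - _) - _ * ((22 : ℝ) - _)
    nlinarith [h2, h3, h4]
  · show 0 ≤ _ * ((77 - 33 * f : ℝ) - _) - _ * ((44 - 22 * f : ℝ) - _)
    nlinarith [h2, h3, h4]
  · show 0 ≤ _ * ((44 * f - 55 : ℝ) - _) - _ * ((0 : ℝ) - _)
    nlinarith [h2, h3, h4]

theorem conv3 (hF : S_F) (hZ : S_Z) (hPT : S_PT) (j : Fin 6) :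
    0 ≤ crs (V 4 - V 3) (V j - V 3) := by
  obtain ⟨h2, h3, h4⟩ := hF
  refine conv hZ hPT 3 4 j ?_
  have a1 : v1 3 = 22 := rfl
  have a2 : v2 3 = 22 := rfl
  have b1 : v1 4 = 44 - 22 * f := rfl
  have b2 : v2 4 = 77 - 33 * f := rfl
  rw [a1, a2, b1, b2]
  fin_cases j
  · show 0 ≤ _ * ((0 : ℝ) - _) - _ * ((0 : ℝ) - _)
    nlinarith [h2, h3, h4]
  · show 0 ≤ _ * ((0 : ℝ) - _) - _ * ((44 * f - 55 : ℝ) - _)
    nlinarith [h2, h3, h4]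
  · show 0 ≤ _ * ((44 - 22 * f : ℝ) - _) - _ * ((77 - 33 * f : ℝ) - _)
    nlinarith [h2, h3, h4]
  · show 0 ≤ _ * ((22 : ℝ) - _) - _ * ((22 : ℝ) - _)
    nlinarith [h2, h3, h4]
  · show 0 ≤ _ * ((77 - 33 * f : ℝ) - _) - _ * ((44 - 22 * f : ℝ) - _)
    nlinarith [h2, h3, h4]
  · show 0 ≤ _ * ((44 * f - 55 : ℝ) - _) - _ * ((0 : ℝ) - _)
    nlinarith [h2, h3, h4]

theorem conv4 (hF : S_F) (hZ : S_Z) (hPT : S_PT) (j : Fin 6) :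
    0 ≤ crs (V 5 - V 4) (V j - V 4) := by
  obtain ⟨h2, h3, h4⟩ := hF
  refine conv hZ hPT 4 5 j ?_
  have a1 : v1 4 = 44 - 22 * f := rfl
  have a2 : v2 4 = 77 - 33 * f := rfl
  have b1 : v1 5 = 0 := rfl
  have b2 : v2 5 = 44 * f - 55 := rfl
  rw [a1, a2, b1, b2]
  fin_cases j
  · show 0 ≤ _ * ((0 : ℝ) - _) - _ * ((0 : ℝ) - _)
    nlinarith [h2, h3, h4]
  · show 0 ≤ _ * ((0 : ℝ) - _) - _ * ((44 * f - 55 : ℝ) - _)
    nlinarith [h2, h3, h4]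
  · show 0 ≤ _ * ((44 - 22 * f : ℝ) - _) - _ * ((77 - 33 * f : ℝ) - _)
    nlinarith [h2, h3, h4]
  · show 0 ≤ _ * ((22 : ℝ) - _) - _ * ((22 : ℝ) - _)
    nlinarith [h2, h3, h4]
  · show 0 ≤ _ * ((77 - 33 * f : ℝ) - _) - _ * ((44 - 22 * f : ℝ) - _)
    nlinarith [h2, h3, h4]
  · show 0 ≤ _ * ((44 * f - 55 : ℝ) - _) - _ * ((0 : ℝ) - _)
    nlinarith [h2, h3, h4]

theorem case (hZ : S_Z) (hPT : S_PT) (hCRS : S_CRS) (hHULL : S_HULL)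
    (hBODY : S_BODY) (ka kb : Fin 10) (da db : ℤ × ℤ) (x1 x2 y1 y2 t : ℝ) (iA iB iC : Fin 6)
    (P : ℤ × ℤ) (rA1 rA2 rB1 rB2 : ℝ) (hrA : rho ka = (rA1, rA2)) (hrB : rho kb = (rB1, rB2))
    (a1 a2 b1 b2 c1 c2 : ℝ) (hVA : V iA = pt a1 a2) (hVB : V iB = pt b1 b2)
    (hVC : V iC = pt c1 c2) (hconv : ∀ j : Fin 6, 0 ≤ crs (V iC - V iB) (V j - V iB))
    (h1 : x1 = (lat da).1 + (a1 * rA1 - a2 * rA2))
    (h2 : x2 = (lat da).2 + (a1 * rA2 + a2 * (rA1 + f * rA2)))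
    (h3 : y1 = (c1 * rB1 - c2 * rB2) - (b1 * rB1 - b2 * rB2))
    (h4 : y2 = (c1 * rB2 + c2 * (rB1 + f * rB2)) - (b1 * rB2 + b2 * (rB1 + f * rB2)))
    (h5 : x1 = (lat db).1 + (b1 * rB1 - b2 * rB2) + t * y1)
    (h6 : x2 = (lat db).2 + (b1 * rB2 + b2 * (rB1 + f * rB2)) + t * y2)
    (ht0 : 0 < t) (ht1 : t < 1) :
    cen P + pt x1 x2 ∈ tile ka (P + da) ∧
    ∃ q₁ ∈ tile kb (P + db), ∃ q₂ ∈ tile kb (P + db),
      q₂ - q₁ = pt y1 y2 ∧ cen P + pt x1 x2 ∈ openSegment ℝ q₁ q₂ ∧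
      ∀ z ∈ tile kb (P + db), 0 ≤ crs (pt y1 y2) (z - q₁) := by
  have hrot := rot hZ hPT
  obtain ⟨hadd, hsub, hsm, hze, _, _, _, _, hcen, hcadd⟩ := hPT
  have eA : ze ^ (ka : ℕ) * V iA = pt (a1 * rA1 - a2 * rA2) (a1 * rA2 + a2 * (rA1 + f * rA2)) := by
    rw [hVA]
    exact hrot ka rA1 rA2 a1 a2 hrA
  have eB : ze ^ (kb : ℕ) * V iB = pt (b1 * rB1 - b2 * rB2) (b1 * rB2 + b2 * (rB1 + f * rB2)) := by
    rw [hVB]
    exact hrot kb rB1 rB2 b1 b2 hrB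
  have eC : ze ^ (kb : ℕ) * V iC = pt (c1 * rB1 - c2 * rB2) (c1 * rB2 + c2 * (rB1 + f * rB2)) := by
    rw [hVC]
    exact hrot kb rB1 rB2 c1 c2 hrB
  have hq : cen (P + db) + ze ^ (kb : ℕ) * V iC - (cen (P + db) + ze ^ (kb : ℕ) * V iB) =
      pt y1 y2 := by
    rw [add_sub_add_left_eq_sub, eC, eB, hsub, ← h3, ← h4]
  refine ⟨?_, cen (P + db) + ze ^ (kb : ℕ) * V iB, (hBODY.2 kb (P + db)).2.2 iB,
    cen (P + db) + ze ^ (kb : ℕ) * V iC, (hBODY.2 kb (P + db)).2.2 iC, hq, ?_, ?_⟩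
  · have h7 := (hBODY.2 ka (P + da)).2.2 iA
    have h8 : cen (P + da) + ze ^ (ka : ℕ) * V iA = cen P + pt x1 x2 := by
      rw [eA, hcadd, hcen da, add_assoc, hadd, ← h1, ← h2]
    rw [h8] at h7
    exact h7
  · refine ⟨1 - t, t, by linarith, ht0, by ring, ?_⟩
    have h7 : (1 - t) • (cen (P + db) + ze ^ (kb : ℕ) * V iB) +
        t • (cen (P + db) + ze ^ (kb : ℕ) * V iC) =
        (cen (P + db) + ze ^ (kb : ℕ) * V iB) + (t : ℂ) *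
          (cen (P + db) + ze ^ (kb : ℕ) * V iC - (cen (P + db) + ze ^ (kb : ℕ) * V iB)) := by
      simp only [Complex.real_smul]
      push_cast
      ring
    rw [h7, hq, eB, hcadd, hcen db, hsm, add_assoc, add_assoc, hadd, hadd, ← add_assoc, ← add_assoc,
      ← h5, ← h6]
  · refine hHULL kb (P + db) _ _ fun i => ?_
    have h7 : cen (P + db) + ze ^ (kb : ℕ) * V i - (cen (P + db) + ze ^ (kb : ℕ) * V iB) =
        ze ^ (kb : ℕ) * (V i - V iB) := by ring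
    have h8 : pt y1 y2 = ze ^ (kb : ℕ) * (V iC - V iB) := by
      rw [← hq]
      ring
    have h9 : ‖ze ^ (kb : ℕ)‖ = 1 := by
      rw [norm_pow, hZ.2.2.2.2.1, one_pow]
    rw [h7, h8, hCRS.2.2.2.2.2.2 _ _ _ h9]
    exact hconv i

end CONaux

open CONaux in
theorem t_CON (hF : S_F) (hZ : S_Z) (hPT : S_PT) (hCRS : S_CRS) (hHULL : S_HULL)
    (hBODY : S_BODY) : S_CON := by
  obtain ⟨hf2, hf3, hf4⟩ := id hF
  have hf5 : f ^ 3 = 2 * f + 1 := by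
    have : f ^ 3 = f * f ^ 2 := by ring
    rw [this, hf2]
    linarith
  intro c P
  fin_cases c
  · refine case hZ hPT hCRS hHULL hBODY 0 5 (0, 0) (1, 0) (44 - 22 * f) (77 - 33 * f) (-22 + 22 * f) (-55 + 33 * f)
      ((14 * f - 13) / 11) 4 3 4 P (1) (0) (-1) (0) rfl rfl (44 - 22 * f) (77 - 33 * f) (22) (22)
      (44 - 22 * f) (77 - 33 * f) rfl rfl rfl (conv3 hF hZ hPT) ?_ ?_ ?_ ?_ ?_ ?_ ?_ ?_ <;>
      (try simp only [lat, Int.cast_zero, Int.cast_one]) <;> nlinarith [hf2, hf3, hf4, hf5]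
  · refine case hZ hPT hCRS hHULL hBODY 5 0 (1, 0) (0, 0) (-32 + 26 * f) (-85 + 67 * f) (22 - 22 * f) (55 - 33 * f)
      ((14 * f - 13) / 11) 4 3 4 P (-1) (0) (1) (0) rfl rfl (44 - 22 * f) (77 - 33 * f) (22) (22)
      (44 - 22 * f) (77 - 33 * f) rfl rfl rfl (conv3 hF hZ hPT) ?_ ?_ ?_ ?_ ?_ ?_ ?_ ?_ <;>
      (try simp only [lat, Int.cast_zero, Int.cast_one]) <;> nlinarith [hf2, hf3, hf4, hf5]
  · refine case hZ hPT hCRS hHULL hBODY 6 9 (1, 0) (0, 0) (34 + 4 * f) (-30 + 12 * f) (33 - 33 * f) (-22 + 22 * f)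
      ((6 + 2 * f) / 11) 3 3 4 P (0) (-1) (f) (-1) rfl rfl (22) (22) (22) (22)
      (44 - 22 * f) (77 - 33 * f) rfl rfl rfl (conv3 hF hZ hPT) ?_ ?_ ?_ ?_ ?_ ?_ ?_ ?_ <;>
      (try simp only [lat, Int.cast_zero, Int.cast_one]) <;> nlinarith [hf2, hf3, hf4, hf5]
  · refine case hZ hPT hCRS hHULL hBODY 1 4 (0, 0) (1, 0) (-22) (22 + 22 * f) (-33 + 33 * f) (22 - 22 * f)
      ((6 + 2 * f) / 11) 3 3 4 P (0) (1) (-f) (1) rfl rfl (22) (22) (22) (22)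
      (44 - 22 * f) (77 - 33 * f) rfl rfl rfl (conv3 hF hZ hPT) ?_ ?_ ?_ ?_ ?_ ?_ ?_ ?_ <;>
      (try simp only [lat, Int.cast_zero, Int.cast_one]) <;> nlinarith [hf2, hf3, hf4, hf5]
  · refine case hZ hPT hCRS hHULL hBODY 0 6 (0, 0) (1, 0) (22) (22) (44 - 22 * f) (-110 + 55 * f)
      ((3 + f) / 11) 3 1 2 P (1) (0) (0) (-1) rfl rfl (22) (22) (44 * f - 55) (0)
      (77 - 33 * f) (44 - 22 * f) rfl rfl rfl (conv1 hF hZ hPT) ?_ ?_ ?_ ?_ ?_ ?_ ?_ ?_ <;>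
      (try simp only [lat, Int.cast_zero, Int.cast_one]) <;> nlinarith [hf2, hf3, hf4, hf5]
  · refine case hZ hPT hCRS hHULL hBODY 5 1 (1, 0) (0, 0) (-10 + 4 * f) (-30 + 34 * f) (-44 + 22 * f) (110 - 55 * f)
      ((3 + f) / 11) 3 1 2 P (-1) (0) (0) (1) rfl rfl (22) (22) (44 * f - 55) (0)
      (77 - 33 * f) (44 - 22 * f) rfl rfl rfl (conv1 hF hZ hPT) ?_ ?_ ?_ ?_ ?_ ?_ ?_ ?_ <;>
      (try simp only [lat, Int.cast_zero, Int.cast_one]) <;> nlinarith [hf2, hf3, hf4, hf5]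
  · refine case hZ hPT hCRS hHULL hBODY 3 8 (0, 0) (0, 1) (55 - 66 * f) (11 + 22 * f) (55 - 22 * f) (-11)
      ((24 - 14 * f) / 11) 2 2 3 P (-f) (f) (f) (-f) rfl rfl (77 - 33 * f) (44 - 22 * f) (77 - 33 * f) (44 - 22 * f)
      (22) (22) rfl rfl rfl (conv2 hF hZ hPT) ?_ ?_ ?_ ?_ ?_ ?_ ?_ ?_ <;>
      (try simp only [lat, Int.cast_zero, Int.cast_one]) <;> nlinarith [hf2, hf3, hf4, hf5]
  · refine case hZ hPT hCRS hHULL hBODY 8 3 (0, 1) (0, 0) (-93 + 24 * f) (35 + 8 * f) (-55 + 22 * f) (11)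
      ((24 - 14 * f) / 11) 2 2 3 P (f) (-f) (-f) (f) rfl rfl (77 - 33 * f) (44 - 22 * f) (77 - 33 * f) (44 - 22 * f)
      (22) (22) rfl rfl rfl (conv2 hF hZ hPT) ?_ ?_ ?_ ?_ ?_ ?_ ?_ ?_ <;>
      (try simp only [lat, Int.cast_zero, Int.cast_one]) <;> nlinarith [hf2, hf3, hf4, hf5]
  · refine case hZ hPT hCRS hHULL hBODY 7 4 (0, 1) (0, 0) (-16 - 20 * f) (46 - 14 * f) (-11) (-55 + 33 * f)
      ((5 - 2 * f) / 11) 3 2 3 P (1) (-f) (-f) (1) rfl rfl (22) (22) (77 - 33 * f) (44 - 22 * f)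
      (22) (22) rfl rfl rfl (conv2 hF hZ hPT) ?_ ?_ ?_ ?_ ?_ ?_ ?_ ?_ <;>
      (try simp only [lat, Int.cast_zero, Int.cast_one]) <;> nlinarith [hf2, hf3, hf4, hf5]
  · refine case hZ hPT hCRS hHULL hBODY 2 9 (0, 0) (0, 1) (-22 - 22 * f) (44 * f) (11) (55 - 33 * f)
      ((5 - 2 * f) / 11) 3 2 3 P (-1) (f) (f) (-1) rfl rfl (22) (22) (77 - 33 * f) (44 - 22 * f)
      (22) (22) rfl rfl rfl (conv2 hF hZ hPT) ?_ ?_ ?_ ?_ ?_ ?_ ?_ ?_ <;>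
      (try simp only [lat, Int.cast_zero, Int.cast_one]) <;> nlinarith [hf2, hf3, hf4, hf5]
  · refine case hZ hPT hCRS hHULL hBODY 3 7 (0, 0) (0, 1) (-44 * f) (22 + 22 * f) (33 - 33 * f) (-99 + 77 * f)
      ((8 - f) / 11) 3 4 5 P (-f) (f) (1) (-f) rfl rfl (22) (22) (44 - 22 * f) (77 - 33 * f)
      (0) (44 * f - 55) rfl rfl rfl (conv4 hF hZ hPT) ?_ ?_ ?_ ?_ ?_ ?_ ?_ ?_ <;>
      (try simp only [lat, Int.cast_zero, Int.cast_one]) <;> nlinarith [hf2, hf3, hf4, hf5]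
  · refine case hZ hPT hCRS hHULL hBODY 8 2 (0, 1) (0, 0) (-38 + 2 * f) (24 + 8 * f) (-33 + 33 * f) (99 - 77 * f)
      ((8 - f) / 11) 3 4 5 P (f) (-f) (-1) (f) rfl rfl (22) (22) (44 - 22 * f) (77 - 33 * f)
      (0) (44 * f - 55) rfl rfl rfl (conv4 hF hZ hPT) ?_ ?_ ?_ ?_ ?_ ?_ ?_ ?_ <;>
      (try simp only [lat, Int.cast_zero, Int.cast_one]) <;> nlinarith [hf2, hf3, hf4, hf5]

end Pool.Agent.H113R4.EN
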