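import Mathlib
import Pool.Agent.H113R4.EN.Stubs

/-! Interior directions at the centre of a star (helper298). -/

namespace Pool.Agent.H113R4.EN

theorem t_CONE (hF : S_F) (hPT : S_PT) (hB : S_BODY) : S_CONE := by
  intro k P x y hx hy
  obtain ⟨hf1, hf2, hf3⟩ := hF
  obtain ⟨_, hBk⟩ := hB
  obtain ⟨⟨_, hconv, hint⟩, _, hV⟩ := hBk k P
  have hsurj := hPT.2.2.2.2.2.1
  have h0 : cen P ∈ tile k P := by
    have := hV 0
    have e : V 0 = 0 := by simp [V, pt]
    rwa [e, mul_zero, add_zero] at this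
  refine ⟨h0, ?_⟩
  obtain ⟨c0, hc0⟩ := hint
  have hze : ze ≠ 0 := Complex.exp_ne_zero _
  have hzk : ze ^ (k : ℕ) ≠ 0 := pow_ne_zero _ hze
  obtain ⟨x0, y0, hw⟩ := hsurj ((c0 - cen P) / ze ^ (k : ℕ))
  have hc : c0 = cen P + ze ^ (k : ℕ) * pt x0 y0 := by
    rw [← hw, mul_div_cancel₀ _ hzk]; ring
  -- the parameter `t`
  obtain ⟨t, ht, htx, hty⟩ : ∃ t : ℝ, 0 < t ∧ 0 < x - t * x0 ∧ 0 < y - t * y0 := by
    have hD : 0 < 2 * (|x0| + |y0| + 1) := by positivity
    have hm : 0 < min x y := lt_min hx hy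
    refine ⟨min x y / (2 * (|x0| + |y0| + 1)), by positivity, ?_, ?_⟩
    · have h1 : min x y / (2 * (|x0| + |y0| + 1)) * x0 ≤ min x y / 2 := by
        rw [div_mul_eq_mul_div, div_le_div_iff₀ hD (by norm_num)]
        have h2 : x0 ≤ |x0| + |y0| + 1 := by
          have := le_abs_self x0
          have := abs_nonneg y0
          linarith
        nlinarith
      have h3 := min_le_left x y
      linarith
    · have h1 : min x y / (2 * (|x0| + |y0| + 1)) * y0 ≤ min x y / 2 := by
        rw [div_mul_eq_mul_div, div_le_div_iff₀ hD (by norm_num)]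
        have h2 : y0 ≤ |x0| + |y0| + 1 := by
          have := le_abs_self y0
          have := abs_nonneg x0
          linarith
        nlinarith
      have h3 := min_le_right x y
      linarith
  set x' := x - t * x0 with hx'
  set y' := y - t * y0 with hy'
  set L : ℝ := 44 * f - 55 with hL
  have hLpos : 0 < L := by rw [hL]; linarith
  have hsum : 0 < x' + y' := by linarith
  set σ : ℝ := L / (x' + y') with hσ
  have hσpos : 0 < σ := by positivity
  have hden : 0 < 1 + σ * t := by positivity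
  -- the point `q`
  have hq : cen P + ze ^ (k : ℕ) * pt (σ * x') (σ * y') ∈ tile k P := by
    have h1 := hV 1
    have h5 := hV 5
    have e1 : V 1 = pt L 0 := by simp [V, hL]
    have e5 : V 5 = pt 0 L := by simp [V, hL]
    rw [e1] at h1
    rw [e5] at h5
    have h6 := hconv h1 h5 (a := x' / (x' + y')) (b := y' / (x' + y')) (by positivity)
      (by positivity) (by field_simp)
    convert h6 using 1
    simp only [Complex.real_smul, pt]
    have hab : ((x' / (x' + y') : ℝ) : ℂ) + ((y' / (x' + y') : ℝ) : ℂ) = 1 := by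
      rw [← Complex.ofReal_add, ← add_div, div_self hsum.ne', Complex.ofReal_one]
    have ex : ((σ * x' : ℝ) : ℂ) = ((x' / (x' + y') : ℝ) : ℂ) * (L : ℂ) := by
      rw [← Complex.ofReal_mul, hσ]; congr 1; ring
    have ey : ((σ * y' : ℝ) : ℂ) = ((y' / (x' + y') : ℝ) : ℂ) * (L : ℂ) := by
      rw [← Complex.ofReal_mul, hσ]; congr 1; ring
    rw [ex, ey, Complex.ofReal_zero]
    linear_combination (-cen P) * hab
  -- the interior point
  have hlam : 0 < σ * t / (1 + σ * t) := by positivity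
  have hmu : 0 ≤ 1 / (1 + σ * t) := by positivity
  have hlm : σ * t / (1 + σ * t) + 1 / (1 + σ * t) = 1 := by field_simp; ring
  have hfin := hconv.combo_interior_self_mem_interior hc0 hq hlam hmu hlm
  refine ⟨σ / (1 + σ * t), by positivity, ?_⟩
  convert hfin using 1
  rw [hc]
  simp only [Complex.real_smul, pt]
  have hlm' : ((σ * t / (1 + σ * t) : ℝ) : ℂ) + ((1 / (1 + σ * t) : ℝ) : ℂ) = 1 := by
    rw [← Complex.ofReal_add, hlm, Complex.ofReal_one]
  have kx : ((σ / (1 + σ * t) : ℝ) : ℂ) * (x : ℂ) =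
      ((σ * t / (1 + σ * t) : ℝ) : ℂ) * (x0 : ℂ) + ((1 / (1 + σ * t) : ℝ) : ℂ) * ((σ * x' : ℝ) : ℂ) := by
    rw [← Complex.ofReal_mul, ← Complex.ofReal_mul, ← Complex.ofReal_mul, ← Complex.ofReal_add]
    congr 1
    rw [hx']
    field_simp
    ring
  have ky : ((σ / (1 + σ * t) : ℝ) : ℂ) * (y : ℂ) =
      ((σ * t / (1 + σ * t) : ℝ) : ℂ) * (y0 : ℂ) + ((1 / (1 + σ * t) : ℝ) : ℂ) * ((σ * y' : ℝ) : ℂ) := by
    rw [← Complex.ofReal_mul, ← Complex.ofReal_mul, ← Complex.ofReal_mul, ← Complex.ofReal_add]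
    congr 1
    rw [hy']
    field_simp
    ring
  rw [pow_succ]
  linear_combination ze ^ (k : ℕ) * kx + ze ^ (k : ℕ) * ze * ky - cen P * hlm'

end Pool.Agent.H113R4.EN
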