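import Mathlib
import Pool.Agent.H113R4.EN.Stubs

set_option autoImplicit false

namespace Pool.Agent.H113R4.EN

open Filter Topology

theorem t_CPT : S_CPT := by
  intro k B hB
  have hpos : ∀ n : ℕ, (0 : ℝ) < 1 / ((n : ℝ) + 1) := fun n => by positivity
  choose x hxB hx0 hxn using fun n : ℕ => hB _ (hpos n)
  have hx : ∀ n, (fun n => ‖x n‖⁻¹ • x n) n ∈ Metric.sphere (0 : Fin k → ℂ × ℝ) 1 := by
    intro n
    have h0 : ‖x n‖ ≠ 0 := norm_ne_zero_iff.2 (hx0 n)
    simp only [mem_sphere_zero_iff_norm, norm_smul, norm_inv, norm_norm]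
    exact inv_mul_cancel₀ h0
  obtain ⟨y, hy, φ, hφ, hlim⟩ := (isCompact_sphere (0 : Fin k → ℂ × ℝ) 1).tendsto_subseq hx
  refine ⟨fun n => x (φ n), y, fun n => ⟨hxB _, hx0 _⟩, ?_, by simpa using hy, ?_⟩
  · have h1 : Tendsto (fun n => ‖x n‖) atTop (𝓝 0) :=
      squeeze_zero (fun n => norm_nonneg _) (fun n => (hxn n).le)
        tendsto_one_div_add_atTop_nhds_zero_nat
    exact h1.comp hφ.tendsto_atTop
  · intro i
    have h2 := (tendsto_pi_nhds.1 hlim) i
    refine h2.congr fun n => ?_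
    simp only [Function.comp]
    rw [Pi.smul_apply, Prod.smul_def]
    refine Prod.ext ?_ ?_
    · simp only [Complex.real_smul, Complex.ofReal_inv]
      rw [div_eq_inv_mul]
    · simp only [smul_eq_mul]
      rw [div_eq_inv_mul]

end Pool.Agent.H113R4.EN
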