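import Mathlib
import Pool.Agent.H113R4.EN.Stubs

namespace Pool.Agent.H113R4.EN

theorem t_CRS : S_CRS := by
  refine ⟨?_, ?_, ?_, ?_, ?_, ?_, ?_⟩
  · intro z w w'
    simp only [crs, Complex.add_re, Complex.add_im]
    ring
  · intro z w w'
    simp only [crs, Complex.sub_re, Complex.sub_im]
    ring
  · intro z w t
    simp only [crs, Complex.mul_re, Complex.mul_im, Complex.ofReal_re, Complex.ofReal_im]
    ring
  · intro z w t
    simp only [crs, Complex.mul_re, Complex.mul_im, Complex.ofReal_re, Complex.ofReal_im]
    ring
  · intro z w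
    simp only [crs]
    ring
  · intro z
    simp only [crs]
    ring
  · intro z w a ha
    have h : a.re ^ 2 + a.im ^ 2 = 1 := by
      have h1 := Complex.sq_norm a
      rw [ha, Complex.normSq_apply] at h1
      nlinarith
    simp only [crs, Complex.mul_re, Complex.mul_im]
    linear_combination (z.re * w.im - z.im * w.re) * h

end Pool.Agent.H113R4.EN
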