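import Mathlib
import Pool.Agent.H113R4.EN.Stubs

/-! Facts on `f` (helper298). -/

namespace Pool.Agent.H113R4.EN

theorem t_F : S_F := by
  have h0 : Real.sqrt 5 ^ 2 = 5 := Real.sq_sqrt (by norm_num)
  have h1 : (2.2360679 : ℝ) < Real.sqrt 5 := Real.lt_sqrt_of_sq_lt (by norm_num)
  have h2 : Real.sqrt 5 < (2.236068 : ℝ) := (Real.sqrt_lt' (by norm_num)).2 (by norm_num)
  unfold S_F f
  refine ⟨?_, ?_, ?_⟩
  · nlinarith
  · norm_num at *
    linarith
  · norm_num at *
    linarith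

end Pool.Agent.H113R4.EN
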