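import Mathlib
import Pool.Agent.H113R4.EN.Stubs

/-! # FAR: stars which are far apart (helper473) -/

namespace Pool.Agent.H113R4.EN

namespace FARaux

lemma vert (hF : S_F) (hPT : S_PT) (i : Fin 6) : ‖V i‖ ≤ Real.sqrt (484 * (2 + f)) := by
  obtain ⟨hf2, hf1, hf3⟩ := hF
  obtain ⟨-, -, -, -, -, -, -, hnorm, -, -⟩ := hPT
  have hc : f ^ 3 = 2 * f + 1 := by
    have : f ^ 3 = f * f ^ 2 := by ring
    rw [this, hf2]; nlinarith
  have key : ∀ a b : ℝ, a ^ 2 + b ^ 2 + f * a * b ≤ 484 * (2 + f) →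
      ‖pt a b‖ ≤ Real.sqrt (484 * (2 + f)) := by
    intro a b h
    apply Real.le_sqrt_of_sq_le
    rw [hnorm]; exact h
  fin_cases i
  · exact key 0 0 (by nlinarith)
  · exact key (44 * f - 55) 0 (by nlinarith)
  · exact key (77 - 33 * f) (44 - 22 * f) (by nlinarith)
  · exact key 22 22 (by nlinarith)
  · exact key (44 - 22 * f) (77 - 33 * f) (by nlinarith)
  · exact key 0 (44 * f - 55) (by nlinarith)

lemma hexa (hF : S_F) (hPT : S_PT) (z : ℂ) (hz : z ∈ K) : ‖z‖ ≤ Real.sqrt (484 * (2 + f)) := by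
  have h1 : K ⊆ Metric.closedBall (0 : ℂ) (Real.sqrt (484 * (2 + f))) := by
    refine convexHull_min ?_ (convex_closedBall _ _)
    rintro _ ⟨i, rfl⟩
    rw [mem_closedBall_zero_iff]
    exact vert hF hPT i
  exact mem_closedBall_zero_iff.1 (h1 hz)

end FARaux

open FARaux in
theorem t_FAR (hF : S_F) (hZ : S_Z) (hPT : S_PT) : S_FAR := by
  intro k l P Q hPQ
  rw [Set.disjoint_left]
  rintro x ⟨z, hz, rfl⟩ ⟨w, hw, hwx⟩
  have hz1 := hexa hF hPT z hz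
  have hw1 := hexa hF hPT w hw
  obtain ⟨hf2, hf1, hf3⟩ := hF
  obtain ⟨-, -, -, -, hze, -, -, -⟩ := hZ
  obtain ⟨-, hsub, -, -, -, -, -, hnorm, hcen, -⟩ := hPT
  have hc : f ^ 3 = 2 * f + 1 := by
    have : f ^ 3 = f * f ^ 2 := by ring
    rw [this, hf2]; nlinarith
  simp only at hwx
  have h1 : cen Q - cen P = ze ^ (k : ℕ) * z - ze ^ (l : ℕ) * w := by
    linear_combination hwx
  set R : ℝ := Real.sqrt (484 * (2 + f)) with hR
  have hR2 : R ^ 2 = 484 * (2 + f) := Real.sq_sqrt (by linarith)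
  have hR0 : 0 ≤ R := Real.sqrt_nonneg _
  have h2 : ‖cen Q - cen P‖ ≤ 2 * R := by
    rw [h1]
    refine (norm_sub_le _ _).trans ?_
    rw [norm_mul, norm_mul, norm_pow, norm_pow, hze, one_pow, one_pow, one_mul, one_mul]
    linarith
  have h3 : ‖cen Q - cen P‖ ^ 2 ≤ 1936 * (2 + f) := by
    have h4 : ‖cen Q - cen P‖ ^ 2 ≤ (2 * R) ^ 2 := by gcongr
    rw [mul_pow, hR2] at h4
    linarith
  rw [hcen Q, hcen P, hsub, hnorm] at h3
  have h5 : (2 : ℝ) ≤ ((Q.1 : ℝ) - P.1) ^ 2 + ((Q.2 : ℝ) - P.2) ^ 2 := by exact_mod_cast hPQ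
  simp only [lat] at h3
  generalize hm : (Q.1 : ℝ) - P.1 = m at h5
  generalize hn : (Q.2 : ℝ) - P.2 = n at h5
  have h6 : ((Q.1 : ℝ) * (12 + 4 * f) + Q.2 * (-38 - 42 * f) -
        (P.1 * (12 + 4 * f) + P.2 * (-38 - 42 * f))) = m * (12 + 4 * f) + n * (-38 - 42 * f) := by
    rw [← hm, ← hn]; ring
  have h7 : ((Q.1 : ℝ) * (34 * f - 8) + Q.2 * (46 + 30 * f) -
        (P.1 * (34 * f - 8) + P.2 * (46 + 30 * f))) = m * (34 * f - 8) + n * (46 + 30 * f) := by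
    rw [← hm, ← hn]; ring
  rw [h6, h7] at h3
  have h8 : (m * (12 + 4 * f) + n * (-38 - 42 * f)) ^ 2 + (m * (34 * f - 8) + n * (46 + 30 * f)) ^ 2 +
      f * (m * (12 + 4 * f) + n * (-38 - 42 * f)) * (m * (34 * f - 8) + n * (46 + 30 * f)) =
      (1892 + 1276 * f) * (m ^ 2 + n ^ 2) + (-1664 + 868 * f) * (m * n) := by
    linear_combination (m ^ 2 * (136 * f + 1684) + n ^ 2 * (-1260 * f - 1668) +
      m * n * (-1308 * f - 16)) * hf2
  rw [h8] at h3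
  have h9 : (-1664 + 868 * f) * (m * n) ≥ (-832 + 434 * f) * (m ^ 2 + n ^ 2) := by
    nlinarith [sq_nonneg (m - n)]
  nlinarith

end Pool.Agent.H113R4.EN
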