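import Mathlib
import Pool.Agent.H113R4.EN.Stubs

/-! # The limit velocities satisfy the first order conditions (helper724) -/

namespace Pool.Agent.H113R4.EN

open Filter Topology

namespace FOLaux

theorem w2 (hz : ze ^ 2 = (f : ℂ) * ze - 1) (m : ℕ) :
    -(ze ^ m + ze ^ (m + 1)) = -(((1 + f : ℝ) : ℂ)) * ze ^ (m + 1) + ((1 : ℝ) : ℂ) * ze ^ (m + 2) := by
  push_cast
  rw [pow_add ze m 1, pow_add ze m 2]
  linear_combination (-ze ^ m) * hz

theorem w3 (hz : ze ^ 2 = (f : ℂ) * ze - 1) (hf : (f : ℂ) ^ 2 = f + 1) (m : ℕ) :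
    -(ze ^ m + ze ^ (m + 1)) =
      -(((2 * f : ℝ) : ℂ)) * ze ^ (m + 2) + ((f + 1 : ℝ) : ℂ) * ze ^ (m + 3) := by
  push_cast
  rw [pow_add ze m 1, pow_add ze m 2, pow_add ze m 3]
  linear_combination (ze ^ m * (-1 - (1 + (f : ℂ)) * ze)) * hz - ze ^ m * ze ^ 2 * hf

theorem w4 (hz : ze ^ 2 = (f : ℂ) * ze - 1) (hf : (f : ℂ) ^ 2 = f + 1) (m : ℕ) :
    -(ze ^ m + ze ^ (m + 1)) =
      -(((1 + f : ℝ) : ℂ)) * ze ^ (m + 3) + ((2 * f : ℝ) : ℂ) * ze ^ (m + 4) := by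
  push_cast
  rw [pow_add ze m 1, pow_add ze m 3, pow_add ze m 4]
  linear_combination (ze ^ m * (-1 - (1 + (f : ℂ)) * ze - 2 * f * ze ^ 2)) * hz +
    ze ^ m * (-ze ^ 2 - 2 * ze ^ 3) * hf

theorem vel_self (c : ℂ) (y : ℂ × ℝ) : vel c y c = y.1 := by
  simp [vel]

theorem center (hTAN : S_TAN) (hCONE : S_CONE) (hBODY : S_BODY) (hF : S_F)
    (hz : ze ^ 2 = (f : ℂ) * ze - 1) {r : ℕ → ℝ} {x : ℕ → Fin 10 → ℤ × ℤ → ℂ × ℝ}
    {y : Fin 10 → ℤ × ℤ → ℂ × ℝ} (h : Lim r x y) (P : ℤ × ℤ) (j k : Fin 10) (hjk : k ≠ j)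
    (c1 c2 : ℝ) (hc1 : c1 < 4) (hc2 : 0 < c2)
    (hw : -(ze ^ ((j : ℕ) + 1) + ze ^ ((j : ℕ) + 1 + 1)) =
      -(c1 : ℂ) * ze ^ (k : ℕ) + (c2 : ℂ) * ze ^ ((k : ℕ) + 1))
    (α β : ℝ) (hα : 0 < α) (hβ : 0 < β) :
    (y k P).1 - (y j P).1 ≠ (α : ℂ) * ze ^ ((j : ℕ) + 1) - (β : ℂ) * ze ^ (k : ℕ) := by
  intro heq
  obtain ⟨hf2, hf3, hf4⟩ := hF
  obtain ⟨δ, hδ0, hδα, hδβ⟩ : ∃ δ : ℝ, 0 < δ ∧ 4 * δ ≤ α ∧ 4 * δ ≤ β :=
    ⟨min α β / 4, by positivity, by linarith [min_le_left α β], by linarith [min_le_right α β]⟩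
  have hx1 : 0 < α - δ * (1 + f) := by nlinarith
  have hx2 : 0 < β - δ * c1 := by nlinarith
  have hx3 : 0 < δ * c2 := by positivity
  obtain ⟨hpA, hA⟩ := hCONE k P _ _ hx2 hx3
  obtain ⟨hpB, hB⟩ := hCONE j P _ _ hδ0 hx1
  have key := hTAN (tile k P) (tile j P) (cen P) _ _ (cen P) (cen P) r (fun n => x n k P)
    (fun n => x n j P) (y k P) (y j P) (hBODY.2 k P).1.2.1 (hBODY.2 j P).1.2.1 hpA hpB hA hB
    h.pos h.lim (h.conv k P) (h.conv j P) (by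
      rw [vel_self, vel_self, heq]
      have e1 : ze ^ ((j : ℕ) + 1 + 1) = (f : ℂ) * ze ^ ((j : ℕ) + 1) - ze ^ (j : ℕ) := by
        rw [pow_add ze (j : ℕ) 1, pow_add ze ((j : ℕ) + 1) 1, pow_add ze (j : ℕ) 1]
        linear_combination ze ^ (j : ℕ) * hz
      push_cast
      linear_combination (-(δ : ℂ)) * e1 + (-(δ : ℂ)) * hw)
  obtain ⟨n, hn⟩ := key.exists
  refine hn (h.disj n k j P P ?_)
  intro h'
  exact hjk (Prod.mk.inj h').1

end FOLaux

theorem t_FOL (hEDGE : S_EDGE) (hTAN : S_TAN) (hCON : S_CON) (hCONI : S_CONI) (hCONE : S_CONE)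
    (hBODY : S_BODY) (hCRS : S_CRS) (hZ : S_Z) (hF : S_F) : S_FOL := by
  intro r x y h
  obtain ⟨hz, -, -, -, hz1, -⟩ := hZ
  have hf2 : (f : ℂ) ^ 2 = f + 1 := by exact_mod_cast congrArg (fun t : ℝ => (t : ℂ)) hF.1
  obtain ⟨-, -, -, hs, -⟩ := hCRS
  have hze : ∀ m : ℕ, ze ^ m ≠ 0 := by
    intro m
    apply pow_ne_zero
    intro h0
    rw [h0, norm_zero] at hz1
    exact zero_ne_one hz1
  refine ⟨?_, ?_, ?_⟩
  · intro k P t ht0 ht1
    obtain ⟨hp, q₁, hq₁, q₂, hq₂, hq, hps, hB⟩ := hCONI k P t ht0 ht1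
    have hs0 : 0 < 44 * f - 55 := ht0.trans ht1
    have hne : q₁ ≠ q₂ := by
      intro h0
      rw [h0, sub_self] at hq
      have h1 := neg_eq_zero.1 hq.symm
      rcases mul_eq_zero.1 h1 with h2 | h2
      · exact hs0.ne' (by exact_mod_cast h2)
      · exact hze _ h2
    have key := hEDGE (tile k P) (tile (k - 1) P) (cen P + (t : ℂ) * ze ^ (k : ℕ)) q₁ q₂
      (cen P) (cen P) r (fun n => x n k P) (fun n => x n (k - 1) P) (y k P) (y (k - 1) P)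
      (hBODY.2 k P).1.2.1 (hBODY.2 (k - 1) P).1.2.1 (hBODY.2 k P).1.2.2
      (hBODY.2 (k - 1) P).1.2.2 hp hq₁ hq₂ hne hps (by rw [hq]; exact hB) h.pos h.lim
      (h.conv k P) (h.conv (k - 1) P) (by
        intro n
        refine h.disj n k (k - 1) P P ?_
        intro h'
        have h2 := (Prod.mk.inj h').1
        have h3 : ∀ k : Fin 10, k ≠ k - 1 := by decide
        exact h3 k h2)
    rw [hq, show -(((44 * f - 55 : ℝ) : ℂ) * ze ^ (k : ℕ)) =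
      ((-(44 * f - 55) : ℝ) : ℂ) * ze ^ (k : ℕ) by push_cast; ring, hs] at key
    by_contra hcon
    push Not at hcon
    nlinarith
  · intro c P
    obtain ⟨hp, q₁, hq₁, q₂, hq₂, hq, hps, hB⟩ := hCON c P
    by_cases hne : q₁ = q₂
    · have h0 : pt (e1 c) (e2 c) = 0 := by rw [← hq, hne, sub_self]
      rw [h0]
      simp [crs]
    · have key := hEDGE (tile (kA c) (P + dA c)) (tile (kB c) (P + dB c))
        (cen P + pt (p1 c) (p2 c)) q₁ q₂ (cen (P + dA c)) (cen (P + dB c)) r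
        (fun n => x n (kA c) (P + dA c)) (fun n => x n (kB c) (P + dB c))
        (y (kA c) (P + dA c)) (y (kB c) (P + dB c))
        (hBODY.2 _ _).1.2.1 (hBODY.2 _ _).1.2.1 (hBODY.2 _ _).1.2.2
        (hBODY.2 _ _).1.2.2 hp hq₁ hq₂ hne hps (by rw [hq]; exact hB) h.pos h.lim
        (h.conv _ _) (h.conv _ _) (by
          intro n
          refine h.disj n _ _ _ _ ?_
          intro h'
          have h2 := (Prod.mk.inj h').1
          have h3 : ∀ c : Fin 12, kA c ≠ kB c := by decide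
          exact h3 c h2)
      rw [hq] at key
      exact key
  · intro P j k hjk α β hα hβ
    have hf3 := hF.2.1
    have hf4 := hF.2.2
    have a2 := FOLaux.w2 hz
    have a3 := FOLaux.w3 hz hf2
    have a4 := FOLaux.w4 hz hf2
    simp only [pairs, List.mem_cons, Prod.mk.injEq, List.not_mem_nil, or_false] at hjk
    rcases hjk with ⟨rfl, rfl⟩ | ⟨rfl, rfl⟩ | ⟨rfl, rfl⟩ | ⟨rfl, rfl⟩ | ⟨rfl, rfl⟩ | ⟨rfl, rfl⟩ |
      ⟨rfl, rfl⟩ | ⟨rfl, rfl⟩ | ⟨rfl, rfl⟩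
    · exact FOLaux.center hTAN hCONE hBODY hF hz h P 4 6 (by decide) _ _ (by linarith)
        (by linarith) (a2 5) α β hα hβ
    · exact FOLaux.center hTAN hCONE hBODY hF hz h P 4 7 (by decide) _ _ (by linarith)
        (by linarith) (a3 5) α β hα hβ
    · exact FOLaux.center hTAN hCONE hBODY hF hz h P 4 8 (by decide) _ _ (by linarith)
        (by linarith) (a4 5) α β hα hβ
    · exact FOLaux.center hTAN hCONE hBODY hF hz h P 5 7 (by decide) _ _ (by linarith)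
        (by linarith) (a2 6) α β hα hβ
    · exact FOLaux.center hTAN hCONE hBODY hF hz h P 5 8 (by decide) _ _ (by linarith)
        (by linarith) (a3 6) α β hα hβ
    · exact FOLaux.center hTAN hCONE hBODY hF hz h P 5 9 (by decide) _ _ (by linarith)
        (by linarith) (a4 6) α β hα hβ
    · exact FOLaux.center hTAN hCONE hBODY hF hz h P 6 8 (by decide) _ _ (by linarith)
        (by linarith) (a2 7) α β hα hβ
    · exact FOLaux.center hTAN hCONE hBODY hF hz h P 6 9 (by decide) _ _ (by linarith)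
        (by linarith) (a3 7) α β hα hβ
    · exact FOLaux.center hTAN hCONE hBODY hF hz h P 7 9 (by decide) _ _ (by linarith)
        (by linarith) (a2 8) α β hα hβ

end Pool.Agent.H113R4.EN
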