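import Mathlib
import Pool.Agent.H113R4.EN.Stubs

/-! EN task HULL (helper666): a linear inequality on a tile has to be checked at the vertices. -/

set_option autoImplicit false

namespace Pool.Agent.H113R4.EN

namespace HULLaux

lemma crs_lin (e z w : ℂ) (s t : ℝ) :
    crs e ((s : ℂ) * z + (t : ℂ) * w) = s * crs e z + t * crs e w := by
  simp only [crs, Complex.add_im, Complex.add_re, Complex.mul_im, Complex.mul_re,
    Complex.ofReal_re, Complex.ofReal_im, zero_mul, sub_zero, add_zero]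
  ring

end HULLaux

theorem t_HULL : S_HULL := by
  intro k P e q h z hz
  obtain ⟨w, hw, rfl⟩ := hz
  have hconv : Convex ℝ {w : ℂ | 0 ≤ crs e (cen P + ze ^ (k : ℕ) * w - q)} := by
    intro w1 h1 w2 h2 s t hs ht hst
    have h1' : 0 ≤ crs e (cen P + ze ^ (k : ℕ) * w1 - q) := h1
    have h2' : 0 ≤ crs e (cen P + ze ^ (k : ℕ) * w2 - q) := h2
    change 0 ≤ crs e (cen P + ze ^ (k : ℕ) * (s • w1 + t • w2) - q)
    have h3 : cen P + ze ^ (k : ℕ) * (s • w1 + t • w2) - q =
        (s : ℂ) * (cen P + ze ^ (k : ℕ) * w1 - q) + (t : ℂ) * (cen P + ze ^ (k : ℕ) * w2 - q) := by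
      have hst' : (s : ℂ) + t = 1 := by exact_mod_cast hst
      simp only [Complex.real_smul]
      linear_combination (-(cen P - q)) * hst'
    rw [h3, HULLaux.crs_lin]
    exact add_nonneg (mul_nonneg hs h1') (mul_nonneg ht h2')
  have hsub : K ⊆ {w : ℂ | 0 ≤ crs e (cen P + ze ^ (k : ℕ) * w - q)} := by
    refine convexHull_min ?_ hconv
    rintro _ ⟨i, rfl⟩
    exact h i
  exact hsub hw

end Pool.Agent.H113R4.EN
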