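import Mathlib
import Pool.Agent.H113R4.EN.Stubs

/-! # INF: infinitesimal rigidity -/

set_option autoImplicit false

namespace Pool.Agent.H113R4.EN

/-- infinitesimal rigidity: an extreme star of the lexicographic order is at rest -/
theorem t_INF (hSTR : S_STR) (hROT : S_ROT) (hSEC : S_SEC) (hSTAR : S_STAR) : S_INF := by
  intro X hfin hX
  obtain ⟨hG, hH, hO⟩ := hSTR X hfin hX
  have hR := hROT X hfin hG hH hO
  have key : ∀ P : ℤ × ℤ, (∀ k, X k (P + (1, 0)) = 0) → (∀ k, X k (P + (0, 1)) = 0) →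
      ∀ k, X k P = 0 := by
    intro P h1 h2
    obtain ⟨a9, a0, a1, a2, a3, a4⟩ := hSEC X P hG hO hR h1 h2
    obtain ⟨a5, a6, a7, a8⟩ := hSTAR X P hX hG hR a9 a4
    intro k
    fin_cases k
    · exact a0
    · exact a1
    · exact a2
    · exact a3
    · exact a4
    · exact a5
    · exact a6
    · exact a7
    · exact a8
    · exact a9
  by_contra hne
  push Not at hne
  obtain ⟨k, P, hkP⟩ := hne
  have hBn : {P : ℤ × ℤ | ∃ k, X k P ≠ 0}.Nonempty := ⟨P, k, hkP⟩
  obtain ⟨Q, hQ, hmax⟩ := Set.exists_max_image _ (fun P : ℤ × ℤ => toLex P) hfin hBn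
  obtain ⟨l, hl⟩ := hQ
  apply hl
  apply key Q
  · intro j
    by_contra h
    have h1 := hmax (Q + (1, 0)) ⟨j, h⟩
    rw [Prod.Lex.toLex_le_toLex] at h1
    rcases h1 with h1 | ⟨h1, -⟩
    · simp only [Prod.fst_add] at h1
      omega
    · simp only [Prod.fst_add] at h1
      omega
  · intro j
    by_contra h
    have h1 := hmax (Q + (0, 1)) ⟨j, h⟩
    rw [Prod.Lex.toLex_le_toLex] at h1
    rcases h1 with h1 | ⟨-, h1⟩
    · simp only [Prod.fst_add] at h1
      omega
    · simp only [Prod.snd_add] at h1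
      omega

end Pool.Agent.H113R4.EN
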