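import Mathlib
import Pool.Agent.H113R4.EN.Stubs

/-!
# Task INJ: the only orientation preserving symmetry of `K` is the identity
-/

namespace Pool.Agent.H113R4.EN

namespace INJaux

/-- the quadratic function -/
noncomputable def Q (m : ℂ) (z : ℂ) : ℝ :=
  (z.re - m.re) ^ 2 + (z.im - m.im) ^ 2 + 1 / 1000 * (crs m z) ^ 2

theorem Q_conv (m : ℂ) (R : ℝ) : Convex ℝ {z : ℂ | Q m z ≤ R} := by
  intro x hx y hy s t hs ht hst
  change Q m x ≤ R at hx
  change Q m y ≤ R at hy
  change Q m (s • x + t • y) ≤ R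
  have ht' : t = 1 - s := by linarith
  have key : Q m (s • x + t • y) = s * Q m x + t * Q m y -
      s * t * ((x.re - y.re) ^ 2 + (x.im - y.im) ^ 2 + 1 / 1000 * (crs m (x - y)) ^ 2) := by
    unfold Q crs
    simp only [Complex.add_re, Complex.add_im, Complex.smul_re, Complex.smul_im, smul_eq_mul,
      Complex.sub_re, Complex.sub_im]
    rw [ht']
    ring
  rw [key]
  have h1 : 0 ≤ s * t * ((x.re - y.re) ^ 2 + (x.im - y.im) ^ 2 + 1 / 1000 * (crs m (x - y)) ^ 2) :=
    mul_nonneg (mul_nonneg hs ht) (by positivity)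
  have h2 : s * Q m x ≤ s * R := mul_le_mul_of_nonneg_left hx hs
  have h3 : t * Q m y ≤ t * R := mul_le_mul_of_nonneg_left hy ht
  have h4 : s * R + t * R = R := by rw [← add_mul, hst, one_mul]
  linarith

theorem L_conv (e q : ℂ) : Convex ℝ {z : ℂ | 0 ≤ crs e (z - q)} := by
  intro x hx y hy s t hs ht hst
  change 0 ≤ crs e (x - q) at hx
  change 0 ≤ crs e (y - q) at hy
  change 0 ≤ crs e (s • x + t • y - q)
  have ht' : t = 1 - s := by linarith
  have key : crs e (s • x + t • y - q) = s * crs e (x - q) + t * crs e (y - q) := by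
    unfold crs
    simp only [Complex.add_re, Complex.add_im, Complex.smul_re, Complex.smul_im, smul_eq_mul,
      Complex.sub_re, Complex.sub_im]
    rw [ht']
    ring
  rw [key]
  exact add_nonneg (mul_nonneg hs hx) (mul_nonneg ht hy)

end INJaux

open INJaux in
theorem t_INJ (hF : S_F) (hZ : S_Z) (hPT : S_PT) : S_INJ := by
  intro e b hb hK
  obtain ⟨hf, hf1, hf2⟩ := hF
  obtain ⟨-, -, him, hre, hnz, -⟩ := hZ
  obtain ⟨pta, pts, ptm, -, ptc, -, ptinj, ptn, -⟩ := hPT
  have him1 : ze.im ≤ 1 := by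
    have := Complex.abs_im_le_norm ze
    rw [hnz] at this
    exact (le_abs_self _).trans this
  set m : ℂ := pt 11 11 with hm
  have hsq : ∀ z : ℂ, (z.re - m.re) ^ 2 + (z.im - m.im) ^ 2 = ‖z - m‖ ^ 2 := by
    intro z
    rw [Complex.sq_norm, Complex.normSq_apply, Complex.sub_re, Complex.sub_im]
    ring
  have hQpt : ∀ x y : ℝ, Q m (pt x y) = (x - 11) ^ 2 + (y - 11) ^ 2 + f * (x - 11) * (y - 11) +
      1 / 1000 * (ze.im * (11 * y - 11 * x)) ^ 2 := by
    intro x y
    unfold Q
    rw [hsq, hm, pts, ptn, ptc]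
  have hQV : ∀ i : Fin 6, Q m (V i) ≤ 121 * (2 + f) := by
    have hi2 : ze.im ^ 2 ≤ 1 := by nlinarith
    intro i
    fin_cases i
    · change Q m (pt 0 0) ≤ _
      rw [hQpt]
      nlinarith
    · change Q m (pt (44 * f - 55) 0) ≤ _
      rw [hQpt]
      nlinarith
    · change Q m (pt (77 - 33 * f) (44 - 22 * f)) ≤ _
      rw [hQpt]
      nlinarith
    · change Q m (pt 22 22) ≤ _
      rw [hQpt]
      nlinarith
    · change Q m (pt (44 - 22 * f) (77 - 33 * f)) ≤ _
      rw [hQpt]
      nlinarith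
    · change Q m (pt 0 (44 * f - 55)) ≤ _
      rw [hQpt]
      nlinarith
  have hQK : ∀ z ∈ K, Q m z ≤ 121 * (2 + f) := by
    intro z hz
    refine convexHull_min ?_ (Q_conv m _) hz
    rintro _ ⟨i, rfl⟩
    exact hQV i
  have hVK : ∀ i, V i ∈ K := fun i => subset_convexHull ℝ _ ⟨i, rfl⟩
  have hfor : ∀ z ∈ K, e + b * z ∈ K := by
    intro z hz
    rw [← hK]
    exact ⟨z, hz, rfl⟩
  have h0 : e ∈ K := by
    have := hfor (V 0) (hVK 0)
    have hV0 : V 0 = 0 := by
      change pt 0 0 = 0
      simp [pt]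
    rwa [hV0, mul_zero, add_zero] at this
  have h2m : V 3 = m + m := by
    change pt 22 22 = _
    rw [hm, pta]
    norm_num
  have h3 : e + b * (m + m) ∈ K := by
    rw [← h2m]
    exact hfor _ (hVK 3)
  have hmn : ‖m‖ ^ 2 = 121 * (2 + f) := by
    rw [hm, ptn]
    ring
  -- the centre
  have hcen : e + b * m = m := by
    have q0 := hQK _ h0
    have q3 := hQK _ h3
    unfold Q at q0 q3
    rw [hsq] at q0 q3
    have q0' : ‖e - m‖ ^ 2 ≤ 121 * (2 + f) := by nlinarith [sq_nonneg (crs m e)]
    have q3' : ‖e + b * (m + m) - m‖ ^ 2 ≤ 121 * (2 + f) := by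
      nlinarith [sq_nonneg (crs m (e + b * (m + m)))]
    have hpar := parallelogram_law_with_norm ℝ (e + b * m - m) (b * m)
    have e1 : e + b * m - m + b * m = e + b * (m + m) - m := by ring
    have e2 : e + b * m - m - b * m = e - m := by ring
    rw [e1, e2, norm_mul b m, hb, one_mul] at hpar
    have : ‖e + b * m - m‖ ^ 2 ≤ 0 := by nlinarith
    have h4 : ‖e + b * m - m‖ = 0 := by
      have := sq_nonneg ‖e + b * m - m‖
      exact pow_eq_zero_iff (two_ne_zero) |>.1 (le_antisymm ‹_› this)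
    exact sub_eq_zero.1 (norm_eq_zero.1 h4)
  have hecrs : crs m e = 0 := by
    have q0 := hQK _ h0
    unfold Q at q0
    rw [hsq] at q0
    have e1 : e - m = -(b * m) := by linear_combination hcen
    rw [e1, norm_neg, norm_mul, hb, one_mul, hmn] at q0
    have : (crs m e) ^ 2 ≤ 0 := by linarith
    exact pow_eq_zero_iff (two_ne_zero) |>.1 (le_antisymm this (sq_nonneg _))
  have he : e = m - b * m := by linear_combination hcen
  have hbim : b.im = 0 := by
    rw [he] at hecrs
    unfold crs at hecrs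
    simp only [Complex.sub_re, Complex.sub_im, Complex.mul_re, Complex.mul_im] at hecrs
    have h1 : b.im * (m.re ^ 2 + m.im ^ 2) = 0 := by linear_combination -hecrs
    have h2 : m.re ^ 2 + m.im ^ 2 = ‖m‖ ^ 2 := by
      rw [Complex.sq_norm, Complex.normSq_apply]
      ring
    rw [h2, hmn] at h1
    refine (mul_eq_zero.1 h1).resolve_right ?_
    intro h
    linarith
  have hbre : b.re ^ 2 = 1 := by
    have h1 : ‖b‖ ^ 2 = b.re ^ 2 + b.im ^ 2 := by
      rw [Complex.sq_norm, Complex.normSq_apply]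
      ring
    rw [hb, hbim] at h1
    linarith
  rcases (sq_eq_one_iff.1 hbre) with h | h
  · have hb1 : b = 1 := by
      apply Complex.ext
      · rw [h, Complex.one_re]
      · rw [hbim, Complex.one_im]
    refine ⟨?_, hb1⟩
    rw [he, hb1]
    ring
  · exfalso
    have hb1 : b = -1 := by
      apply Complex.ext
      · rw [h, Complex.neg_re, Complex.one_re]
      · rw [hbim, Complex.neg_im, Complex.one_im, neg_zero]
    have h1 : pt (77 - 44 * f) 22 ∈ K := by
      have h2 := hfor _ (hVK 1)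
      have h3 : e + b * V 1 = pt (77 - 44 * f) 22 := by
        rw [he, hb1]
        have : m - -1 * m + -1 * V 1 = (m + m) - V 1 := by ring
        rw [this, ← h2m]
        change pt 22 22 - pt (44 * f - 55) 0 = _
        rw [pts]
        congr 1
        · ring
        · ring
      rwa [h3] at h2
    have h2 : ∀ z ∈ K, 0 ≤ crs (pt (-44 + 22 * f) (77 * f - 132)) (z - pt 0 (44 * f - 55)) := by
      intro z hz
      refine convexHull_min ?_ (L_conv _ _) hz
      rintro _ ⟨i, rfl⟩
      change 0 ≤ crs _ (V i - _)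
      have key : ∀ x y : ℝ, 0 ≤ (-44 + 22 * f) * (y - (44 * f - 55)) - (77 * f - 132) * (x - 0) →
          0 ≤ crs (pt (-44 + 22 * f) (77 * f - 132)) (pt x y - pt 0 (44 * f - 55)) := by
        intro x y hxy
        rw [pts, ptc]
        exact mul_nonneg him.le hxy
      fin_cases i
      · exact key 0 0 (by nlinarith)
      · exact key (44 * f - 55) 0 (by nlinarith)
      · exact key (77 - 33 * f) (44 - 22 * f) (by nlinarith)
      · exact key 22 22 (by nlinarith)
      · exact key (44 - 22 * f) (77 - 33 * f) (by nlinarith)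
      · exact key 0 (44 * f - 55) (by nlinarith)
    have h3 := h2 _ h1
    rw [pts, ptc] at h3
    have h4 : (-44 + 22 * f) * (22 - (44 * f - 55)) - (77 * f - 132) * ((77 - 44 * f) - 0) < 0 := by
      nlinarith
    have h5 := mul_neg_of_pos_of_neg him h4
    linarith

end Pool.Agent.H113R4.EN
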