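import Mathlib
import Pool.Agent.H113R4.EN.Stubs

set_option autoImplicit false

namespace Pool.Agent.H113R4.EN

open Filter Topology

namespace LIMaux

theorem mot_zero (c : ℂ) (A : Set ℂ) : mot c 0 '' A = A := by
  have h : mot c 0 = id := by
    funext z
    simp [mot]
  rw [h, Set.image_id]

open Classical in
/-- extension by zero -/
noncomputable def ext {k : ℕ} (j : Fin k → Fin 10 × (ℤ × ℤ)) (z : Fin k → ℂ × ℝ)
    (l : Fin 10) (P : ℤ × ℤ) : ℂ × ℝ :=
  if h : ∃ i, j i = (l, P) then z h.choose else 0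

theorem ext_eq {k : ℕ} (j : Fin k → Fin 10 × (ℤ × ℤ)) (hj : Function.Injective j)
    (z : Fin k → ℂ × ℝ) (i : Fin k) (l : Fin 10) (P : ℤ × ℤ) (hi : j i = (l, P)) :
    ext j z l P = z i := by
  have h : ∃ i, j i = (l, P) := ⟨i, hi⟩
  unfold ext
  rw [dif_pos h]
  congr 1
  apply hj
  rw [h.choose_spec, hi]

theorem ext_ne {k : ℕ} (j : Fin k → Fin 10 × (ℤ × ℤ))
    (z : Fin k → ℂ × ℝ) (l : Fin 10) (P : ℤ × ℤ) (h : ¬ ∃ i, j i = (l, P)) :
    ext j z l P = 0 := by
  unfold ext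
  rw [dif_neg h]

end LIMaux

open LIMaux in
theorem t_LIM (hPAR : S_PAR) (hCPT : S_CPT) (hCNT : S_CNT) : S_LIM := by
  intro hnot
  unfold FinStable at hnot
  rw [not_forall] at hnot
  obtain ⟨k, hk⟩ := hnot
  rw [Classical.not_imp] at hk
  obtain ⟨hk1, hk⟩ := hk
  unfold KStable at hk
  rw [not_forall] at hk
  obtain ⟨C, hk⟩ := hk
  rw [Classical.not_imp] at hk
  obtain ⟨hCinj, hk⟩ := hk
  rw [Classical.not_imp] at hk
  obtain ⟨hCF, hk⟩ := hk
  have hF : ∀ i, ∃ j : Fin 10 × (ℤ × ℤ), tile j.1 j.2 = C i := fun i => hCF i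
  choose j hj using hF
  have hjinj : Function.Injective j := by
    intro a b hab
    apply hCinj
    rw [← hj a, ← hj b, hab]
  haveI : Nonempty (Fin k) := ⟨⟨0, hk1⟩⟩
  set B : Set (Fin k → ℂ × ℝ) := {x |
    (∀ a b, a ≠ b → Disjoint (interior (mot (cen (j a).2) (x a) '' C a))
      (interior (mot (cen (j b).2) (x b) '' C b))) ∧
    (∀ a, ∀ D ∈ FF, D ∉ Set.range C →
      Disjoint (interior (mot (cen (j a).2) (x a) '' C a)) (interior D))} with hB
  have key : ∀ ε : ℝ, 0 < ε → ∃ x ∈ B, x ≠ 0 ∧ ‖x‖ < ε := by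
    intro ε hε
    have h1 : ∀ i, ∃ δ : ℝ, 0 < δ ∧ ∀ D : Set ℂ, Cong (C i) D →
        Metric.hausdorffDist (C i) D < δ →
        ∃ x : ℂ × ℝ, ‖x‖ < ε ∧ D = mot (cen (j i).2) x '' C i := by
      intro i
      have := hPAR (j i).1 (j i).2 ε hε
      rw [hj i] at this
      exact this
    choose δ hδ hδ' using h1
    obtain ⟨i0, hi0⟩ := Finite.exists_min δ
    by_contra hcon
    apply hk
    refine ⟨δ i0, hδ i0, ?_⟩
    intro C' hc1 hc2 hc3 hc4
    have h2 : ∀ i, ∃ x : ℂ × ℝ, ‖x‖ < ε ∧ C' i = mot (cen (j i).2) x '' C i :=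
      fun i => hδ' i (C' i) (hc1 i) (lt_of_lt_of_le (hc2 i) (hi0 i))
    choose x hx hx' using h2
    by_contra hne
    apply hcon
    refine ⟨x, ?_, ?_, ?_⟩
    · rw [hB]
      refine ⟨?_, ?_⟩
      · intro a b hab
        rw [← hx' a, ← hx' b]
        exact hc3 a b hab
      · intro a D hD hDC
        rw [← hx' a]
        exact hc4 a D hD hDC
    · intro hx0
      apply hne
      funext i
      rw [hx' i, hx0]
      exact mot_zero _ _
    · exact (pi_norm_lt_iff hε).2 hx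
  obtain ⟨x, y, hxB, hlim, hy, hconv⟩ := hCPT k B key
  have hpos : ∀ n, 0 < ‖x n‖ := fun n => norm_pos_iff.2 (hxB n).2
  refine ⟨fun n => ‖x n‖, fun n => ext j (x n), ext j y, ?_, ?_, ?_⟩
  · refine ⟨hpos, hlim, ?_, ?_⟩
    · intro l P
      by_cases h : ∃ i, j i = (l, P)
      · obtain ⟨i, hi⟩ := h
        simp only [ext_eq j hjinj _ i l P hi]
        exact hconv i
      · simp only [ext_ne j _ l P h]
        have : (fun n : ℕ => (((0 : ℂ × ℝ).1 / ((‖x n‖ : ℝ) : ℂ), (0 : ℂ × ℝ).2 / ‖x n‖) : ℂ × ℝ)) =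
            fun _ => (0 : ℂ × ℝ) := by
          funext n
          simp
        rw [this]
        exact tendsto_const_nhds
    · intro n a b P Q hPQ
      have hout : ∀ (l : Fin 10) (R : ℤ × ℤ), (¬ ∃ i, j i = (l, R)) →
          tile l R ∉ Set.range C := by
        rintro l R h ⟨i, hi⟩
        apply h
        refine ⟨i, ?_⟩
        rw [← hj i] at hi
        exact hCNT.1 (j i) (l, R) hi
      have hin : ∀ (i : Fin k) (l : Fin 10) (R : ℤ × ℤ), j i = (l, R) →
          mot (cen R) (ext j (x n) l R) '' tile l R = mot (cen (j i).2) (x n i) '' C i := by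
        intro i l R hi
        rw [ext_eq j hjinj _ i l R hi, ← hj i, hi]
      have hzero : ∀ (l : Fin 10) (R : ℤ × ℤ), (¬ ∃ i, j i = (l, R)) →
          mot (cen R) (ext j (x n) l R) '' tile l R = tile l R := by
        intro l R h
        rw [ext_ne j _ l R h, mot_zero]
      have hx := (hxB n).1
      rw [hB] at hx
      obtain ⟨hx1, hx2⟩ := hx
      by_cases h1 : ∃ i, j i = (a, P)
      · obtain ⟨i, hi⟩ := h1
        by_cases h2 : ∃ i, j i = (b, Q)
        · obtain ⟨i', hi'⟩ := h2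
          rw [hin i a P hi, hin i' b Q hi']
          apply hx1
          intro hii
          apply hPQ
          rw [← hi, ← hi', hii]
        · rw [hin i a P hi, hzero b Q h2]
          exact hx2 i _ ⟨(b, Q), rfl⟩ (hout b Q h2)
      · by_cases h2 : ∃ i, j i = (b, Q)
        · obtain ⟨i', hi'⟩ := h2
          rw [hin i' b Q hi', hzero a P h1]
          exact (hx2 i' _ ⟨(a, P), rfl⟩ (hout a P h1)).symm
        · rw [hzero a P h1, hzero b Q h2]
          refine hCNT.2.1.2 _ ⟨(a, P), rfl⟩ _ ⟨(b, Q), rfl⟩ ?_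
          intro he
          exact hPQ (hCNT.1 (a, P) (b, Q) he)
  · refine Set.Finite.subset (Set.finite_range fun i => (j i).2) ?_
    rintro P ⟨l, hl⟩
    by_cases h : ∃ i, j i = (l, P)
    · obtain ⟨i, hi⟩ := h
      refine ⟨i, ?_⟩
      simp only [hi]
    · exact absurd (ext_ne j y l P h) hl
  · have hy0 : y ≠ 0 := by
      intro h0
      rw [h0, norm_zero] at hy
      exact zero_ne_one hy
    obtain ⟨i, hi⟩ := Function.ne_iff.1 hy0
    refine ⟨(j i).1, (j i).2, ?_⟩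
    rw [ext_eq j hjinj y i (j i).1 (j i).2 rfl]
    exact hi

end Pool.Agent.H113R4.EN
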