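import Mathlib
import Pool.Agent.H113R4.EN.Stubs

/-!
# Neighbouring stars: disjointness (task NB, second copy)
-/

namespace Pool.Agent.H113R4.EN

namespace NB2aux

/-! ### Computable model of `ℤ[φ]` -/

abbrev Z2 := ℤ × ℤ
abbrev Q2 := Z2 × Z2

def zmul (x y : Z2) : Z2 := (x.1 * y.1 + x.2 * y.2, x.1 * y.2 + x.2 * y.1 + x.2 * y.2)
def zsub (x y : Z2) : Z2 := (x.1 - y.1, x.2 - y.2)
def zadd (x y : Z2) : Z2 := (x.1 + y.1, x.2 + y.2)
def psub (p q : Q2) : Q2 := (zsub p.1 q.1, zsub p.2 q.2)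
def padd (p q : Q2) : Q2 := (zadd p.1 q.1, zadd p.2 q.2)
def cr (p q : Q2) : Z2 := zsub (zmul p.1 q.2) (zmul p.2 q.1)
def rot (p : Q2) : Q2 := ((-p.2.1, -p.2.2), (p.1.1 + p.2.2, p.1.2 + (p.2.1 + p.2.2)))
def rotn : ℕ → Q2 → Q2
  | 0, p => p
  | n + 1, p => rot (rotn n p)

def posb (x : Z2) : Bool :=
  (decide (0 ≤ x.1) && decide (0 ≤ x.2) && (decide (x.1 ≠ 0) || decide (x.2 ≠ 0))) ||
  (decide (x.1 < 0) && decide (0 < x.2) && decide (x.1 * x.1 + x.1 * x.2 - x.2 * x.2 < 0)) ||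
  (decide (0 < x.1) && decide (x.2 < 0) && decide (0 < x.1 * x.1 + x.1 * x.2 - x.2 * x.2))

def nnb (x : Z2) : Bool := posb x || (decide (x.1 = 0) && decide (x.2 = 0))

def Vc : ℕ → Q2
  | 0 => ((0, 0), (0, 0))
  | 1 => ((-55, 44), (0, 0))
  | 2 => ((77, -33), (44, -22))
  | 3 => ((22, 0), (22, 0))
  | 4 => ((44, -22), (77, -33))
  | _ => ((0, 0), (-55, 44))

def uc : Q2 := ((12, 4), (-8, 34))
def vc : Q2 := ((-38, -42), (46, 30))

/-- vertices relative to the centre of `P` -/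
def wt (k : ℕ) (d : Q2) (j : ℕ) : Q2 := padd d (rotn k (Vc j))

/-- the edge `i` of the tile `T` separates `T` from `S` -/
def chk (strict : Bool) (wT wS : ℕ → Q2) (i : ℕ) : Bool :=
  ((List.range 6).all fun j => nnb (cr (psub (wT ((i + 1) % 6)) (wT i)) (psub (wT j) (wT i)))) &&
  ((List.range 6).any fun j => posb (cr (psub (wT ((i + 1) % 6)) (wT i)) (psub (wT j) (wT i)))) &&
  ((List.range 6).all fun j =>
    if strict then posb (cr (psub (wS j) (wT i)) (psub (wT ((i + 1) % 6)) (wT i)))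
    else nnb (cr (psub (wS j) (wT i)) (psub (wT ((i + 1) % 6)) (wT i))))

def chk2 (strict : Bool) (d : Q2) (k l c : ℕ) : Bool :=
  if c < 6 then chk strict (wt k ((0, 0), (0, 0))) (wt l d) c
  else chk strict (wt l d) (wt k ((0, 0), (0, 0))) (c - 6)

def certU : List (List ℕ) :=
  [[3, 3, 3, 3, 11, 3, 7, 6, 6, 6],
   [1, 11, 11, 10, 9, 1, 1, 1, 1, 1],
   [0, 0, 1, 2, 2, 0, 7, 0, 0, 0],
   [0, 0, 0, 1, 9, 0, 7, 6, 0, 0],
   [0, 0, 0, 0, 10, 0, 7, 6, 6, 0],
   [0, 0, 0, 11, 0, 9, 7, 6, 6, 6],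
   [6, 5, 11, 11, 11, 9, 5, 5, 6, 6],
   [6, 5, 5, 11, 11, 9, 5, 7, 5, 6],
   [5, 5, 5, 5, 11, 9, 4, 8, 7, 5],
   [5, 5, 5, 5, 5, 5, 3, 8, 3, 4]]

def certV : List (List ℕ) :=
  [[7, 4, 4, 4, 4, 4, 9, 5, 4, 4],
   [7, 3, 3, 3, 3, 3, 3, 4, 4, 3],
   [7, 6, 3, 3, 3, 11, 10, 4, 4, 8],
   [7, 6, 2, 2, 11, 10, 10, 10, 2, 7],
   [2, 2, 2, 2, 2, 10, 9, 2, 1, 2],
   [1, 1, 1, 1, 1, 1, 1, 1, 1, 8],
   [7, 0, 0, 0, 0, 10, 9, 0, 0, 8],
   [7, 6, 0, 0, 11, 10, 9, 9, 8, 8],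
   [7, 6, 6, 5, 11, 10, 9, 9, 8, 8],
   [7, 6, 5, 5, 5, 10, 9, 9, 5, 8]]

def tU : List (ℕ × ℕ) := [(0, 5), (9, 6), (1, 4), (0, 6), (1, 5)]
def tV : List (ℕ × ℕ) := [(3, 8), (4, 7), (2, 9), (3, 7), (2, 8)]

def allchk (d : Q2) (cert : List (List ℕ)) (t : List (ℕ × ℕ)) : Bool :=
  (List.range 10).all fun k => (List.range 10).all fun l =>
    chk2 (!t.contains (k, l)) d k l ((cert.getD k []).getD l 0)

theorem okU : allchk uc certU tU = true := by decide +kernel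
theorem okV : allchk vc certV tV = true := by decide +kernel

/-! ### Soundness -/

/-- value -/
noncomputable def rv (x : Z2) : ℝ := (x.1 : ℝ) + (x.2 : ℝ) * f

noncomputable def P2 (p : Q2) : ℂ := pt (rv p.1) (rv p.2)

theorem rv_add (x y : Z2) : rv (zadd x y) = rv x + rv y := by
  simp only [rv, zadd]; push_cast; ring

theorem rv_sub (x y : Z2) : rv (zsub x y) = rv x - rv y := by
  simp only [rv, zsub]; push_cast; ring

theorem rv_mul (hF : S_F) (x y : Z2) : rv (zmul x y) = rv x * rv y := by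
  have h := hF.1
  simp only [rv, zmul]; push_cast
  linear_combination (-(x.2 : ℝ) * y.2) * h

theorem posb_pos (hF : S_F) {x : Z2} (h : posb x = true) : 0 < rv x := by
  obtain ⟨hf, h1, h2⟩ := hF
  obtain ⟨a, b⟩ := x
  have key : rv (a, b) * ((a : ℝ) + b - b * f) = ((a * a + a * b - b * b : ℤ) : ℝ) := by
    simp only [rv]; push_cast
    linear_combination (-(b : ℝ) ^ 2) * hf
  simp only [posb, Bool.or_eq_true, Bool.and_eq_true, decide_eq_true_eq] at h
  rcases h with (⟨⟨ha, hb⟩, hab⟩ | ⟨⟨ha, hb⟩, hN⟩) | ⟨⟨ha, hb⟩, hN⟩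
  · have ha' : (0 : ℝ) ≤ a := by exact_mod_cast ha
    have hb' : (0 : ℝ) ≤ b := by exact_mod_cast hb
    simp only [rv]
    rcases hab with h3 | h3
    · have : (0 : ℝ) < a := by
        have : 0 < a := lt_of_le_of_ne ha (Ne.symm h3)
        exact_mod_cast this
      nlinarith
    · have : (0 : ℝ) < b := by
        have : 0 < b := lt_of_le_of_ne hb (Ne.symm h3)
        exact_mod_cast this
      nlinarith
  · have ha' : (a : ℝ) < 0 := by exact_mod_cast ha
    have hb' : (0 : ℝ) < b := by exact_mod_cast hb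
    have hN' : ((a * a + a * b - b * b : ℤ) : ℝ) < 0 := by exact_mod_cast hN
    rw [← key] at hN'
    have h4 : (a : ℝ) + b - b * f < 0 := by nlinarith
    by_contra h5
    push Not at h5
    have := mul_nonneg_of_nonpos_of_nonpos h5 h4.le
    linarith
  · have ha' : (0 : ℝ) < a := by exact_mod_cast ha
    have hb' : (b : ℝ) < 0 := by exact_mod_cast hb
    have hN' : (0 : ℝ) < ((a * a + a * b - b * b : ℤ) : ℝ) := by exact_mod_cast hN
    rw [← key] at hN'
    have h4 : 0 < (a : ℝ) + b - b * f := by nlinarith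
    by_contra h5
    push Not at h5
    have := mul_nonpos_of_nonpos_of_nonneg h5 h4.le
    linarith

theorem nnb_nonneg (hF : S_F) {x : Z2} (h : nnb x = true) : 0 ≤ rv x := by
  simp only [nnb, Bool.or_eq_true, Bool.and_eq_true, decide_eq_true_eq] at h
  rcases h with h | ⟨h1, h2⟩
  · exact (posb_pos hF h).le
  · simp only [rv, h1, h2]; norm_num

theorem P2_add (hPT : S_PT) (p q : Q2) : P2 (padd p q) = P2 p + P2 q := by
  unfold P2 padd
  rw [hPT.1, rv_add, rv_add]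

theorem P2_sub (hPT : S_PT) (p q : Q2) : P2 (psub p q) = P2 p - P2 q := by
  unfold P2 psub
  rw [hPT.2.1, rv_sub, rv_sub]

theorem P2_rot (hF : S_F) (hPT : S_PT) (p : Q2) : P2 (rot p) = ze * P2 p := by
  have h := hF.1
  unfold P2
  rw [hPT.2.2.2.1]
  congr 1
  · simp only [rot, rv]; push_cast; ring
  · simp only [rot, rv]; push_cast
    linear_combination (-(p.2.2 : ℝ)) * h

theorem P2_rotn (hF : S_F) (hPT : S_PT) (n : ℕ) (p : Q2) : P2 (rotn n p) = ze ^ n * P2 p := by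
  induction n with
  | zero => simp [rotn]
  | succ n ih => rw [rotn, P2_rot hF hPT, ih, pow_succ]; ring

theorem crs_P2 (hF : S_F) (hPT : S_PT) (p q : Q2) : crs (P2 p) (P2 q) = ze.im * rv (cr p q) := by
  unfold P2 cr
  rw [hPT.2.2.2.2.1, rv_sub, rv_mul hF, rv_mul hF]

theorem V_eq (i : Fin 6) : V i = P2 (Vc i) := by
  fin_cases i <;> simp [V, P2, Vc, rv] <;> (try (congr 1 <;> ring))

theorem hull_gen (S : Set ℝ) (hS : Convex ℝ S) (k : Fin 10) (P : ℤ × ℤ) (e q : ℂ)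
    (h : ∀ i : Fin 6, crs e (cen P + ze ^ (k : ℕ) * V i - q) ∈ S) : ∀ z ∈ tile k P, crs e (z - q) ∈ S := by
  have h1 : K ⊆ {y : ℂ | crs e (cen P + ze ^ (k : ℕ) * y - q) ∈ S} := by
    apply convexHull_min
    · rintro _ ⟨i, rfl⟩
      exact h i
    · intro x hx y hy a b ha hb hab
      have h2 := hS hx hy ha hb hab
      have h3 : crs e (cen P + ze ^ (k : ℕ) * (a • x + b • y) - q) =
          a • crs e (cen P + ze ^ (k : ℕ) * x - q) + b • crs e (cen P + ze ^ (k : ℕ) * y - q) := by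
        have hb' : b = 1 - a := by linarith
        subst hb'
        simp only [crs, Complex.add_re, Complex.add_im, Complex.sub_re, Complex.sub_im,
          Complex.mul_re, Complex.mul_im, Complex.real_smul, Complex.ofReal_re, Complex.ofReal_im,
          smul_eq_mul]
        ring
      show crs e (cen P + ze ^ (k : ℕ) * (a • x + b • y) - q) ∈ S
      rw [h3]
      exact h2
  rintro _ ⟨y, hy, rfl⟩
  exact h1 hy

theorem crs_neg_left (e w : ℂ) : crs (-e) w = -crs e w := by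
  simp [crs]; ring

/-- separation of two tiles by an edge of the first one -/
theorem sep_of_chk (hF : S_F) (hZ : S_Z) (hPT : S_PT) (hSEP : S_SEP)
    (strict : Bool) (wT wS : ℕ → Q2) (i : ℕ) (h : chk strict wT wS i = true) (k l : Fin 10)
    (P Q R : ℤ × ℤ)
    (hT : ∀ j : Fin 6, cen P + ze ^ (k : ℕ) * V j = cen R + P2 (wT j))
    (hS : ∀ j : Fin 6, cen Q + ze ^ (l : ℕ) * V j = cen R + P2 (wS j)) :
    Disjoint (interior (tile k P)) (interior (tile l Q)) ∧
      (strict = true → Disjoint (tile k P) (tile l Q)) := by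
  have hz : 0 < ze.im := hZ.2.2.1
  unfold chk at h
  rw [Bool.and_eq_true, Bool.and_eq_true, List.all_eq_true, List.any_eq_true, List.all_eq_true] at h
  obtain ⟨⟨h1, h2⟩, h3⟩ := h
  set e : Q2 := psub (wT ((i + 1) % 6)) (wT i) with he
  set q : ℂ := cen R + P2 (wT i) with hq
  have hTj : ∀ j : Fin 6, crs (P2 e) (cen P + ze ^ (k : ℕ) * V j - q) =
      ze.im * rv (cr e (psub (wT j) (wT i))) := by
    intro j
    rw [hT j, hq, ← crs_P2 hF hPT, P2_sub hPT (wT j) (wT i)]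
    congr 1
    ring
  have hSj : ∀ j : Fin 6, crs (P2 e) (cen Q + ze ^ (l : ℕ) * V j - q) =
      -(ze.im * rv (cr (psub (wS j) (wT i)) e)) := by
    intro j
    rw [hS j, hq]
    have : cen R + P2 (wS j) - (cen R + P2 (wT i)) = P2 (psub (wS j) (wT i)) := by
      rw [P2_sub hPT]; ring
    rw [this, crs_P2 hF hPT]
    simp only [cr, rv_sub, rv_mul hF]
    ring
  have hA : ∀ z ∈ tile k P, 0 ≤ crs (P2 e) (z - q) := by
    refine hull_gen (Set.Ici 0) (convex_Ici 0) k P _ _ fun j => ?_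
    rw [hTj j]
    exact mul_nonneg hz.le (nnb_nonneg hF (h1 j (List.mem_range.2 j.2)))
  have hB : ∀ z ∈ tile l Q, crs (P2 e) (z - q) ≤ 0 := by
    refine hull_gen (Set.Iic 0) (convex_Iic 0) l Q _ _ fun j => ?_
    rw [hSj j]
    have h4 := h3 j (List.mem_range.2 j.2)
    have h5 : 0 ≤ rv (cr (psub (wS j) (wT i)) e) := by
      cases strict
      · exact nnb_nonneg hF (by simpa using h4)
      · exact (posb_pos hF (by simpa using h4)).le
    exact neg_nonpos.2 (mul_nonneg hz.le h5)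
  have hne : P2 e ≠ 0 := by
    obtain ⟨j, hj, h4⟩ := h2
    have h5 := posb_pos hF h4
    have h6 := crs_P2 hF hPT e (psub (wT j) (wT i))
    intro h0
    rw [h0] at h6
    have h7 : crs 0 (P2 (psub (wT j) (wT i))) = 0 := by simp [crs]
    rw [h7] at h6
    have := mul_pos hz h5
    linarith
  refine ⟨hSEP _ _ (P2 e) q hne hA hB, fun hs => ?_⟩
  have hB' : ∀ z ∈ tile l Q, crs (P2 e) (z - q) < 0 := by
    refine hull_gen (Set.Iio 0) (convex_Iio 0) l Q _ _ fun j => ?_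
    rw [hSj j]
    have h4 := h3 j (List.mem_range.2 j.2)
    rw [hs] at h4
    exact neg_lt_zero.2 (mul_pos hz (posb_pos hF (by simpa using h4)))
  rw [Set.disjoint_left]
  intro z hz1 hz2
  have := hA z hz1
  have := hB' z hz2
  linarith

theorem cen_zero_add (hPT : S_PT) (P d : ℤ × ℤ) (dc : Q2) (hd : cen d = P2 dc) (l : Fin 10)
    (hF : S_F) (j : Fin 6) : cen (P + d) + ze ^ (l : ℕ) * V j = cen P + P2 (wt l dc j) := by
  unfold wt
  rw [hPT.2.2.2.2.2.2.2.2.2, hd, P2_add hPT, P2_rotn hF hPT, V_eq]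
  ring

theorem main (hF : S_F) (hZ : S_Z) (hPT : S_PT) (hSEP : S_SEP) (d : ℤ × ℤ) (dc : Q2)
    (hd : cen d = P2 dc) (cert : List (List ℕ)) (t : List (ℕ × ℕ)) (hok : allchk dc cert t = true)
    (k l : Fin 10) (P : ℤ × ℤ) :
    Disjoint (interior (tile k P)) (interior (tile l (P + d))) ∧
      (((k : ℕ), (l : ℕ)) ∉ t → Disjoint (tile k P) (tile l (P + d))) := by
  unfold allchk at hok
  rw [List.all_eq_true] at hok
  have h1 := hok k (List.mem_range.2 k.2)
  rw [List.all_eq_true] at h1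
  have h2 := h1 l (List.mem_range.2 l.2)
  have hA : ∀ j : Fin 6, cen P + ze ^ (k : ℕ) * V j = cen P + P2 (wt k ((0, 0), (0, 0)) j) := by
    intro j
    unfold wt
    rw [P2_add hPT, P2_rotn hF hPT, V_eq]
    have : P2 ((0, 0), (0, 0)) = 0 := by simp [P2, rv, pt]
    rw [this, zero_add]
  have hB := fun j => cen_zero_add hPT P d dc hd l hF j
  have hst : ((k : ℕ), (l : ℕ)) ∉ t → (!t.contains ((k : ℕ), (l : ℕ))) = true := by
    intro h
    simpa using h
  unfold chk2 at h2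
  split_ifs at h2 with hc
  · have h3 := sep_of_chk hF hZ hPT hSEP _ _ _ _ h2 k l P (P + d) P hA hB
    exact ⟨h3.1, fun h => h3.2 (hst h)⟩
  · have h3 := sep_of_chk hF hZ hPT hSEP _ _ _ _ h2 l k (P + d) P P hB hA
    exact ⟨h3.1.symm, fun h => (h3.2 (hst h)).symm⟩

theorem cenU (hPT : S_PT) : cen (1, 0) = P2 uc := by
  rw [hPT.2.2.2.2.2.2.2.2.1]
  unfold P2
  congr 1
  · simp [lat, rv, uc]
  · simp [lat, rv, uc]; ring

theorem cenV (hPT : S_PT) : cen (0, 1) = P2 vc := by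
  rw [hPT.2.2.2.2.2.2.2.2.1]
  unfold P2
  congr 1
  · simp [lat, rv, vc]; ring
  · simp [lat, rv, vc]

theorem memU (k l : Fin 10) (h : (k, l) ∉ touchU) : ((k : ℕ), (l : ℕ)) ∉ tU := by
  revert h
  revert k l
  decide

theorem memV (k l : Fin 10) (h : (k, l) ∉ touchV) : ((k : ℕ), (l : ℕ)) ∉ tV := by
  revert h
  revert k l
  decide

end NB2aux

open NB2aux in
theorem t_NB2 (hF : S_F) (hZ : S_Z) (hPT : S_PT) (hSEP : S_SEP) :
    S_NU1 ∧ S_NU2 ∧ S_NV1 ∧ S_NV2 := by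
  refine ⟨?_, ?_, ?_, ?_⟩
  · intro k l P
    exact (main hF hZ hPT hSEP _ _ (cenU hPT) _ _ okU k l P).1
  · intro k l P h
    exact (main hF hZ hPT hSEP _ _ (cenU hPT) _ _ okU k l P).2 (memU k l h)
  · intro k l P
    exact (main hF hZ hPT hSEP _ _ (cenV hPT) _ _ okV k l P).1
  · intro k l P h
    exact (main hF hZ hPT hSEP _ _ (cenV hPT) _ _ okV k l P).2 (memV k l h)

end Pool.Agent.H113R4.EN
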