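import Mathlib
import Pool.Agent.H113R4.EN.Stubs

/-! # PAR: sets congruent to a tile and close to it are obtained by small motions -/

namespace Pool.Agent.H113R4.EN

open Filter Topology Metric

namespace PARaux

open ComplexConjugate

theorem ze_conj (hZ : S_Z) : ze * conj ze = 1 := by
  rw [hZ.2.2.2.2.2.1]
  have := hZ.1
  linear_combination -this

theorem norm_ze_pow (hZ : S_Z) (k : ℕ) : ‖ze ^ k‖ = 1 := by
  rw [norm_pow, hZ.2.2.2.2.1, one_pow]

theorem conj_pt (hZ : S_Z) (a b : ℝ) : ze * conj (pt a b) = pt b a := by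
  unfold pt
  rw [map_add, map_mul, Complex.conj_ofReal, Complex.conj_ofReal]
  linear_combination (b : ℂ) * ze_conj hZ

/-- the reflection as a linear map -/
noncomputable def rf : ℂ →ₗ[ℝ] ℂ where
  toFun z := ze * conj z
  map_add' z w := by rw [map_add, mul_add]
  map_smul' c z := by
    simp only [Complex.real_smul, map_mul, Complex.conj_ofReal, RingHom.id_apply]
    ring

theorem K_mirror (hZ : S_Z) : (fun z => ze * conj z) '' K = K := by
  have h1 : (fun z => ze * conj z) '' K = rf '' K := rfl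
  rw [h1]
  unfold K
  rw [LinearMap.image_convexHull]
  congr 1
  have h2 : ∀ i : Fin 6, rf (V i) = V ((![0, 5, 4, 3, 2, 1] : Fin 6 → Fin 6) i) := by
    intro i
    change ze * conj (V i) = _
    fin_cases i <;> exact conj_pt hZ _ _
  have h3 : Function.Surjective (![0, 5, 4, 3, 2, 1] : Fin 6 → Fin 6) := by decide
  rw [← Set.range_comp]
  have h4 : (rf ∘ V) = V ∘ (![0, 5, 4, 3, 2, 1] : Fin 6 → Fin 6) := funext h2
  rw [h4]
  exact h3.range_comp V

theorem iso_form (g : ℂ ≃ᵢ ℂ) : ∃ e a : ℂ, ‖a‖ = 1 ∧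
    ((∀ z, g z = e + a * z) ∨ (∀ z, g z = e + a * conj z)) := by
  obtain ⟨a, ha⟩ := linear_isometry_complex g.toRealLinearIsometryEquiv
  refine ⟨g 0, a, Circle.norm_coe a, ?_⟩
  rcases ha with ha | ha
  · left
    intro z
    have h1 := g.toRealLinearIsometryEquiv_apply z
    rw [ha, rotation_apply] at h1
    rw [h1]; ring
  · right
    intro z
    have h1 := g.toRealLinearIsometryEquiv_apply z
    rw [ha, LinearIsometryEquiv.trans_apply, rotation_apply] at h1
    have h2 : Complex.conjLIE z = conj z := rfl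
    rw [h2] at h1
    rw [h1]; ring

theorem cong_form (hZ : S_Z) (k : Fin 10) (P : ℤ × ℤ) (C : Set ℂ) (h : Cong (tile k P) C) :
    ∃ e b : ℂ, ‖b‖ = 1 ∧ C = (fun z => e + b * z) '' K := by
  obtain ⟨g, hg⟩ := h
  obtain ⟨e, a, ha, hga | hga⟩ := iso_form g
  · refine ⟨e + a * cen P, a * ze ^ (k : ℕ), ?_, ?_⟩
    · rw [norm_mul, ha, norm_ze_pow hZ, one_mul]
    · rw [← hg]
      unfold tile
      rw [Set.image_image]
      apply Set.image_congr
      intro z _
      rw [hga]; ring
  · refine ⟨e + a * conj (cen P), a * conj (ze ^ (k : ℕ)) * ze⁻¹, ?_, ?_⟩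
    · rw [norm_mul, norm_mul, ha, RCLike.norm_conj, norm_ze_pow hZ, norm_inv, hZ.2.2.2.2.1]
      norm_num
    · rw [← hg]
      unfold tile
      rw [Set.image_image]
      conv_rhs => rw [← K_mirror hZ, Set.image_image]
      apply Set.image_congr
      intro z _
      have hze : ze ≠ 0 := by
        intro h0
        have := hZ.2.2.2.2.1
        rw [h0, norm_zero] at this
        norm_num at this
      rw [hga, map_add, map_mul]
      field_simp
      ring

/-- the copy of `K` with parameters `e, b` -/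
noncomputable def cp (p : ℂ × ℂ) : Set ℂ := (fun z => p.1 + p.2 * z) '' K

theorem cp_compact (hB : S_BODY) (p : ℂ × ℂ) : IsCompact (cp p) := by
  apply hB.1.1.image
  fun_prop

theorem K_ne : (0 : ℂ) ∈ K := by
  have h1 : V 0 ∈ K := subset_convexHull ℝ _ (Set.mem_range_self 0)
  have h2 : V 0 = 0 := by
    change pt 0 0 = 0
    unfold pt; simp
  rwa [h2] at h1

theorem cp_ne (p : ℂ × ℂ) : (cp p).Nonempty := ⟨_, 0, K_ne, rfl⟩

theorem fin_cp (hB : S_BODY) (p q : ℂ × ℂ) : hausdorffEDist (cp p) (cp q) ≠ ⊤ :=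
  hausdorffEDist_ne_top_of_nonempty_of_bounded (cp_ne p) (cp_ne q)
    (cp_compact hB p).isBounded (cp_compact hB q).isBounded

theorem hd_le (R : ℝ) (hR0 : 0 ≤ R) (hR : ∀ z ∈ K, ‖z‖ ≤ R) (p q : ℂ × ℂ) :
    hausdorffDist (cp p) (cp q) ≤ (1 + R) * dist p q := by
  have key : ∀ p q : ℂ × ℂ, ∀ z ∈ K, dist (p.1 + p.2 * z) (q.1 + q.2 * z) ≤
      (1 + R) * dist p q := by
    intro p q z hz
    rw [dist_eq_norm]
    have e1 : p.1 + p.2 * z - (q.1 + q.2 * z) = (p.1 - q.1) + (p.2 - q.2) * z := by ring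
    rw [e1]
    have h1 : ‖p.1 - q.1‖ ≤ dist p q := by
      rw [← dist_eq_norm, Prod.dist_eq]; exact le_max_left _ _
    have h2 : ‖p.2 - q.2‖ ≤ dist p q := by
      rw [← dist_eq_norm, Prod.dist_eq]; exact le_max_right _ _
    have h3 := hR z hz
    calc ‖(p.1 - q.1) + (p.2 - q.2) * z‖ ≤ ‖p.1 - q.1‖ + ‖p.2 - q.2‖ * ‖z‖ := by
          refine (norm_add_le _ _).trans ?_
          rw [norm_mul]
      _ ≤ dist p q + dist p q * R := by
          apply add_le_add h1
          exact mul_le_mul h2 h3 (norm_nonneg _) dist_nonneg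
      _ = (1 + R) * dist p q := by ring
  apply hausdorffDist_le_of_mem_dist (by positivity)
  · rintro x ⟨z, hz, rfl⟩
    exact ⟨q.1 + q.2 * z, ⟨z, hz, rfl⟩, key p q z hz⟩
  · rintro x ⟨z, hz, rfl⟩
    refine ⟨p.1 + p.2 * z, ⟨z, hz, rfl⟩, ?_⟩
    rw [dist_comm p q]
    exact key q p z hz

theorem cont_hd (hB : S_BODY) (p0 : ℂ × ℂ) :
    Continuous fun p : ℂ × ℂ => hausdorffDist (cp p0) (cp p) := by
  obtain ⟨R, hR⟩ := hB.1.1.isBounded.exists_norm_le
  have hR0 : 0 ≤ R := (norm_nonneg _).trans (hR 0 K_ne)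
  have hL : LipschitzWith (Real.toNNReal (1 + R))
      fun p : ℂ × ℂ => hausdorffDist (cp p0) (cp p) := by
    apply LipschitzWith.of_dist_le_mul
    intro p q
    rw [Real.coe_toNNReal _ (by linarith), Real.dist_eq, abs_le]
    have h1 := hausdorffDist_triangle (u := cp q) (fin_cp hB p0 p)
    have h2 := hausdorffDist_triangle (u := cp p) (fin_cp hB p0 q)
    have h3 := hd_le R hR0 hR p q
    have h4 := hd_le R hR0 hR q p
    rw [dist_comm q p] at h4
    constructor <;> linarith
  exact hL.continuous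

end PARaux

open PARaux

theorem t_PAR (hI : S_INJ) (hZ : S_Z) (hB : S_BODY) : S_PAR := by
  intro k P ε hε
  set p0 : ℂ × ℂ := (cen P, ze ^ (k : ℕ)) with hp0
  have htile : tile k P = cp p0 := rfl
  -- continuity of the argument at one
  have harg : ∃ ε' : ℝ, 0 < ε' ∧ ∀ w : ℂ, ‖w - 1‖ < ε' → |Complex.arg w| < ε := by
    have h1 : ContinuousAt Complex.arg 1 := Complex.continuousAt_arg (by simp)
    rw [Metric.continuousAt_iff] at h1
    obtain ⟨ε', hε', h2⟩ := h1 ε hε
    refine ⟨ε', hε', fun w hw => ?_⟩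
    have h3 := h2 (x := w) (by rw [dist_eq_norm]; exact hw)
    rwa [Complex.arg_one, Real.dist_eq, sub_zero] at h3
  obtain ⟨ε', hε', harg⟩ := harg
  set η : ℝ := min ε ε' with hη
  have hη0 : 0 < η := lt_min hε hε'
  obtain ⟨R, hR⟩ := (cp_compact hB p0).isBounded.exists_norm_le
  -- the compact set of bad parameters
  set S : Set (ℂ × ℂ) := (Metric.closedBall 0 (R + 1) ×ˢ Metric.sphere 0 1) \
    Metric.ball p0 η with hS
  have hScomp : IsCompact S :=
    ((isCompact_closedBall _ _).prod (isCompact_sphere _ _)).diff Metric.isOpen_ball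
  have hcont := cont_hd hB p0
  have hpos : ∀ p ∈ S, 0 < hausdorffDist (cp p0) (cp p) := by
    intro p hp
    rcases (hausdorffDist_nonneg (s := cp p0) (t := cp p)).lt_or_eq with h | h
    · exact h
    · exfalso
      have h1 := ((cp_compact hB p0).isClosed.hausdorffDist_zero_iff_eq
        (cp_compact hB p).isClosed (fin_cp hB p0 p)).mp h.symm
      have hnp : ‖p.2‖ = 1 := by
        have := hp.1.2
        simpa using this
      have hze : ze ^ (k : ℕ) ≠ 0 := by
        intro h0
        have := norm_ze_pow hZ k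
        rw [h0, norm_zero] at this
        norm_num at this
      have h2 := hI ((p.1 - cen P) / ze ^ (k : ℕ)) (p.2 / ze ^ (k : ℕ))
        (by rw [norm_div, hnp, norm_ze_pow hZ, div_one]) (by
          have h3 : (fun z => (z - cen P) / ze ^ (k : ℕ)) '' (cp p0) = K := by
            unfold cp
            rw [Set.image_image]
            conv_rhs => rw [← Set.image_id K]
            apply Set.image_congr
            intro z _
            simp only [hp0, id]
            field_simp
            ring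
          have h4 : (fun z => (z - cen P) / ze ^ (k : ℕ)) '' (cp p) =
              (fun z => (p.1 - cen P) / ze ^ (k : ℕ) + p.2 / ze ^ (k : ℕ) * z) '' K := by
            unfold cp
            rw [Set.image_image]
            apply Set.image_congr
            intro z _
            field_simp
            ring
          rw [← h4, ← h1, h3])
      apply hp.2
      have h5 : p = p0 := by
        apply Prod.ext
        · have := h2.1
          rw [div_eq_zero_iff] at this
          rcases this with h6 | h6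
          · exact sub_eq_zero.mp h6
          · exact absurd h6 hze
        · have := h2.2
          rw [div_eq_one_iff_eq hze] at this
          exact this
      rw [h5]
      exact Metric.mem_ball_self hη0
  have hδ : ∃ δ : ℝ, 0 < δ ∧ ∀ p ∈ S, δ ≤ hausdorffDist (cp p0) (cp p) := by
    rcases S.eq_empty_or_nonempty with h | h
    · exact ⟨1, one_pos, fun p hp => by rw [h] at hp; exact absurd hp (Set.notMem_empty p)⟩
    · obtain ⟨q, hq, hmin⟩ := hScomp.exists_isMinOn h hcont.continuousOn
      exact ⟨_, hpos q hq, fun p hp => hmin hp⟩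
  obtain ⟨δ, hδ0, hδ1⟩ := hδ
  refine ⟨min δ 1, lt_min hδ0 one_pos, ?_⟩
  intro C hC hd
  obtain ⟨e, b, hb, rfl⟩ := cong_form hZ k P C hC
  set p : ℂ × ℂ := (e, b) with hp
  have hCp : (fun z => e + b * z) '' K = cp p := rfl
  rw [hCp, htile] at hd
  rw [hCp]
  have hpb : p ∈ (Metric.closedBall (0 : ℂ) (R + 1) ×ˢ Metric.sphere (0 : ℂ) 1) := by
    constructor
    · have he : e ∈ cp p := ⟨0, K_ne, by simp [hp]⟩
      have h1 : infDist e (cp p0) ≤ hausdorffDist (cp p) (cp p0) :=
        infDist_le_hausdorffDist_of_mem he (fin_cp hB p p0)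
      rw [hausdorffDist_comm] at h1
      have h2 : infDist e (cp p0) < 1 := lt_of_le_of_lt h1 (hd.trans_le (min_le_right _ _))
      obtain ⟨y, hy, hy2⟩ := (infDist_lt_iff (cp_ne p0)).mp h2
      have h3 := hR y hy
      rw [mem_closedBall_zero_iff]
      show ‖e‖ ≤ R + 1
      rw [dist_eq_norm] at hy2
      calc ‖e‖ = ‖y + (e - y)‖ := by congr 1; ring
        _ ≤ ‖y‖ + ‖e - y‖ := norm_add_le _ _
        _ ≤ R + 1 := by linarith
    · rw [mem_sphere_zero_iff_norm]
      exact hb
  have hnear : p ∈ Metric.ball p0 η := by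
    by_contra hcon
    have := hδ1 p ⟨hpb, hcon⟩
    have h1 := hd.trans_le (min_le_left _ _)
    linarith
  rw [Metric.mem_ball, Prod.dist_eq, max_lt_iff] at hnear
  obtain ⟨hn1, hn2⟩ := hnear
  have hze : ze ^ (k : ℕ) ≠ 0 := by
    intro h0
    have := norm_ze_pow hZ k
    rw [h0, norm_zero] at this
    norm_num at this
  set w : ℂ := b / ze ^ (k : ℕ) with hw
  have hw1 : ‖w‖ = 1 := by rw [hw, norm_div, hb, norm_ze_pow hZ, div_one]
  have hw2 : ‖w - 1‖ < ε' := by
    have h1 : w - 1 = (b - ze ^ (k : ℕ)) / ze ^ (k : ℕ) := by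
      rw [hw]; field_simp
    rw [h1, norm_div, norm_ze_pow hZ, div_one]
    have h2 : dist p.2 p0.2 = ‖b - ze ^ (k : ℕ)‖ := by rw [dist_eq_norm]
    rw [h2] at hn2
    exact hn2.trans_le (min_le_right _ _)
  have hexp : Complex.exp (Complex.I * ((Complex.arg w : ℝ) : ℂ)) = w := by
    have h1 := Complex.norm_mul_exp_arg_mul_I w
    rw [hw1] at h1
    rw [mul_comm]
    simpa using h1
  refine ⟨(e - cen P, Complex.arg w), ?_, ?_⟩
  · rw [Prod.norm_def, max_lt_iff]
    constructor
    · have h2 : dist p.1 p0.1 = ‖e - cen P‖ := by rw [dist_eq_norm]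
      rw [h2] at hn1
      exact hn1.trans_le (min_le_left _ _)
    · rw [Real.norm_eq_abs]
      exact harg w hw2
  · rw [htile]
    unfold cp
    rw [Set.image_image]
    apply Set.image_congr
    intro z _
    unfold mot
    simp only [hp, hp0]
    rw [hexp, hw]
    field_simp
    ring

end Pool.Agent.H113R4.EN
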