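import Mathlib
import Pool.Agent.H113R4.EN.Stubs

/-! # Coordinates (S_PT) -/

namespace Pool.Agent.H113R4.EN

namespace PTaux

theorem pt_re (a b : ℝ) : (pt a b).re = a + b * ze.re := by
  simp [pt]

theorem pt_im (a b : ℝ) : (pt a b).im = b * ze.im := by
  simp [pt]

end PTaux

open PTaux in
theorem t_PT (_hF : S_F) (hZ : S_Z) : S_PT := by
  obtain ⟨hz2, -, him, hre, hn, -, -, -⟩ := hZ
  have hsq : ze.re ^ 2 + ze.im ^ 2 = 1 := by
    have h1 := Complex.sq_norm ze
    rw [hn, Complex.normSq_apply] at h1
    nlinarith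
  refine ⟨?_, ?_, ?_, ?_, ?_, ?_, ?_, ?_, ?_, ?_⟩
  · intro a b c d
    unfold pt
    push_cast
    ring
  · intro a b c d
    unfold pt
    push_cast
    ring
  · intro s a b
    unfold pt
    push_cast
    ring
  · intro a b
    unfold pt
    push_cast
    linear_combination (b : ℂ) * hz2
  · intro a b c d
    unfold crs
    rw [pt_re, pt_re, pt_im, pt_im]
    ring
  · intro z
    refine ⟨z.re - z.im / ze.im * ze.re, z.im / ze.im, ?_⟩
    apply Complex.ext
    · rw [pt_re]; ring
    · rw [pt_im]; field_simp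
  · intro a b c d h
    have h1 := congrArg Complex.im h
    have h2 := congrArg Complex.re h
    rw [pt_im, pt_im] at h1
    rw [pt_re, pt_re] at h2
    have h3 : b = d := mul_right_cancel₀ (ne_of_gt him) h1
    subst h3
    exact ⟨by linarith, rfl⟩
  · intro a b
    rw [Complex.sq_norm, Complex.normSq_apply, pt_re, pt_im]
    rw [hre] at hsq ⊢
    linear_combination b ^ 2 * hsq
  · intro P
    unfold cen uu vv lat pt
    push_cast
    ring
  · intro P Q
    unfold cen
    rw [Prod.fst_add, Prod.snd_add]
    push_cast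
    ring

end Pool.Agent.H113R4.EN
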