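import Mathlib
import Pool.Agent.H113R4.EN.Stubs

/-!
# EN, task SAME: different sectors of the same star do not overlap
-/

namespace Pool.Agent.H113R4.EN

namespace SAMEaux

lemma Vco (hF : S_F) : ∀ i : Fin 6, ∃ a b : ℝ, 0 ≤ a ∧ 0 ≤ b ∧ V i = pt a b := by
  obtain ⟨-, h1, h2⟩ := hF
  intro i
  fin_cases i
  · exact ⟨0, 0, le_refl _, le_refl _, rfl⟩
  · exact ⟨44 * f - 55, 0, by linarith, le_refl _, rfl⟩
  · exact ⟨77 - 33 * f, 44 - 22 * f, by linarith, by linarith, rfl⟩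
  · exact ⟨22, 22, by norm_num, by norm_num, rfl⟩
  · exact ⟨44 - 22 * f, 77 - 33 * f, by linarith, by linarith, rfl⟩
  · exact ⟨0, 44 * f - 55, le_refl _, by linarith, rfl⟩

lemma ze10 (hZ : S_Z) : ze ^ 10 = 1 := by
  have h := hZ.2.1
  calc ze ^ 10 = ze ^ 5 * ze ^ 5 := by ring
    _ = 1 := by rw [h]; ring

/-- sign of `crs 1 (ζ^n)` for `n ≤ 5` -/
lemma c1 (hF : S_F) (hZ : S_Z) (hPT : S_PT) (n : ℕ) (hn : n ≤ 5) : 0 ≤ crs 1 (ze ^ n) := by
  obtain ⟨-, h1, -⟩ := hF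
  obtain ⟨-, -, hi, -, -, -, -, hr⟩ := hZ
  obtain ⟨-, -, -, -, hc, -⟩ := hPT
  have e1 : (1 : ℂ) = pt 1 0 := by unfold pt; simp
  have h := hr ⟨n, by omega⟩
  simp only at h
  rw [h, e1, hc]
  have h3 : 0 ≤ (rho ⟨n, by omega⟩).2 := by
    interval_cases n <;> simp [rho] <;> linarith
  nlinarith [mul_nonneg hi.le h3]

/-- sign of `crs 1 (ζ^n)` for `5 ≤ n ≤ 10` -/
lemma c2 (hF : S_F) (hZ : S_Z) (hPT : S_PT) (n : ℕ) (hn : 5 ≤ n) (hn' : n ≤ 10) :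
    crs 1 (ze ^ n) ≤ 0 := by
  have h5 := hZ.2.1
  have h1 := c1 hF hZ hPT (n - 5) (by omega)
  have e : ze ^ n = -ze ^ (n - 5) := by
    calc ze ^ n = ze ^ (5 + (n - 5)) := by rw [Nat.add_sub_cancel' hn]
      _ = -ze ^ (n - 5) := by rw [pow_add, h5, neg_one_mul]
  rw [e]
  unfold crs at *
  simp only [Complex.neg_im, Complex.neg_re]
  linarith

lemma rot (hZ : S_Z) (hC : S_CRS) (m : ℕ) (w : ℂ) : crs (ze ^ m) (ze ^ m * w) = crs 1 w := by
  have hn : ‖ze ^ m‖ = 1 := by rw [norm_pow, hZ.2.2.2.2.1, one_pow]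
  have := hC.2.2.2.2.2.2 1 w (ze ^ m) hn
  rwa [mul_one] at this

lemma dec (hC : S_CRS) (m k : ℕ) (a b : ℝ) :
    crs (ze ^ m) (ze ^ k * pt a b) = a * crs (ze ^ m) (ze ^ k) + b * crs (ze ^ m) (ze ^ (k + 1)) := by
  obtain ⟨h1, -, h3, -⟩ := hC
  have e : ze ^ k * pt a b = (a : ℂ) * ze ^ k + (b : ℂ) * ze ^ (k + 1) := by
    unfold pt
    rw [pow_succ]
    ring
  rw [e, h1, h3, h3]

lemma A (hF : S_F) (hZ : S_Z) (hPT : S_PT) (hC : S_CRS) (m k : ℕ) (h1 : m ≤ k) (h2 : k ≤ m + 4)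
    (i : Fin 6) : 0 ≤ crs (ze ^ m) (ze ^ k * V i) := by
  obtain ⟨a, b, ha, hb, hV⟩ := Vco hF i
  rw [hV, dec hC]
  have e1 : ze ^ k = ze ^ m * ze ^ (k - m) := by rw [← pow_add, Nat.add_sub_cancel' h1]
  have e2 : ze ^ (k + 1) = ze ^ m * ze ^ (k + 1 - m) := by
    rw [← pow_add, Nat.add_sub_cancel' (by omega)]
  rw [e1, e2, rot hZ hC, rot hZ hC]
  have := c1 hF hZ hPT (k - m) (by omega)
  have := c1 hF hZ hPT (k + 1 - m) (by omega)
  positivity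

lemma B (hF : S_F) (hZ : S_Z) (hPT : S_PT) (hC : S_CRS) (m k : ℕ) (h1 : m + 5 ≤ k) (h2 : k ≤ m + 9)
    (i : Fin 6) : crs (ze ^ m) (ze ^ k * V i) ≤ 0 := by
  obtain ⟨a, b, ha, hb, hV⟩ := Vco hF i
  rw [hV, dec hC]
  have e1 : ze ^ k = ze ^ m * ze ^ (k - m) := by
    rw [← pow_add, Nat.add_sub_cancel' (by omega)]
  have e2 : ze ^ (k + 1) = ze ^ m * ze ^ (k + 1 - m) := by
    rw [← pow_add, Nat.add_sub_cancel' (by omega)]
  rw [e1, e2, rot hZ hC, rot hZ hC]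
  have t1 := c2 hF hZ hPT (k - m) (by omega) (by omega)
  have t2 := c2 hF hZ hPT (k + 1 - m) (by omega) (by omega)
  nlinarith [mul_nonneg ha (neg_nonneg.2 t1), mul_nonneg hb (neg_nonneg.2 t2)]

lemma crs_neg (z w : ℂ) : crs (-z) w = -crs z w := by
  unfold crs
  simp only [Complex.neg_im, Complex.neg_re]
  ring

/-- the main step: `ζ^l = ζ^l'` is on the left and `ζ^k = ζ^k'` on the right of `ζ^m` -/
lemma main (hSEP : S_SEP) (hHULL : S_HULL) (hF : S_F) (hZ : S_Z) (hPT : S_PT) (hC : S_CRS)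
    (k l : Fin 10) (P : ℤ × ℤ) (m k' l' : ℕ) (ek : ze ^ (k : ℕ) = ze ^ k') (el : ze ^ (l : ℕ) = ze ^ l')
    (h1 : m ≤ l') (h2 : l' ≤ m + 4) (h3 : m + 5 ≤ k') (h4 : k' ≤ m + 9) :
    Disjoint (interior (tile k P)) (interior (tile l P)) := by
  have hne : ze ^ m ≠ 0 := by
    intro h
    have hn : ‖ze ^ m‖ = 1 := by rw [norm_pow, hZ.2.2.2.2.1, one_pow]
    rw [h, norm_zero] at hn
    exact zero_ne_one hn
  apply Disjoint.symm
  refine hSEP (tile l P) (tile k P) (ze ^ m) (cen P) hne ?_ ?_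
  · refine hHULL l P _ _ fun i => ?_
    rw [add_sub_cancel_left, el]
    exact A hF hZ hPT hC m l' h1 h2 i
  · intro z hz
    have := hHULL k P (-ze ^ m) (cen P) (fun i => by
      rw [add_sub_cancel_left, ek, crs_neg, neg_nonneg]
      exact B hF hZ hPT hC m k' h3 h4 i) z hz
    rwa [crs_neg, neg_nonneg] at this

lemma lt_case (hSEP : S_SEP) (hHULL : S_HULL) (hF : S_F) (hZ : S_Z) (hPT : S_PT) (hC : S_CRS)
    (k l : Fin 10) (P : ℤ × ℤ) (h : (l : ℕ) < k) :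
    Disjoint (interior (tile k P)) (interior (tile l P)) := by
  have hk := k.2
  by_cases hd : (k : ℕ) ≤ l + 5
  · refine main hSEP hHULL hF hZ hPT hC k l P (l + 6) (k + 10) (l + 10) ?_ ?_ (by omega) (by omega)
      (by omega) (by omega)
    · rw [pow_add, ze10 hZ, mul_one]
    · rw [pow_add, ze10 hZ, mul_one]
  · exact main hSEP hHULL hF hZ hPT hC k l P l k l rfl rfl (by omega) (by omega)
      (by omega) (by omega)

end SAMEaux

theorem t_SAME (hSEP : S_SEP) (hHULL : S_HULL) (hF : S_F) (hZ : S_Z) (hPT : S_PT) (hCRS : S_CRS) :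
    S_SAME := by
  intro k l P hkl
  rcases lt_trichotomy (l : ℕ) (k : ℕ) with h | h | h
  · exact SAMEaux.lt_case hSEP hHULL hF hZ hPT hCRS k l P h
  · exact absurd (Fin.ext h).symm hkl
  · exact (SAMEaux.lt_case hSEP hHULL hF hZ hPT hCRS l k P h).symm

end Pool.Agent.H113R4.EN
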