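import Mathlib
import Pool.Agent.H113R4.EN.Stubs

/-!
# EN, task SEP: separation implies disjoint interiors
-/

namespace Pool.Agent.H113R4.EN

namespace SEPaux

lemma crs_small (e z q : ℂ) (s : ℝ) (h : crs e (z - q) = 0) :
    crs e (z + (s : ℂ) * (Complex.I * e) - q) = s * Complex.normSq e := by
  have h1 : crs e (z + (s : ℂ) * (Complex.I * e) - q) = crs e (z - q) + s * Complex.normSq e := by
    unfold crs
    rw [Complex.normSq_apply]
    simp only [Complex.sub_re, Complex.sub_im, Complex.add_re, Complex.add_im, Complex.mul_re,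
      Complex.mul_im, Complex.ofReal_re, Complex.ofReal_im, Complex.I_re, Complex.I_im]
    ring
  rw [h1, h, zero_add]

end SEPaux

theorem t_SEP : S_SEP := by
  intro A B e q he hA hB
  rw [Set.disjoint_left]
  intro z hzA hzB
  have h0 : crs e (z - q) = 0 :=
    le_antisymm (hB z (interior_subset hzB)) (hA z (interior_subset hzA))
  have hA' : A ∈ nhds z := mem_interior_iff_mem_nhds.1 hzA
  have hc : Filter.Tendsto (fun s : ℝ => z + (s : ℂ) * (Complex.I * e)) (nhds 0) (nhds z) := by
    have : Continuous (fun s : ℝ => z + (s : ℂ) * (Complex.I * e)) := by fun_prop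
    have h1 := this.tendsto 0
    simpa using h1
  have h1 : ∀ᶠ s : ℝ in nhds 0, z + (s : ℂ) * (Complex.I * e) ∈ A := hc hA'
  obtain ⟨ε, hε, h2⟩ := Metric.eventually_nhds_iff.1 h1
  have h3 : z + ((-(ε / 2) : ℝ) : ℂ) * (Complex.I * e) ∈ A := by
    apply h2
    rw [Real.dist_eq, sub_zero, abs_neg, abs_of_pos (by linarith)]
    linarith
  have h4 := hA _ h3
  rw [SEPaux.crs_small e z q _ h0] at h4
  have h5 : 0 < Complex.normSq e := Complex.normSq_pos.2 he
  nlinarith

end Pool.Agent.H113R4.EN
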