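import Mathlib
import Pool.Agent.H113R4.EN.Stubs

namespace Pool.Agent.H113R4.EN

namespace STARaux

/-- two nonnegative numbers with nonpositive sum vanish -/
lemma two {x y : ℝ} (hx : 0 ≤ x) (hy : 0 ≤ y) (h : x + y ≤ 0) : x = 0 ∧ y = 0 :=
  ⟨by linarith, by linarith⟩

lemma mz {g x : ℝ} (hg : 0 < g) (h : g * x = 0) : x = 0 :=
  (mul_eq_zero.1 h).resolve_left hg.ne'

/-- the tail: the indices `7, 8, 9` have one sign and `6` the same one -/
lemma J1 {g a b c d e : ℝ} (hg0 : 0 < g) (e1 : a = c + g * d + g * e)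
    (e2 : b = -(g * c) - g * d - e) (hb : 0 ≤ b) (hc : 0 ≤ c) (hd : 0 ≤ d) (he : 0 ≤ e) :
    a = 0 ∧ b = 0 ∧ c = 0 ∧ d = 0 ∧ e = 0 := by
  have h1 := mul_nonneg hg0.le hc
  have h2 := mul_nonneg hg0.le hd
  have hc' : c = 0 := mz hg0 (by linarith)
  have hd' : d = 0 := mz hg0 (by linarith)
  have he' : e = 0 := by linarith
  subst hc' hd' he'
  refine ⟨?_, ?_, rfl, rfl, rfl⟩
  · rw [e1]; ring
  · rw [e2]; ring

lemma J2 {g a b c d e : ℝ} (hg0 : 0 < g) (e1 : a = c + g * d + g * e)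
    (e2 : b = -(g * c) - g * d - e) (hb : b ≤ 0) (hc : c ≤ 0) (hd : d ≤ 0) (he : e ≤ 0) :
    a = 0 ∧ b = 0 ∧ c = 0 ∧ d = 0 ∧ e = 0 := by
  have h := J1 (a := -a) (b := -b) (c := -c) (d := -d) (e := -e) hg0 (by rw [e1]; ring)
    (by rw [e2]; ring) (by linarith) (by linarith) (by linarith) (by linarith)
  obtain ⟨h1, h2, h3, h4, h5⟩ := h
  exact ⟨by linarith, by linarith, by linarith, by linarith, by linarith⟩

lemma J3 {g a b c d e : ℝ} (hg0 : 0 < g) (e1 : a = c + g * d + g * e)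
    (e2 : b = -(g * c) - g * d - e) (ha : a ≤ 0) (hc : 0 ≤ c) (hd : 0 ≤ d)
    (he : 0 ≤ e) : a = 0 ∧ b = 0 ∧ c = 0 ∧ d = 0 ∧ e = 0 := by
  have h1 := mul_nonneg hg0.le hd
  have h2 := mul_nonneg hg0.le he
  have hd' : d = 0 := mz hg0 (by linarith)
  have he' : e = 0 := mz hg0 (by linarith)
  have hc' : c = 0 := by linarith
  subst hc' hd' he'
  refine ⟨?_, ?_, rfl, rfl, rfl⟩
  · rw [e1]; ring
  · rw [e2]; ring

lemma J4 {g a b c d e : ℝ} (hg : g ^ 2 = g + 1) (hg0 : 0 < g) (e1 : a = c + g * d + g * e)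
    (e2 : b = -(g * c) - g * d - e) (ha : a ≤ 0) (hb : b ≤ 0) (hd : 0 ≤ d)
    (he : 0 ≤ e) : a = 0 ∧ b = 0 ∧ c = 0 ∧ d = 0 ∧ e = 0 := by
  have h0 : g * a + b = d + g * e := by
    rw [e1, e2]
    linear_combination (d + e) * hg
  have h1 := mul_nonneg hg0.le he
  have h2 : g * a ≤ 0 := mul_nonpos_of_nonneg_of_nonpos hg0.le ha
  have hd' : d = 0 := by linarith
  have he' : e = 0 := mz hg0 (by linarith)
  have ha' : a = 0 := mz hg0 (by linarith)
  have hb' : b = 0 := by linarith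
  subst hd' he'
  have hc' : c = 0 := by linarith
  exact ⟨ha', hb', hc', rfl, rfl⟩

lemma J5 {g a b c d e : ℝ} (hg1 : 1 < g) (e1 : a = c + g * d + g * e)
    (e2 : b = -(g * c) - g * d - e) (ha : a ≤ 0) (hb : b ≤ 0) (hc : c ≤ 0)
    (he : 0 ≤ e) : a = 0 ∧ b = 0 ∧ c = 0 ∧ d = 0 ∧ e = 0 := by
  have h0 : a + b + (g - 1) * c = (g - 1) * e := by
    rw [e1, e2]; ring
  have hg' : 0 < g - 1 := by linarith
  have h1 := mul_nonneg hg'.le he
  have h2 : (g - 1) * c ≤ 0 := mul_nonpos_of_nonneg_of_nonpos hg'.le hc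
  have ha' : a = 0 := by linarith
  have hb' : b = 0 := by linarith
  have hc' : c = 0 := mz hg' (by linarith)
  have he' : e = 0 := mz hg' (by linarith)
  subst hc' he'
  have hd' : d = 0 := mz (g := g) (by linarith) (by linarith)
  exact ⟨ha', hb', rfl, hd', rfl⟩

theorem key {g a b c d e : ℝ} (hg : g ^ 2 = g + 1) (hg1 : 1 < g)
    (e1 : a = c + g * d + g * e) (e2 : b = -(g * c) - g * d - e)
    (h46 : 0 < a → b < 0 → False)
    (h47 : 0 < a → b = 0 → c < 0 → False)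
    (h48 : 0 < a → b = 0 → c = 0 → d < 0 → False)
    (h57 : 0 < b → c < 0 → False)
    (h58 : 0 < b → c = 0 → d < 0 → False)
    (h59 : 0 < b → c = 0 → d = 0 → e < 0 → False)
    (h68 : 0 < c → d < 0 → False)
    (h69 : 0 < c → d = 0 → e < 0 → False)
    (h79 : 0 < d → e < 0 → False) :
    a = 0 ∧ b = 0 ∧ c = 0 ∧ d = 0 ∧ e = 0 := by
  have hg0 : 0 < g := by linarith
  rcases lt_trichotomy b 0 with hb | hb | hb
  · -- `b < 0`, so `a ≤ 0`
    have ha : a ≤ 0 := not_lt.1 fun h => h46 h hb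
    rcases lt_trichotomy c 0 with hc | hc | hc
    · rcases lt_or_ge e 0 with he | he
      · have hd : d ≤ 0 := not_lt.1 fun h => h79 h he
        exact J2 hg0 e1 e2 hb.le hc.le hd he.le
      · exact J5 hg1 e1 e2 ha hb.le hc.le he
    · rcases lt_or_ge e 0 with he | he
      · have hd : d ≤ 0 := not_lt.1 fun h => h79 h he
        exact J2 hg0 e1 e2 hb.le hc.le hd he.le
      · exact J5 hg1 e1 e2 ha hb.le hc.le he
    · have hd : 0 ≤ d := not_lt.1 fun h => h68 hc h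
      have he : 0 ≤ e := by
        refine not_lt.1 fun h => ?_
        rcases hd.lt_or_eq with hd | hd
        · exact h79 hd h
        · exact h69 hc hd.symm h
      exact J3 hg0 e1 e2 ha hc.le hd he
  · rcases lt_trichotomy c 0 with hc | hc | hc
    · have ha : a ≤ 0 := not_lt.1 fun h => h47 h hb hc
      rcases lt_or_ge e 0 with he | he
      · have hd : d ≤ 0 := not_lt.1 fun h => h79 h he
        exact J2 hg0 e1 e2 hb.le hc.le hd he.le
      · exact J5 hg1 e1 e2 ha hb.le hc.le he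
    · rcases lt_trichotomy d 0 with hd | hd | hd
      · have ha : a ≤ 0 := not_lt.1 fun h => h48 h hb hc hd
        rcases lt_or_ge e 0 with he | he
        · exact J2 hg0 e1 e2 hb.le hc.le hd.le he.le
        · exact J5 hg1 e1 e2 ha hb.le hc.le he
      · subst hb hc hd
        have he : e = 0 := by linarith
        subst he
        exact ⟨by rw [e1]; ring, rfl, rfl, rfl, rfl⟩
      · have he : 0 ≤ e := not_lt.1 fun h => h79 hd h
        exact J1 hg0 e1 e2 hb.ge hc.ge hd.le he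
    · have hd : 0 ≤ d := not_lt.1 fun h => h68 hc h
      have he : 0 ≤ e := by
        refine not_lt.1 fun h => ?_
        rcases hd.lt_or_eq with hd | hd
        · exact h79 hd h
        · exact h69 hc hd.symm h
      exact J1 hg0 e1 e2 hb.ge hc.le hd he
  · have hc : 0 ≤ c := not_lt.1 fun h => h57 hb h
    have hd : 0 ≤ d := by
      refine not_lt.1 fun h => ?_
      rcases hc.lt_or_eq with hc | hc
      · exact h68 hc h
      · exact h58 hb hc.symm h
    have he : 0 ≤ e := by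
      refine not_lt.1 fun h => ?_
      rcases hd.lt_or_eq with hd | hd
      · exact h79 hd h
      · rcases hc.lt_or_eq with hc | hc
        · exact h69 hc hd.symm h
        · exact h59 hb hc.symm hd.symm h
    exact J1 hg0 e1 e2 hb.le hc hd he

end STARaux

open STARaux in
theorem t_STAR (hF : S_F) : S_STAR := by
  intro X P hX hG hw h9 h4
  obtain ⟨hf2, hf1, hf3⟩ := hF
  have hf0 : (1 : ℝ) < f := by linarith
  have hfp : (0 : ℝ) < f := by linarith
  have g5 := hG 5 P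
  have g6 := hG 6 P
  have g7 := hG 7 P
  have g8 := hG 8 P
  have g9 := hG 9 P
  have w5 := hw 5 P
  have w6 := hw 6 P
  have w7 := hw 7 P
  have w8 := hw 8 P
  have i5 : (5 : Fin 10) - 1 = 4 := rfl
  have i6 : (6 : Fin 10) - 1 = 5 := rfl
  have i7 : (7 : Fin 10) - 1 = 6 := rfl
  have i8 : (8 : Fin 10) - 1 = 7 := rfl
  have i9 : (9 : Fin 10) - 1 = 8 := rfl
  have r5 : rho 5 = (-1, 0) := rfl
  have r6 : rho 6 = (0, -1) := rfl
  have r7 : rho 7 = (1, -f) := rfl
  have r8 : rho 8 = (f, -f) := rfl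
  have r9 : rho 9 = (f, -1) := rfl
  have c46 := hX.center P 4 6 (by decide)
  have c47 := hX.center P 4 7 (by decide)
  have c48 := hX.center P 4 8 (by decide)
  have c57 := hX.center P 5 7 (by decide)
  have c58 := hX.center P 5 8 (by decide)
  have c59 := hX.center P 5 9 (by decide)
  have c68 := hX.center P 6 8 (by decide)
  have c69 := hX.center P 6 9 (by decide)
  have c79 := hX.center P 7 9 (by decide)
  have o4 : Fin.ofNat 10 4 = 4 := rfl
  have o41 : Fin.ofNat 10 (4 + 1) = 5 := rfl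
  have o5 : Fin.ofNat 10 5 = 5 := rfl
  have o51 : Fin.ofNat 10 (5 + 1) = 6 := rfl
  have o6 : Fin.ofNat 10 6 = 6 := rfl
  have o61 : Fin.ofNat 10 (6 + 1) = 7 := rfl
  have o7 : Fin.ofNat 10 7 = 7 := rfl
  have o71 : Fin.ofNat 10 (7 + 1) = 8 := rfl
  have o8 : Fin.ofNat 10 8 = 8 := rfl
  have o9 : Fin.ofNat 10 9 = 9 := rfl
  rw [o4, o41, o6] at c46
  rw [o4, o41, o7] at c47
  rw [o4, o41, o8] at c48
  rw [o5, o51, o7] at c57
  rw [o5, o51, o8] at c58
  rw [o5, o51, o9] at c59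
  rw [o6, o61, o8] at c68
  rw [o6, o61, o9] at c69
  rw [o7, o71, o9] at c79
  simp only [G, i5, i6, i7, i8, i9, h4, h9, velc, dt, r5, r6, r7, r8, r9] at g5 g6 g7 g8 g9
  simp only [h4, h9, r5, r6, r7, r8, r9, Prod.fst_zero, Prod.snd_zero]
    at c46 c47 c48 c57 c58 c59 c68 c69 c79
  generalize X 5 P = x5 at *
  generalize X 6 P = x6 at *
  generalize X 7 P = x7 at *
  generalize X 8 P = x8 at *
  obtain ⟨a5, b5, v5⟩ := x5
  obtain ⟨a6, b6, v6⟩ := x6
  obtain ⟨a7, b7, v7⟩ := x7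
  obtain ⟨a8, b8, v8⟩ := x8
  simp only at w5 w6 w7 w8
  subst w5 w6 w7 w8
  simp only [Prod.fst_sub, Prod.snd_sub, Prod.fst_zero, Prod.snd_zero] at g5 g6 g7 g8 g9
  have q5 : b5 = 0 := by linarith
  have q6 : a6 = a5 := by linarith
  have q7 : b7 - b6 = -(f * (a7 - a6)) := by linarith
  have q8 : b8 - b7 = -(a8 - a7) := by
    have : f * ((b8 - b7) + (a8 - a7)) = 0 := by linarith
    have := mz hfp this
    linarith
  have q9 : a8 = -(f * b8) := by linarith
  have T : ∀ (x y α β u1 u2 t1 t2 : ℝ), x = α * u1 - β * t1 → y = α * u2 - β * t2 →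
      (x, y) = α • ((u1, u2) : ℝ × ℝ) - β • ((t1, t2) : ℝ × ℝ) := by
    intro x y α β u1 u2 t1 t2 h1 h2
    ext
    · simp [h1]
    · simp [h2]
  have N : ∀ x : ℝ, x = 0 → f * x = 0 := fun x hx => by rw [hx, mul_zero]
  obtain ⟨s, hs⟩ : ∃ s : ℝ, f * s = a8 - a7 :=
    ⟨(a8 - a7) / f, by field_simp⟩
  obtain ⟨k1, k2, k3, k4, k5⟩ := key (g := f) (a := -a5) (b := -b6) (c := a7 - a6) (d := s)
    (e := b8) hf2 hf0 (by linarith) (by linarith)
    (fun h1 h2 => c46 (-a5) b6 h1 (by linarith) (T _ _ _ _ _ _ _ _ (by linarith) (by linarith)))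
    (fun h1 h2 h3 => c47 (-a5) (-(a7 - a6)) h1 (by linarith)
      (T _ _ _ _ _ _ _ _ (by linarith) (by linarith)))
    (fun h1 h2 h3 h4 => c48 (-a5) (-s) h1 (by linarith)
      (T _ _ _ _ _ _ _ _ (by linarith) (by linarith [N _ h3])))
    (fun h1 h2 => c57 (-b6) (-(a7 - a6)) h1 (by linarith)
      (T _ _ _ _ _ _ _ _ (by linarith) (by linarith)))
    (fun h1 h2 h3 => c58 (-b6) (-s) h1 (by linarith)
      (T _ _ _ _ _ _ _ _ (by linarith) (by linarith [N _ h2])))
    (fun h1 h2 h3 h4 => c59 (-b6) (-b8) h1 (by linarith)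
      (T _ _ _ _ _ _ _ _ (by linarith [N _ h2, N _ h3]) (by linarith [N _ h2, N _ h3])))
    (fun h1 h2 => c68 (a7 - a6) (-s) h1 (by linarith)
      (T _ _ _ _ _ _ _ _ (by linarith) (by linarith)))
    (fun h1 h2 h3 => c69 (a7 - a6) (-b8) h1 (by linarith)
      (T _ _ _ _ _ _ _ _ (by linarith [N _ h2]) (by linarith [N _ h2])))
    (fun h1 h2 => c79 s (-b8) h1 (by linarith)
      (T _ _ _ _ _ _ _ _ (by linarith) (by linarith)))
  have z8 : f * s = 0 := by rw [k4]; ring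
  have za5 : a5 = 0 := by linarith
  have zb6 : b6 = 0 := by linarith
  have zb8 : b8 = 0 := k5
  have za8 : a8 = 0 := by rw [q9, zb8]; ring
  have za7 : a7 = 0 := by linarith
  have za6 : a6 = 0 := by linarith
  have zb7 : b7 = 0 := by linarith
  subst za5 q5 za6 zb6 za7 zb7 za8 zb8
  exact ⟨rfl, rfl, rfl, rfl⟩

end Pool.Agent.H113R4.EN
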