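import Mathlib
import Pool.Agent.H113R4.EN.Stubs

namespace Pool.Agent.H113R4.EN

namespace STRaux

open Function

/-- vertex part of the outer gap -/
noncomputable def A (c : Fin 12) (x : Fin 10 → ℝ × ℝ × ℝ) : ℝ :=
  -dt (e1 c, e2 c) (velc (x (kA c)) ((p1 c, p2 c) - lat (dA c)))

/-- edge part of the outer gap -/
noncomputable def B (c : Fin 12) (x : Fin 10 → ℝ × ℝ × ℝ) : ℝ :=
  dt (e1 c, e2 c) (velc (x (kB c)) ((p1 c, p2 c) - lat (dB c)))

/-- inner part -/
noncomputable def I (x : Fin 10 → ℝ × ℝ × ℝ) : ℝ :=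
  ∑ k, (wg k * G (fun k _ => x k) k (0, 0) + wh k * H (fun k _ => x k) k (0, 0))

lemma O_eq (X : Fin 10 → ℤ × ℤ → ℝ × ℝ × ℝ) (c : Fin 12) (P : ℤ × ℤ) :
    O X c P = A c (fun j => X j (P + dA c)) + B c (fun j => X j (P + dB c)) := by
  simp only [O, A, B, dt, Prod.fst_sub, Prod.snd_sub]
  ring

lemma O_eq' (x : Fin 10 → ℝ × ℝ × ℝ) (c : Fin 12) :
    O (fun k _ => x k) c (0, 0) = A c x + B c x := O_eq _ _ _

lemma A_zero (c : Fin 12) : A c 0 = 0 := by simp [A, velc, dt]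

lemma B_zero (c : Fin 12) : B c 0 = 0 := by simp [B, velc, dt]

lemma I_zero : I 0 = 0 := by simp [I, G, H, velc, dt]

/-- total at `P` -/
noncomputable def T (X : Fin 10 → ℤ × ℤ → ℝ × ℝ × ℝ) (P : ℤ × ℤ) : ℝ :=
  (∑ k, (wg k * G X k P + wh k * H X k P)) + ∑ c, wo c * O X c P

lemma T_eq (X : Fin 10 → ℤ × ℤ → ℝ × ℝ × ℝ) (P : ℤ × ℤ) :
    T X P = I (fun j => X j P) + (∑ c, wo c * A c (fun j => X j (P + dA c)) +
      ∑ c, wo c * B c (fun j => X j (P + dB c))) := by
  simp only [T, O_eq, mul_add, Finset.sum_add_distrib]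
  rw [show (∑ k, wg k * G X k P + ∑ k, wh k * H X k P) = I (fun j => X j P) by
    simp only [I, Finset.sum_add_distrib]; rfl]

lemma supp_fin {X : Fin 10 → ℤ × ℤ → ℝ × ℝ × ℝ} (hX : FinSup X)
    (φ : (Fin 10 → ℝ × ℝ × ℝ) → ℝ) (h0 : φ 0 = 0) (d : ℤ × ℤ) :
    (support fun P => φ (fun j => X j (P + d))).Finite := by
  refine ((hX.preimage (f := fun P : ℤ × ℤ => P + d) (Set.injOn_of_injective
    (add_left_injective d))).subset ?_)
  intro P hP
  by_contra hcon
  apply hP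
  have : (fun j => X j (P + d)) = 0 := by
    funext j
    by_contra hj
    exact hcon ⟨j, hj⟩
  simp only [this, h0]

lemma shift_sum (φ : ℤ × ℤ → ℝ) (d : ℤ × ℤ) : ∑ᶠ P, φ (P + d) = ∑ᶠ P, φ P :=
  finsum_comp_equiv (Equiv.addRight d) (f := φ)

theorem main (hL : ∀ x : Fin 10 → ℝ × ℝ × ℝ,
      (∑ k, (wg k * G (fun k _ => x k) k (0, 0) + wh k * H (fun k _ => x k) k (0, 0))) +
        ∑ c, wo c * O (fun k _ => x k) c (0, 0) = 0)
    (hW : S_WPOS) : S_STR := by
  intro X hX hF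
  obtain ⟨hg, hh, ho⟩ := hW
  have hT0 : ∀ P, 0 ≤ T X P := fun P => add_nonneg
    (Finset.sum_nonneg fun k _ => add_nonneg (mul_nonneg (hg k).le (hF.g k P))
      (mul_nonneg (hh k).le (hF.h k P)))
    (Finset.sum_nonneg fun c _ => mul_nonneg (ho c).le (hF.o c P))
  have sI : (support fun P => I (fun j => X j P)).Finite := by
    simpa using supp_fin hX I I_zero 0
  have sA : ∀ c, (support fun P => wo c * A c (fun j => X j (P + dA c))).Finite := fun c =>
    supp_fin hX (fun x => wo c * A c x) (by simp only [A_zero, mul_zero]) (dA c)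
  have sB : ∀ c, (support fun P => wo c * B c (fun j => X j (P + dB c))).Finite := fun c =>
    supp_fin hX (fun x => wo c * B c x) (by simp only [B_zero, mul_zero]) (dB c)
  have sA' : ∀ c, (support fun P => wo c * A c (fun j => X j P)).Finite := fun c => by
    simpa using supp_fin hX (fun x => wo c * A c x) (by simp only [A_zero, mul_zero]) 0
  have sB' : ∀ c, (support fun P => wo c * B c (fun j => X j P)).Finite := fun c => by
    simpa using supp_fin hX (fun x => wo c * B c x) (by simp only [B_zero, mul_zero]) 0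
  have sSA : (support fun P => ∑ c, wo c * A c (fun j => X j (P + dA c))).Finite :=
    (Set.finite_iUnion sA).subset (by
      intro P hP
      by_contra hcon
      apply hP
      refine Finset.sum_eq_zero fun c _ => ?_
      by_contra hc
      exact hcon (Set.mem_iUnion.2 ⟨c, hc⟩))
  have sSB : (support fun P => ∑ c, wo c * B c (fun j => X j (P + dB c))).Finite :=
    (Set.finite_iUnion sB).subset (by
      intro P hP
      by_contra hcon
      apply hP
      refine Finset.sum_eq_zero fun c _ => ?_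
      by_contra hc
      exact hcon (Set.mem_iUnion.2 ⟨c, hc⟩))
  have sSA' : (support fun P => ∑ c, wo c * A c (fun j => X j P)).Finite :=
    (Set.finite_iUnion sA').subset (by
      intro P hP
      by_contra hcon
      apply hP
      refine Finset.sum_eq_zero fun c _ => ?_
      by_contra hc
      exact hcon (Set.mem_iUnion.2 ⟨c, hc⟩))
  have sSB' : (support fun P => ∑ c, wo c * B c (fun j => X j P)).Finite :=
    (Set.finite_iUnion sB').subset (by
      intro P hP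
      by_contra hcon
      apply hP
      refine Finset.sum_eq_zero fun c _ => ?_
      by_contra hc
      exact hcon (Set.mem_iUnion.2 ⟨c, hc⟩))
  have sSS : (support fun P => (∑ c, wo c * A c (fun j => X j (P + dA c))) +
      ∑ c, wo c * B c (fun j => X j (P + dB c))).Finite :=
    (sSA.union sSB).subset (support_add _ _)
  have sSS' : (support fun P => (∑ c, wo c * A c (fun j => X j P)) +
      ∑ c, wo c * B c (fun j => X j P)).Finite :=
    (sSA'.union sSB').subset (support_add _ _)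
  have eA : ∑ᶠ P, (∑ c, wo c * A c (fun j => X j (P + dA c))) =
      ∑ᶠ P, ∑ c, wo c * A c (fun j => X j P) := by
    rw [finsum_sum_comm _ _ (fun c _ => sA c), finsum_sum_comm _ _ (fun c _ => sA' c)]
    exact Finset.sum_congr rfl fun c _ => shift_sum (fun P => wo c * A c (fun j => X j P)) (dA c)
  have eB : ∑ᶠ P, (∑ c, wo c * B c (fun j => X j (P + dB c))) =
      ∑ᶠ P, ∑ c, wo c * B c (fun j => X j P) := by
    rw [finsum_sum_comm _ _ (fun c _ => sB c), finsum_sum_comm _ _ (fun c _ => sB' c)]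
    exact Finset.sum_congr rfl fun c _ => shift_sum (fun P => wo c * B c (fun j => X j P)) (dB c)
  have hsum : ∑ᶠ P, T X P = 0 := by
    have h1 : ∑ᶠ P, T X P = ∑ᶠ P, (I (fun j => X j P) + ((∑ c, wo c * A c (fun j => X j P)) +
        ∑ c, wo c * B c (fun j => X j P))) := by
      simp only [T_eq]
      rw [finsum_add_distrib sI sSS, finsum_add_distrib sSA sSB, finsum_add_distrib sI sSS',
        finsum_add_distrib sSA' sSB', eA, eB]
    rw [h1]
    have h2 : ∀ P, I (fun j => X j P) + ((∑ c, wo c * A c (fun j => X j P)) +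
        ∑ c, wo c * B c (fun j => X j P)) = 0 := by
      intro P
      have := hL (fun j => X j P)
      simp only [O_eq', mul_add, Finset.sum_add_distrib] at this
      simp only [I, Finset.sum_add_distrib]
      exact this
    simp only [h2, finsum_zero]
  have sT : (support fun P => T X P).Finite := by
    refine (sI.union sSS).subset ?_
    have : (fun P => T X P) = fun P => I (fun j => X j P) +
        ((∑ c, wo c * A c (fun j => X j (P + dA c))) +
          ∑ c, wo c * B c (fun j => X j (P + dB c))) := funext (T_eq X)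
    rw [this]
    exact support_add _ _
  have hTz : ∀ P, T X P = 0 := fun P => le_antisymm
    ((single_le_finsum P sT hT0).trans_eq hsum) (hT0 P)
  have n1 : ∀ P, 0 ≤ ∑ k, (wg k * G X k P + wh k * H X k P) := fun P =>
    Finset.sum_nonneg fun k _ => add_nonneg (mul_nonneg (hg k).le (hF.g k P))
      (mul_nonneg (hh k).le (hF.h k P))
  have n2 : ∀ P, 0 ≤ ∑ c, wo c * O X c P := fun P =>
    Finset.sum_nonneg fun c _ => mul_nonneg (ho c).le (hF.o c P)
  have z1 : ∀ P, ∑ k, (wg k * G X k P + wh k * H X k P) = 0 := fun P => by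
    have := hTz P
    have a1 := n1 P
    have a2 := n2 P
    unfold T at this
    linarith
  have z2 : ∀ P, ∑ c, wo c * O X c P = 0 := fun P => by
    have := hTz P
    have a1 := n1 P
    have a2 := n2 P
    unfold T at this
    linarith
  have y1 : ∀ k P, wg k * G X k P + wh k * H X k P = 0 := fun k P =>
    (Finset.sum_eq_zero_iff_of_nonneg (fun k _ => add_nonneg (mul_nonneg (hg k).le (hF.g k P))
      (mul_nonneg (hh k).le (hF.h k P)))).1 (z1 P) k (Finset.mem_univ k)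
  have y2 : ∀ c P, wo c * O X c P = 0 := fun c P =>
    (Finset.sum_eq_zero_iff_of_nonneg (fun c _ => mul_nonneg (ho c).le (hF.o c P))).1 (z2 P) c
      (Finset.mem_univ c)
  refine ⟨fun k P => ?_, fun k P => ?_, fun c P => ?_⟩
  · have a1 := mul_nonneg (hg k).le (hF.g k P)
    have a2 := mul_nonneg (hh k).le (hF.h k P)
    have := y1 k P
    have h0 : wg k * G X k P = 0 := by linarith
    exact (mul_eq_zero.1 h0).resolve_left (hg k).ne'
  · have a1 := mul_nonneg (hg k).le (hF.g k P)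
    have a2 := mul_nonneg (hh k).le (hF.h k P)
    have := y1 k P
    have h0 : wh k * H X k P = 0 := by linarith
    exact (mul_eq_zero.1 h0).resolve_left (hh k).ne'
  · exact (mul_eq_zero.1 (y2 c P)).resolve_left (ho c).ne'

set_option maxRecDepth 100000 in
/-- the local identity -/
theorem local_id (hF : S_F) : ∀ x : Fin 10 → ℝ × ℝ × ℝ,
      (∑ k, (wg k * G (fun k _ => x k) k (0, 0) + wh k * H (fun k _ => x k) k (0, 0))) +
        ∑ c, wo c * O (fun k _ => x k) c (0, 0) = 0 := by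
  intro x
  have h2 := hF.1
  have h3 : f ^ 3 = 2 * f + 1 := by
    have : f ^ 3 = f * f ^ 2 := by ring
    rw [this, h2]; linear_combination h2
  have h4 : f ^ 4 = 3 * f + 2 := by
    have : f ^ 4 = f * f ^ 3 := by ring
    rw [this, h3]; linear_combination 2 * h2
  have h5 : f ^ 5 = 5 * f + 3 := by
    have : f ^ 5 = f * f ^ 4 := by ring
    rw [this, h4]; linear_combination 3 * h2
  generalize hx0 : x 0 = x0
  generalize hx1 : x 1 = x1
  generalize hx2 : x 2 = x2
  generalize hx3 : x 3 = x3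
  generalize hx4 : x 4 = x4
  generalize hx5 : x 5 = x5
  generalize hx6 : x 6 = x6
  generalize hx7 : x 7 = x7
  generalize hx8 : x 8 = x8
  generalize hx9 : x 9 = x9
  obtain ⟨a0, b0, c0⟩ := x0
  obtain ⟨a1, b1, c1⟩ := x1
  obtain ⟨a2, b2, c2⟩ := x2
  obtain ⟨a3, b3, c3⟩ := x3
  obtain ⟨a4, b4, c4⟩ := x4
  obtain ⟨a5, b5, c5⟩ := x5
  obtain ⟨a6, b6, c6⟩ := x6
  obtain ⟨a7, b7, c7⟩ := x7
  obtain ⟨a8, b8, c8⟩ := x8
  obtain ⟨a9, b9, c9⟩ := x9
  have k0 : (0:Fin 10) - 1 = 9 := by decide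
  have k1 : (1:Fin 10) - 1 = 0 := by decide
  have k2 : (2:Fin 10) - 1 = 1 := by decide
  have k3 : (3:Fin 10) - 1 = 2 := by decide
  have k4 : (4:Fin 10) - 1 = 3 := by decide
  have k5 : (5:Fin 10) - 1 = 4 := by decide
  have k6 : (6:Fin 10) - 1 = 5 := by decide
  have k7 : (7:Fin 10) - 1 = 6 := by decide
  have k8 : (8:Fin 10) - 1 = 7 := by decide
  have k9 : (9:Fin 10) - 1 = 8 := by decide
  have s10 : ∀ F : Fin 10 → ℝ, ∑ k, F k = F 0 + F 1 + F 2 + F 3 + F 4 + F 5 + F 6 + F 7 + F 8 + F 9 := by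
    intro F
    simp [Fin.sum_univ_succ]
    ring_nf
  have s12 : ∀ F : Fin 12 → ℝ, ∑ k, F k = F 0 + F 1 + F 2 + F 3 + F 4 + F 5 + F 6 + F 7 + F 8 + F 9 + F 10 + F 11 := by
    intro F
    simp [Fin.sum_univ_succ]
    ring_nf
  have r0 : rho 0 = (1, 0) := rfl
  have r1 : rho 1 = (0, 1) := rfl
  have r2 : rho 2 = (-1, f) := rfl
  have r3 : rho 3 = (-f, f) := rfl
  have r4 : rho 4 = (-f, 1) := rfl
  have r5 : rho 5 = (-1, 0) := rfl
  have r6 : rho 6 = (0, -1) := rfl
  have r7 : rho 7 = (1, -f) := rfl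
  have r8 : rho 8 = (f, -f) := rfl
  have r9 : rho 9 = (f, -1) := rfl
  have kA0 : kA 0 = 0 := rfl
  have kA1 : kA 1 = 5 := rfl
  have kA2 : kA 2 = 6 := rfl
  have kA3 : kA 3 = 1 := rfl
  have kA4 : kA 4 = 0 := rfl
  have kA5 : kA 5 = 5 := rfl
  have kA6 : kA 6 = 3 := rfl
  have kA7 : kA 7 = 8 := rfl
  have kA8 : kA 8 = 7 := rfl
  have kA9 : kA 9 = 2 := rfl
  have kA10 : kA 10 = 3 := rfl
  have kA11 : kA 11 = 8 := rfl
  have kB0 : kB 0 = 5 := rfl
  have kB1 : kB 1 = 0 := rfl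
  have kB2 : kB 2 = 9 := rfl
  have kB3 : kB 3 = 4 := rfl
  have kB4 : kB 4 = 6 := rfl
  have kB5 : kB 5 = 1 := rfl
  have kB6 : kB 6 = 8 := rfl
  have kB7 : kB 7 = 3 := rfl
  have kB8 : kB 8 = 4 := rfl
  have kB9 : kB 9 = 9 := rfl
  have kB10 : kB 10 = 7 := rfl
  have kB11 : kB 11 = 2 := rfl
  have dA0 : dA 0 = (0, 0) := rfl
  have dA1 : dA 1 = (1, 0) := rfl
  have dA2 : dA 2 = (1, 0) := rfl
  have dA3 : dA 3 = (0, 0) := rfl
  have dA4 : dA 4 = (0, 0) := rfl
  have dA5 : dA 5 = (1, 0) := rfl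
  have dA6 : dA 6 = (0, 0) := rfl
  have dA7 : dA 7 = (0, 1) := rfl
  have dA8 : dA 8 = (0, 1) := rfl
  have dA9 : dA 9 = (0, 0) := rfl
  have dA10 : dA 10 = (0, 0) := rfl
  have dA11 : dA 11 = (0, 1) := rfl
  have dB0 : dB 0 = (1, 0) := rfl
  have dB1 : dB 1 = (0, 0) := rfl
  have dB2 : dB 2 = (0, 0) := rfl
  have dB3 : dB 3 = (1, 0) := rfl
  have dB4 : dB 4 = (1, 0) := rfl
  have dB5 : dB 5 = (0, 0) := rfl
  have dB6 : dB 6 = (0, 1) := rfl
  have dB7 : dB 7 = (0, 0) := rfl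
  have dB8 : dB 8 = (0, 0) := rfl
  have dB9 : dB 9 = (0, 1) := rfl
  have dB10 : dB 10 = (0, 1) := rfl
  have dB11 : dB 11 = (0, 0) := rfl
  have p10 : p1 0 = 44 - 22 * f := rfl
  have p11 : p1 1 = -32 + 26 * f := rfl
  have p12 : p1 2 = 34 + 4 * f := rfl
  have p13 : p1 3 = -22 := rfl
  have p14 : p1 4 = 22 := rfl
  have p15 : p1 5 = -10 + 4 * f := rfl
  have p16 : p1 6 = 55 - 66 * f := rfl
  have p17 : p1 7 = -93 + 24 * f := rfl
  have p18 : p1 8 = -16 - 20 * f := rfl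
  have p19 : p1 9 = -22 - 22 * f := rfl
  have p110 : p1 10 = -44 * f := rfl
  have p111 : p1 11 = -38 + 2 * f := rfl
  have p20 : p2 0 = 77 - 33 * f := rfl
  have p21 : p2 1 = -85 + 67 * f := rfl
  have p22 : p2 2 = -30 + 12 * f := rfl
  have p23 : p2 3 = 22 + 22 * f := rfl
  have p24 : p2 4 = 22 := rfl
  have p25 : p2 5 = -30 + 34 * f := rfl
  have p26 : p2 6 = 11 + 22 * f := rfl
  have p27 : p2 7 = 35 + 8 * f := rfl
  have p28 : p2 8 = 46 - 14 * f := rfl
  have p29 : p2 9 = 44 * f := rfl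
  have p210 : p2 10 = 22 + 22 * f := rfl
  have p211 : p2 11 = 24 + 8 * f := rfl
  have e10 : e1 0 = -22 + 22 * f := rfl
  have e11 : e1 1 = 22 - 22 * f := rfl
  have e12 : e1 2 = 33 - 33 * f := rfl
  have e13 : e1 3 = -33 + 33 * f := rfl
  have e14 : e1 4 = 44 - 22 * f := rfl
  have e15 : e1 5 = -44 + 22 * f := rfl
  have e16 : e1 6 = 55 - 22 * f := rfl
  have e17 : e1 7 = -55 + 22 * f := rfl
  have e18 : e1 8 = -11 := rfl
  have e19 : e1 9 = 11 := rfl
  have e110 : e1 10 = 33 - 33 * f := rfl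
  have e111 : e1 11 = -33 + 33 * f := rfl
  have e20 : e2 0 = -55 + 33 * f := rfl
  have e21 : e2 1 = 55 - 33 * f := rfl
  have e22 : e2 2 = -22 + 22 * f := rfl
  have e23 : e2 3 = 22 - 22 * f := rfl
  have e24 : e2 4 = -110 + 55 * f := rfl
  have e25 : e2 5 = 110 - 55 * f := rfl
  have e26 : e2 6 = -11 := rfl
  have e27 : e2 7 = 11 := rfl
  have e28 : e2 8 = -55 + 33 * f := rfl
  have e29 : e2 9 = 55 - 33 * f := rfl
  have e210 : e2 10 = -99 + 77 * f := rfl
  have e211 : e2 11 = 99 - 77 * f := rfl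
  have wo0 : wo 0 = -39 + 55 * f := rfl
  have wo1 : wo 1 = -39 + 55 * f := rfl
  have wo2 : wo 2 = 226 - 54 * f := rfl
  have wo3 : wo 3 = 226 - 54 * f := rfl
  have wo4 : wo 4 = 89 := rfl
  have wo5 : wo 5 = 89 := rfl
  have wo6 : wo 6 = -39 + 55 * f := rfl
  have wo7 : wo 7 = -39 + 55 * f := rfl
  have wo8 : wo 8 = 226 - 54 * f := rfl
  have wo9 : wo 9 = 226 - 54 * f := rfl
  have wo10 : wo 10 = 89 := rfl
  have wo11 : wo 11 = 89 := rfl
  have wg0 : wg 0 = 13180 - 7080 * f := rfl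
  have wg1 : wg 1 = 8961 - 4948 * f := rfl
  have wg2 : wg 2 = -8524 + 5500 * f := rfl
  have wg3 : wg 3 = 8961 - 4948 * f := rfl
  have wg4 : wg 4 = 13180 - 7080 * f := rfl
  have wg5 : wg 5 = 13180 - 7080 * f := rfl
  have wg6 : wg 6 = 8961 - 4948 * f := rfl
  have wg7 : wg 7 = -8524 + 5500 * f := rfl
  have wg8 : wg 8 = 8961 - 4948 * f := rfl
  have wg9 : wg 9 = 13180 - 7080 * f := rfl
  have wh0 : wh 0 = -5128 + 3406 * f := rfl
  have wh1 : wh 1 = -7091 + 5047 * f := rfl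
  have wh2 : wh 2 = 3200 := rfl
  have wh3 : wh 3 = -7091 + 5047 * f := rfl
  have wh4 : wh 4 = -5128 + 3406 * f := rfl
  have wh5 : wh 5 = -5128 + 3406 * f := rfl
  have wh6 : wh 6 = -7091 + 5047 * f := rfl
  have wh7 : wh 7 = 3200 := rfl
  have wh8 : wh 8 = -7091 + 5047 * f := rfl
  have wh9 : wh 9 = -5128 + 3406 * f := rfl
  rw [s10, s12]
  simp only [G, H, O, dt, velc, lat, k0, k1, k2, k3, k4, k5, k6, k7, k8, k9, hx0, hx1, hx2, hx3, hx4, hx5, hx6, hx7, hx8, hx9,
    r0, r1, r2, r3, r4, r5, r6, r7, r8, r9, kA0, kA1, kA2, kA3, kA4, kA5, kA6, kA7, kA8, kA9, kA10, kA11, kB0, kB1, kB2, kB3, kB4, kB5, kB6, kB7, kB8, kB9, kB10, kB11, dA0, dA1, dA2, dA3, dA4, dA5, dA6, dA7, dA8, dA9, dA10, dA11, dB0, dB1, dB2, dB3, dB4, dB5, dB6, dB7, dB8, dB9, dB10, dB11, p10, p11, p12, p13, p14, p15, p16, p17, p18, p19, p110, p111, p20, p21, p22, p23, p24, p25, p26, p27, p28, p29, p210, p211, e10, e11, e12, e13, e14, e15, e16, e17, e18, e19, e110, e111,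 e20, e21, e22, e23, e24, e25, e26, e27, e28, e29, e210, e211, wo0, wo1, wo2, wo3, wo4, wo5, wo6, wo7, wo8, wo9, wo10, wo11, wg0, wg1, wg2, wg3, wg4, wg5, wg6, wg7, wg8, wg9, wh0, wh1, wh2, wh3, wh4, wh5, wh6, wh7, wh8, wh9, Prod.fst_sub, Prod.snd_sub, Prod.smul_mk, smul_eq_mul, Int.cast_zero, Int.cast_one,
    zero_mul, one_mul, mul_zero, mul_one, add_zero, zero_add, sub_zero, zero_sub]
  ring_nf
  simp only [h2, h3, h4, h5]
  ring

end STRaux

theorem t_STR (hF : S_F) (hW : S_WPOS) : S_STR := STRaux.main (STRaux.local_id hF) hW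

end Pool.Agent.H113R4.EN
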