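import Mathlib
import Pool.Agent.H113R4.EN.Stubs

set_option autoImplicit false

namespace Pool.Agent.H113R4.EN

namespace TRAaux

variable {E E' : Type} [NormedAddCommGroup E] [NormedSpace ℝ E] [NormedAddCommGroup E']
  [NormedSpace ℝ E']

theorem cong (L : E ≃ₗᵢ[ℝ] E') {A B : Set E} (h : Cong A B) : Cong (L '' A) (L '' B) := by
  obtain ⟨g, rfl⟩ := h
  refine ⟨L.symm.toIsometryEquiv.trans (g.trans L.toIsometryEquiv), ?_⟩
  ext x
  constructor
  · rintro ⟨_, ⟨a, ha, rfl⟩, rfl⟩
    refine ⟨g a, ⟨a, ha, rfl⟩, ?_⟩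
    simp
  · rintro ⟨_, ⟨a, ha, rfl⟩, rfl⟩
    refine ⟨L a, ⟨a, ha, rfl⟩, ?_⟩
    simp

theorem inter (L : E ≃ₗᵢ[ℝ] E') (A : Set E) : interior (L '' A) = L '' interior A := by
  have := L.toHomeomorph.image_interior A
  simpa using this.symm

theorem body (L : E ≃ₗᵢ[ℝ] E') {A : Set E} (h : IsBody A) : IsBody (L '' A) := by
  refine ⟨h.1.image L.continuous, ?_, ?_⟩
  · have := h.2.1.linear_image (L.toLinearEquiv : E →ₗ[ℝ] E')
    simpa using this
  · rw [inter]
    exact h.2.2.image _

theorem disj (L : E ≃ₗᵢ[ℝ] E') {A B : Set E} :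
    Disjoint (interior (L '' A)) (interior (L '' B)) ↔ Disjoint (interior A) (interior B) := by
  rw [inter, inter]
  exact Set.disjoint_image_iff L.injective

theorem sy (L : E ≃ₗᵢ[ℝ] E') (A : Set E) : L.symm '' (L '' A) = A := by
  rw [← Set.image_comp]
  simp

theorem sy' (L : E ≃ₗᵢ[ℝ] E') (A : Set E') : L '' (L.symm '' A) = A := by
  rw [← Set.image_comp]
  simp

theorem inj (L : E ≃ₗᵢ[ℝ] E') : Function.Injective (fun A : Set E => L '' A) := by
  intro A B h
  have : L.symm '' (L '' A) = L.symm '' (L '' B) := by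
    simp only at h
    rw [h]
  rwa [sy, sy] at this

theorem main (L : E ≃ₗᵢ[ℝ] E') (h : Eleven E) : Eleven E' := by
  obtain ⟨K, F, hK, hF, hc, hp, hs, hn⟩ := h
  refine ⟨L '' K, (fun A => L '' A) '' F, body L hK, hF.image _, ?_, ⟨?_, ?_⟩, ?_, ?_⟩
  · rintro _ ⟨A, hA, rfl⟩
    exact cong L (hc A hA)
  · rintro _ ⟨A, hA, rfl⟩
    exact body L (hp.1 A hA)
  · rintro _ ⟨A, hA, rfl⟩ _ ⟨B, hB, rfl⟩ hAB
    exact (disj L).2 (hp.2 A hA B hB (fun e => hAB (by rw [e])))
  · intro k hk C hCi hCF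
    have hD : ∀ i, L.symm '' (C i) ∈ F := by
      intro i
      obtain ⟨A, hA, hAC⟩ := hCF i
      simp only at hAC
      rw [← hAC, sy]
      exact hA
    obtain ⟨ε, he, hst⟩ := hs k hk (fun i => L.symm '' (C i))
      (fun i j hij => hCi (inj L.symm hij)) hD
    refine ⟨ε, he, ?_⟩
    intro C' h1 h2 h3 h4
    have key := hst (fun i => L.symm '' (C' i)) (fun i => cong L.symm (h1 i))
      (fun i => by
        have := Metric.hausdorffDist_image (s := C i) (t := C' i) L.symm.isometry
        rw [this]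
        exact h2 i)
      (fun i j hij => (disj L.symm).2 (h3 i j hij))
      (fun i D hD1 hD2 => by
        have e : D = L.symm '' (L '' D) := (sy L D).symm
        rw [e]
        apply (disj L.symm).2
        apply h4 i _ ⟨D, hD1, rfl⟩
        rintro ⟨j, hj⟩
        apply hD2
        refine ⟨j, ?_⟩
        simp only
        rw [hj, sy])
    funext i
    have := congrFun key i
    exact inj L.symm this
  · rintro _ ⟨A, hA, rfl⟩
    have e : nbrs ((fun A => L '' A) '' F) (L '' A) = (fun A => L '' A) '' (nbrs F A) := by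
      ext B
      constructor
      · rintro ⟨⟨D, hD, rfl⟩, h1, h2⟩
        refine ⟨D, ⟨hD, fun e => h1 (by rw [e]), ?_⟩, rfl⟩
        simp only at h2
        rw [← Set.image_inter L.injective] at h2
        exact h2.of_image
      · rintro ⟨D, ⟨hD, h1, h2⟩, rfl⟩
        refine ⟨⟨D, hD, rfl⟩, fun e => h1 (inj L e), ?_⟩
        simp only
        rw [← Set.image_inter L.injective]
        exact h2.image _
    simp only
    rw [e, (inj L).encard_image]
    exact hn A hA

end TRAaux

theorem t_TRA : S_TRA := fun h => TRAaux.main Complex.orthonormalBasisOneI.repr h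

end Pool.Agent.H113R4.EN
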