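import Mathlib
import Pool.Agent.H113R4.EN.Stubs

/-! EN task WPOS (helper666): the weights of the equilibrium stress are positive. -/

set_option autoImplicit false

namespace Pool.Agent.H113R4.EN

theorem t_WPOS (hF : S_F) : S_WPOS := by
  obtain ⟨-, h1, h2⟩ := hF
  refine ⟨?_, ?_, ?_⟩
  · intro k
    fin_cases k <;> simp [wg] <;> linarith
  · intro k
    fin_cases k <;> simp [wh] <;> linarith
  · intro c
    fin_cases c <;> simp [wo] <;> linarith

end Pool.Agent.H113R4.EN
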