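import Mathlib
import Pool.Agent.H113R4.EN.Stubs

/-!
# Facts on `ζ`
-/

set_option autoImplicit false

namespace Pool.Agent.H113R4.EN

namespace Zaux

theorem fsq : f ^ 2 = f + 1 := by
  unfold f
  have h5 : Real.sqrt 5 ^ 2 = 5 := Real.sq_sqrt (by norm_num)
  nlinarith [h5]

theorem fsqC : (f : ℂ) ^ 2 = (f : ℂ) + 1 := by
  have h := fsq
  exact_mod_cast congrArg (fun x : ℝ => (x : ℂ)) h

theorem ze_re : ze.re = f / 2 := by
  unfold ze
  rw [Complex.exp_ofReal_mul_I_re, Real.cos_pi_div_five]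
  unfold f
  ring

theorem ze_im : ze.im = Real.sin (Real.pi / 5) := by
  unfold ze
  rw [Complex.exp_ofReal_mul_I_im]

theorem ze_im_pos : 0 < ze.im := by
  rw [ze_im]
  apply Real.sin_pos_of_pos_of_lt_pi
  · positivity
  · linarith [Real.pi_pos]

theorem ze_norm : ‖ze‖ = 1 := by
  unfold ze
  exact Complex.norm_exp_ofReal_mul_I _

theorem ze_conj : (starRingEnd ℂ) ze = (f : ℂ) - ze := by
  apply Complex.ext
  · rw [Complex.conj_re, Complex.sub_re, Complex.ofReal_re, ze_re]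
    ring
  · rw [Complex.conj_im, Complex.sub_im, Complex.ofReal_im]
    ring

theorem ze_mul_conj : ze * (starRingEnd ℂ) ze = 1 := by
  rw [Complex.mul_conj, Complex.normSq_eq_norm_sq, ze_norm]
  norm_num

theorem ze_sq : ze ^ 2 = (f : ℂ) * ze - 1 := by
  have h := ze_mul_conj
  rw [ze_conj] at h
  linear_combination -h

theorem ze_five : ze ^ 5 = -1 := by
  unfold ze
  rw [← Complex.exp_nat_mul]
  have : ((5 : ℕ) : ℂ) * (((Real.pi / 5 : ℝ) : ℂ) * Complex.I) = (Real.pi : ℂ) * Complex.I := by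
    push_cast
    ring
  rw [this, Complex.exp_pi_mul_I]

theorem ze_I : Complex.I * ((2 * ze.im : ℝ) : ℂ) = 2 * ze - (f : ℂ) := by
  apply Complex.ext
  · simp [ze_re]
    ring
  · simp

theorem ze3 : ze ^ 3 = (f : ℂ) * ze - (f : ℂ) := by
  have h := ze_sq
  have hf := fsqC
  calc ze ^ 3 = ze ^ 2 * ze := by ring
    _ = ((f : ℂ) * ze - 1) * ze := by rw [h]
    _ = (f : ℂ) * ze ^ 2 - ze := by ring
    _ = (f : ℂ) * ((f : ℂ) * ze - 1) - ze := by rw [h]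
    _ = (f : ℂ) ^ 2 * ze - (f : ℂ) - ze := by ring
    _ = _ := by rw [hf]; ring

theorem ze4 : ze ^ 4 = ze - (f : ℂ) := by
  have h := ze_sq
  have hf := fsqC
  calc ze ^ 4 = ze ^ 3 * ze := by ring
    _ = ((f : ℂ) * ze - (f : ℂ)) * ze := by rw [ze3]
    _ = (f : ℂ) * ze ^ 2 - (f : ℂ) * ze := by ring
    _ = (f : ℂ) * ((f : ℂ) * ze - 1) - (f : ℂ) * ze := by rw [h]
    _ = (f : ℂ) ^ 2 * ze - (f : ℂ) - (f : ℂ) * ze := by ring
    _ = _ := by rw [hf]; ring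

theorem pow_add5 (k : ℕ) : ze ^ (k + 5) = -ze ^ k := by
  rw [pow_add, ze_five]
  ring

theorem pows (k : Fin 10) : ze ^ (k : ℕ) = pt (rho k).1 (rho k).2 := by
  have h2 := ze_sq
  have h3 := ze3
  have h4 := ze4
  fin_cases k
  · simp [rho, pt]
  · simp [rho, pt]
  · show ze ^ 2 = pt (-1) f
    rw [h2]; simp [pt]; ring
  · show ze ^ 3 = pt (-f) f
    rw [h3]; simp [pt]; ring
  · show ze ^ 4 = pt (-f) 1
    rw [h4]; simp [pt]; ring
  · show ze ^ (0 + 5) = pt (-1) 0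
    rw [pow_add5]; simp [pt]
  · show ze ^ (1 + 5) = pt 0 (-1)
    rw [pow_add5]; simp [pt]
  · show ze ^ (2 + 5) = pt 1 (-f)
    rw [pow_add5, h2]; simp [pt]; ring
  · show ze ^ (3 + 5) = pt f (-f)
    rw [pow_add5, h3]; simp [pt]; ring
  · show ze ^ (4 + 5) = pt f (-1)
    rw [pow_add5, h4]; simp [pt]; ring

end Zaux

theorem t_Z : S_Z :=
  ⟨Zaux.ze_sq, Zaux.ze_five, Zaux.ze_im_pos, Zaux.ze_re, Zaux.ze_norm, Zaux.ze_conj, Zaux.ze_I,
    Zaux.pows⟩

end Pool.Agent.H113R4.EN
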