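import Mathlib
import Pool.Agent.H113R4.EN.Core
import Pool.Agent.H113R4.EN.TF
import Pool.Agent.H113R4.EN.TZ
import Pool.Agent.H113R4.EN.TPT
import Pool.Agent.H113R4.EN.TCRS
import Pool.Agent.H113R4.EN.TBODY
import Pool.Agent.H113R4.EN.THULL
import Pool.Agent.H113R4.EN.TSEP
import Pool.Agent.H113R4.EN.TSAME
import Pool.Agent.H113R4.EN.TNB2
import Pool.Agent.H113R4.EN.TFAR
import Pool.Agent.H113R4.EN.TCON
import Pool.Agent.H113R4.EN.TCONI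
import Pool.Agent.H113R4.EN.TCONE
import Pool.Agent.H113R4.EN.TCNT
import Pool.Agent.H113R4.EN.TAN
import Pool.Agent.H113R4.EN.EDGE
import Pool.Agent.H113R4.EN.TINJ
import Pool.Agent.H113R4.EN.TPAR
import Pool.Agent.H113R4.EN.TCPT
import Pool.Agent.H113R4.EN.TLIM
import Pool.Agent.H113R4.EN.TFOL
import Pool.Agent.H113R4.EN.TCO
import Pool.Agent.H113R4.EN.TWPOS
import Pool.Agent.H113R4.EN.TSTR
import Pool.Agent.H113R4.EN.RotOwn
import Pool.Agent.H113R4.EN.TSEC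
import Pool.Agent.H113R4.EN.TSTAR
import Pool.Agent.H113R4.EN.TINF
import Pool.Agent.H113R4.EN.TTRA

/-! # Assembly -/

namespace Pool.Agent.H113R4.EN

theorem m_PT : S_PT := t_PT t_F t_Z

theorem m_BODY : S_BODY := t_BODY t_F m_PT

theorem m_CON : S_CON := t_CON t_F t_Z m_PT t_CRS t_HULL m_BODY

theorem m_CONI : S_CONI := t_CONI t_F t_Z m_PT t_CRS t_HULL m_BODY

theorem m_CONE : S_CONE := t_CONE t_F m_PT m_BODY

theorem m_NB : S_NU1 ∧ S_NU2 ∧ S_NV1 ∧ S_NV2 := t_NB2 t_F t_Z m_PT t_SEP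

theorem m_FAR : S_FAR := t_FAR t_F t_Z m_PT

theorem m_SAME : S_SAME := t_SAME t_SEP t_HULL t_F t_Z m_PT t_CRS

theorem m_CNT : S_CNT :=
  t_CNT m_SAME m_NB.1 m_NB.2.1 m_NB.2.2.1 m_NB.2.2.2 m_FAR m_BODY m_CON m_CONE

theorem m_EDGE : S_EDGE := t_EDGE t_TAN t_CRS

theorem m_PAR : S_PAR := t_PAR (t_INJ t_F t_Z m_PT) t_Z m_BODY

theorem m_LIM : S_LIM := t_LIM m_PAR t_CPT m_CNT

theorem m_FOL : S_FOL := t_FOL m_EDGE t_TAN m_CON m_CONI m_CONE m_BODY t_CRS t_Z t_F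

theorem m_CO : S_CO := t_CO t_F t_Z m_PT

theorem m_INF : S_INF :=
  t_INF (t_STR t_F (t_WPOS t_F)) (t_ROTown t_F) (t_SEC t_F) (t_STAR t_F)

/-- the answer in the Euclidean plane -/
theorem eleven : Eleven (EuclideanSpace ℝ (Fin 2)) :=
  t_TRA (eleven_complex m_LIM m_FOL m_CO m_INF m_BODY m_CNT)

end Pool.Agent.H113R4.EN
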