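import Mathlib
import Pool.Agent.H113R4.EN.Stubs

set_option autoImplicit false

namespace Pool.Agent.H113R4.EN

namespace CONIaux

/-- the point `t ζ^k` is in the open segment -/
lemma seg (c a : ℂ) (L t : ℝ) (ht : 0 < t) (htL : t < L) :
    c + (t : ℂ) * a ∈ openSegment ℝ (c + (L : ℂ) * a) c := by
  have hL : 0 < L := ht.trans htL
  refine ⟨t / L, 1 - t / L, div_pos ht hL, by rw [sub_pos, div_lt_one hL]; exact htL, by ring, ?_⟩
  simp only [Complex.real_smul]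
  push_cast
  have hL' : (L : ℂ) ≠ 0 := by exact_mod_cast hL.ne'
  field_simp
  ring

lemma zpow (hZ : S_Z) (k : Fin 10) : ze ^ ((k - 1 : Fin 10) : ℕ) * ze = ze ^ (k : ℕ) := by
  obtain ⟨-, h5, -⟩ := hZ
  rw [← pow_succ]
  have h10 : ze ^ 10 = 1 := by
    have : ze ^ 10 = (ze ^ 5) ^ 2 := by ring
    rw [this, h5]; norm_num
  fin_cases k
  · simpa using h10
  all_goals rfl

end CONIaux

open CONIaux in
theorem t_CONI (hF : S_F) (hZ : S_Z) (hPT : S_PT) (hCRS : S_CRS) (hHULL : S_HULL)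
    (hBODY : S_BODY) : S_CONI := by
  intro k P t ht htL
  set L : ℝ := 44 * f - 55 with hLdef
  have hL : 0 < L := ht.trans htL
  obtain ⟨hf2, hf1, hf3⟩ := hF
  obtain ⟨-, hbody⟩ := hBODY
  have hze : 0 < ze.im := hZ.2.2.1
  have hnorm : ‖ze‖ = 1 := hZ.2.2.2.2.1
  have hzk := zpow hZ k
  have hV0 : V 0 = 0 := by simp [V, pt]
  have hV1 : V 1 = (L : ℂ) := by simp [V, pt, hLdef]
  have hV5 : V 5 = (L : ℂ) * ze := by simp [V, pt, hLdef]
  -- membership in the tiles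
  have m0 : cen P ∈ tile k P := by
    have := (hbody k P).2.2 0
    rwa [hV0, mul_zero, add_zero] at this
  have m1 : cen P + (L : ℂ) * ze ^ (k : ℕ) ∈ tile k P := by
    have := (hbody k P).2.2 1
    rwa [hV1, mul_comm] at this
  have n0 : cen P ∈ tile (k - 1) P := by
    have := (hbody (k - 1) P).2.2 0
    rwa [hV0, mul_zero, add_zero] at this
  have hq : cen P + ze ^ ((k - 1 : Fin 10) : ℕ) * ((L : ℂ) * ze) =
      cen P + (L : ℂ) * ze ^ (k : ℕ) := by
    rw [← hzk]; ring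
  have n5 : cen P + (L : ℂ) * ze ^ (k : ℕ) ∈ tile (k - 1) P := by
    have := (hbody (k - 1) P).2.2 5
    rwa [hV5, hq] at this
  have hseg := seg (cen P) (ze ^ (k : ℕ)) L t ht htL
  refine ⟨?_, _, n5, _, n0, ?_, hseg, ?_⟩
  · exact ((hbody k P).1.2.1).segment_subset m1 m0 (openSegment_subset_segment ℝ _ _ hseg)
  · push_cast [hLdef]
    ring
  · apply hHULL
    intro i
    obtain ⟨c1, c2, c3, c4, c5, c6, c7⟩ := hCRS
    have ha : ‖ze ^ ((k - 1 : Fin 10) : ℕ)‖ = 1 := by rw [norm_pow, hnorm, one_pow]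
    have e1 : cen P + ze ^ ((k - 1 : Fin 10) : ℕ) * V i - (cen P + (L : ℂ) * ze ^ (k : ℕ)) =
        ze ^ ((k - 1 : Fin 10) : ℕ) * (V i - (L : ℂ) * ze) := by
      rw [← hzk]; ring
    have e2 : -((L : ℂ) * ze ^ (k : ℕ)) =
        ze ^ ((k - 1 : Fin 10) : ℕ) * (((-L : ℝ) : ℂ) * ze) := by
      rw [← hzk]; push_cast; ring
    have e3 : -(((44 * f - 55 : ℝ) : ℂ) * ze ^ (k : ℕ)) = -((L : ℂ) * ze ^ (k : ℕ)) := by
      rw [hLdef]
    rw [e1, e2, c7 _ _ _ ha, c4, c2, c3, c6, mul_zero, sub_zero]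
    obtain ⟨-, -, -, -, hcp, -⟩ := hPT
    have hzpt : ze = pt 0 1 := by simp [pt]
    have key : ∀ a b : ℝ, crs ze (pt a b) = -(ze.im * a) := by
      intro a b
      have := hcp 0 1 a b
      rw [← hzpt] at this
      rw [this]; ring
    have hV : ∃ a b : ℝ, 0 ≤ a ∧ V i = pt a b := by
      fin_cases i
      · exact ⟨0, 0, le_refl _, rfl⟩
      · exact ⟨44 * f - 55, 0, hL.le, rfl⟩
      · exact ⟨77 - 33 * f, 44 - 22 * f, by linarith, rfl⟩
      · exact ⟨22, 22, by norm_num, rfl⟩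
      · exact ⟨44 - 22 * f, 77 - 33 * f, by linarith, rfl⟩
      · exact ⟨0, 44 * f - 55, le_refl _, rfl⟩
    obtain ⟨a, b, ha0, hVi⟩ := hV
    rw [hVi, key]
    have : 0 ≤ L * (ze.im * a) := by positivity
    linarith

end Pool.Agent.H113R4.EN
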