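import Mathlib
import Pool.Agent.H113R4.EN.Stubs

/-!
# Neighbouring stars (task NB)

The separating lines are edges of the tiles; the sign conditions are checked in `ℤ[φ]`.
-/

set_option autoImplicit false

namespace Pool.Agent.H113R4.EN

namespace NBaux

/-- the real number `a + b φ` -/
noncomputable def ev (x : ℤ × ℤ) : ℝ := (x.1 : ℝ) + (x.2 : ℝ) * f

def mulz (x y : ℤ × ℤ) : ℤ × ℤ := (x.1 * y.1 + x.2 * y.2, x.1 * y.2 + x.2 * y.1 + x.2 * y.2)

def addz (x y : ℤ × ℤ) : ℤ × ℤ := (x.1 + y.1, x.2 + y.2)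

def subz (x y : ℤ × ℤ) : ℤ × ℤ := (x.1 - y.1, x.2 - y.2)

def negz (x : ℤ × ℤ) : ℤ × ℤ := (-x.1, -x.2)

/-- test for `0 ≤ a + b φ` -/
def nn (x : ℤ × ℤ) : Bool :=
  (decide (0 ≤ 2 * x.1 + x.2) && decide (0 ≤ x.2)) ||
  (decide (0 ≤ 2 * x.1 + x.2) && decide (5 * x.2 * x.2 ≤ (2 * x.1 + x.2) * (2 * x.1 + x.2))) ||
  (decide (0 ≤ x.2) && decide ((2 * x.1 + x.2) * (2 * x.1 + x.2) ≤ 5 * x.2 * x.2))

/-- test for `0 < a + b φ` -/
def pp (x : ℤ × ℤ) : Bool :=
  (decide (0 < 2 * x.1 + x.2) && decide (0 ≤ x.2)) ||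
  (decide (0 ≤ 2 * x.1 + x.2) && decide (0 < x.2)) ||
  (decide (0 < 2 * x.1 + x.2) && decide (5 * x.2 * x.2 < (2 * x.1 + x.2) * (2 * x.1 + x.2))) ||
  (decide (0 < x.2) && decide ((2 * x.1 + x.2) * (2 * x.1 + x.2) < 5 * x.2 * x.2))

section real

variable (hF : S_F)

include hF

theorem ev_mul (x y : ℤ × ℤ) : ev (mulz x y) = ev x * ev y := by
  have h := hF.1
  unfold ev mulz
  push_cast
  linear_combination (-(x.2 : ℝ) * y.2) * h

omit hF in
theorem ev_add (x y : ℤ × ℤ) : ev (addz x y) = ev x + ev y := by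
  unfold ev addz
  push_cast
  ring

omit hF in
theorem ev_sub (x y : ℤ × ℤ) : ev (subz x y) = ev x - ev y := by
  unfold ev subz
  push_cast
  ring

omit hF in
theorem ev_neg (x : ℤ × ℤ) : ev (negz x) = -ev x := by
  unfold ev negz
  push_cast
  ring

theorem s_pos : 0 < 2 * f - 1 := by linarith [hF.2.1]

theorem s_sq : (2 * f - 1) ^ 2 = 5 := by
  have h := hF.1
  linear_combination 4 * h

omit hF in
theorem two_ev (x : ℤ × ℤ) : 2 * ev x = ((2 * x.1 + x.2 : ℤ) : ℝ) + (x.2 : ℝ) * (2 * f - 1) := by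
  unfold ev
  push_cast
  ring

theorem nn_ev {x : ℤ × ℤ} (h : nn x = true) : 0 ≤ ev x := by
  have hs := s_pos hF
  have hs2 := s_sq hF
  have h2 := two_ev x
  set s := 2 * f - 1 with hsdef
  set c : ℤ := 2 * x.1 + x.2 with hc
  set b : ℤ := x.2 with hb
  have h3 : 0 ≤ (c : ℝ) + (b : ℝ) * s := by
    unfold nn at h
    simp only [Bool.or_eq_true, Bool.and_eq_true, decide_eq_true_eq] at h
    rcases h with (⟨h1, h2⟩ | ⟨h1, h2⟩) | ⟨h1, h2⟩
    · have k1 : (0 : ℝ) ≤ c := by exact_mod_cast h1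
      have k2 : (0 : ℝ) ≤ b := by exact_mod_cast h2
      positivity
    · have k1 : (0 : ℝ) ≤ c := by exact_mod_cast h1
      have k2 : 5 * (b : ℝ) * b ≤ (c : ℝ) * c := by exact_mod_cast h2
      have k3 : ((b : ℝ) * s) ^ 2 ≤ (c : ℝ) ^ 2 := by
        rw [mul_pow, hs2]
        nlinarith
      have k4 := abs_le_of_sq_le_sq k3 k1
      linarith [(abs_le.mp k4).1]
    · have k1 : (0 : ℝ) ≤ b := by exact_mod_cast h1
      have k2 : (c : ℝ) * c ≤ 5 * (b : ℝ) * b := by exact_mod_cast h2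
      have k3 : (c : ℝ) ^ 2 ≤ ((b : ℝ) * s) ^ 2 := by
        rw [mul_pow, hs2]
        nlinarith
      have k4 := abs_le_of_sq_le_sq k3 (mul_nonneg k1 hs.le)
      linarith [(abs_le.mp k4).1]
  linarith

theorem pp_ev {x : ℤ × ℤ} (h : pp x = true) : 0 < ev x := by
  have hs := s_pos hF
  have hs2 := s_sq hF
  have h2 := two_ev x
  set s := 2 * f - 1 with hsdef
  set c : ℤ := 2 * x.1 + x.2 with hc
  set b : ℤ := x.2 with hb
  have h3 : 0 < (c : ℝ) + (b : ℝ) * s := by
    unfold pp at h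
    simp only [Bool.or_eq_true, Bool.and_eq_true, decide_eq_true_eq] at h
    rcases h with ((⟨h1, h2⟩ | ⟨h1, h2⟩) | ⟨h1, h2⟩) | ⟨h1, h2⟩
    · have k1 : (0 : ℝ) < c := by exact_mod_cast h1
      have k2 : (0 : ℝ) ≤ b := by exact_mod_cast h2
      positivity
    · have k1 : (0 : ℝ) ≤ c := by exact_mod_cast h1
      have k2 : (0 : ℝ) < b := by exact_mod_cast h2
      positivity
    · have k1 : (0 : ℝ) < c := by exact_mod_cast h1
      have k2 : 5 * (b : ℝ) * b < (c : ℝ) * c := by exact_mod_cast h2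
      have k3 : ((b : ℝ) * s) ^ 2 < (c : ℝ) ^ 2 := by
        rw [mul_pow, hs2]
        nlinarith
      have k4 := abs_lt_of_sq_lt_sq k3 k1.le
      linarith [(abs_lt.mp k4).1]
    · have k1 : (0 : ℝ) < b := by exact_mod_cast h1
      have k2 : (c : ℝ) * c < 5 * (b : ℝ) * b := by exact_mod_cast h2
      have k3 : (c : ℝ) ^ 2 < ((b : ℝ) * s) ^ 2 := by
        rw [mul_pow, hs2]
        nlinarith
      have k4 := abs_lt_of_sq_lt_sq k3 (mul_pos k1 hs).le
      linarith [(abs_lt.mp k4).1]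
  linarith

end real

/-- points with coordinates in `ℤ[φ]` -/
abbrev Pt : Type := (ℤ × ℤ) × (ℤ × ℤ)

def addp (p q : Pt) : Pt := (addz p.1 q.1, addz p.2 q.2)

def subp (p q : Pt) : Pt := (subz p.1 q.1, subz p.2 q.2)

def rot (p : Pt) : Pt := (negz p.2, addz p.1 (p.2.2, p.2.1 + p.2.2))

def crz (p q : Pt) : ℤ × ℤ := subz (mulz p.1 q.2) (mulz p.2 q.1)

/-- the point -/
noncomputable def Pp (p : Pt) : ℂ := pt (ev p.1) (ev p.2)

/-- the vertices of the ten hexagons of a star -/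
def TL : List (List Pt) := [
  [((0, 0), (0, 0)), ((-55, 44), (0, 0)), ((77, -33), (44, -22)), ((22, 0), (22, 0)), ((44, -22), (77, -33)), ((0, 0), (-55, 44))],
  [((0, 0), (0, 0)), ((0, 0), (-55, 44)), ((-44, 22), (55, -11)), ((-22, 0), (22, 22)), ((-77, 33), (11, 22)), ((55, -44), (44, -11))],
  [((0, 0), (0, 0)), ((55, -44), (44, -11)), ((-55, 11), (-55, 66)), ((-22, -22), (0, 44)), ((-11, -22), (-55, 66)), ((-44, 11), (44, -11))],
  [((0, 0), (0, 0)), ((-44, 11), (44, -11)), ((55, -66), (11, 22)), ((0, -44), (22, 22)), ((55, -66), (55, -11)), ((-44, 11), (-55, 44))],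
  [((0, 0), (0, 0)), ((-44, 11), (-55, 44)), ((-11, -22), (77, -33)), ((-22, -22), (22, 0)), ((-55, 11), (44, -22)), ((55, -44), (0, 0))],
  [((0, 0), (0, 0)), ((55, -44), (0, 0)), ((-77, 33), (-44, 22)), ((-22, 0), (-22, 0)), ((-44, 22), (-77, 33)), ((0, 0), (55, -44))],
  [((0, 0), (0, 0)), ((0, 0), (55, -44)), ((44, -22), (-55, 11)), ((22, 0), (-22, -22)), ((77, -33), (-11, -22)), ((-55, 44), (-44, 11))],
  [((0, 0), (0, 0)), ((-55, 44), (-44, 11)), ((55, -11), (55, -66)), ((22, 22), (0, -44)), ((11, 22), (55, -66)), ((44, -11), (-44, 11))],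
  [((0, 0), (0, 0)), ((44, -11), (-44, 11)), ((-55, 66), (-11, -22)), ((0, 44), (-22, -22)), ((-55, 66), (-55, 11)), ((44, -11), (55, -44))],
  [((0, 0), (0, 0)), ((44, -11), (55, -44)), ((11, 22), (-77, 33)), ((22, 22), (-22, 0)), ((55, -11), (-44, 22)), ((-55, 44), (0, 0))]]

def TT (k i : ℕ) : Pt := (TL.getD k []).getD i ((0, 0), (0, 0))

def vt (k : ℕ) (d : Pt) (i : ℕ) : Pt := addp d (TT k i)

theorem TT_rot : ∀ k : Fin 9, ∀ i : Fin 6, TT (k.val + 1) i.val = rot (TT k.val i.val) := by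
  decide +kernel

/-- check of a separating edge -/
def chk (k1 : ℕ) (d1 : Pt) (i : ℕ) (k2 : ℕ) (d2 : Pt) : Bool :=
  (List.range 6).all (fun j =>
    nn (crz (subp (vt k1 d1 ((i + 1) % 6)) (vt k1 d1 i)) (subp (vt k1 d1 j) (vt k1 d1 i)))) &&
  ((List.range 6).all (fun j =>
    nn (negz (crz (subp (vt k1 d1 ((i + 1) % 6)) (vt k1 d1 i))
      (subp (vt k2 d2 j) (vt k1 d1 i))))) &&
  (List.range 6).any (fun j =>
    pp (crz (subp (vt k1 d1 ((i + 1) % 6)) (vt k1 d1 i)) (subp (vt k1 d1 j) (vt k1 d1 i)))))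

/-- check of a strictly separating edge -/
def chks (k1 : ℕ) (d1 : Pt) (i : ℕ) (k2 : ℕ) (d2 : Pt) : Bool :=
  (List.range 6).all (fun j =>
    nn (crz (subp (vt k1 d1 ((i + 1) % 6)) (vt k1 d1 i)) (subp (vt k1 d1 j) (vt k1 d1 i)))) &&
  (List.range 6).all (fun j =>
    pp (negz (crz (subp (vt k1 d1 ((i + 1) % 6)) (vt k1 d1 i))
      (subp (vt k2 d2 j) (vt k1 d1 i)))))

def Z0 : Pt := ((0, 0), (0, 0))

def chkT (D : Pt) (tab : List (List (Bool × ℕ))) (k l : ℕ) : Bool :=
  if ((tab.getD k []).getD l (true, 0)).1 then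
    chk k Z0 ((tab.getD k []).getD l (true, 0)).2 l D
  else chk l D ((tab.getD k []).getD l (true, 0)).2 k Z0

def chkTs (D : Pt) (tab : List (List (Bool × ℕ))) (k l : ℕ) : Bool :=
  if ((tab.getD k []).getD l (true, 0)).1 then
    chks k Z0 ((tab.getD k []).getD l (true, 0)).2 l D
  else chks l D ((tab.getD k []).getD l (true, 0)).2 k Z0

def DU : Pt := ((12, 4), (-8, 34))

def DV : Pt := ((-38, -42), (46, 30))

def tabU : List (List (Bool × ℕ)) := [
  [(true, 3), (true, 3), (true, 3), (true, 3), (false, 5), (true, 3), (false, 1), (false, 0), (false, 0), (false, 0)],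
  [(true, 1), (false, 5), (false, 5), (false, 4), (false, 3), (true, 1), (true, 1), (true, 1), (true, 1), (true, 1)],
  [(true, 0), (true, 0), (true, 1), (true, 2), (true, 2), (true, 0), (false, 1), (true, 0), (true, 0), (true, 0)],
  [(true, 0), (true, 0), (true, 0), (true, 1), (false, 3), (true, 0), (false, 1), (false, 0), (true, 0), (true, 0)],
  [(true, 0), (true, 0), (true, 0), (true, 0), (false, 4), (true, 0), (false, 1), (false, 0), (false, 0), (true, 0)],
  [(true, 0), (true, 0), (true, 0), (false, 5), (true, 0), (false, 3), (false, 1), (false, 0), (false, 0), (false, 0)],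
  [(false, 0), (true, 5), (false, 5), (false, 5), (false, 5), (false, 3), (true, 5), (true, 5), (false, 0), (false, 0)],
  [(false, 0), (true, 5), (true, 5), (false, 5), (false, 5), (false, 3), (true, 5), (false, 1), (true, 5), (false, 0)],
  [(true, 5), (true, 5), (true, 5), (true, 5), (false, 5), (false, 3), (true, 4), (false, 2), (false, 1), (true, 5)],
  [(true, 5), (true, 5), (true, 5), (true, 5), (true, 5), (true, 5), (true, 3), (false, 2), (true, 3), (true, 4)]]

def tabV : List (List (Bool × ℕ)) := [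
  [(false, 1), (true, 4), (true, 4), (true, 4), (true, 4), (true, 4), (false, 3), (true, 5), (true, 4), (true, 4)],
  [(false, 1), (true, 3), (true, 3), (true, 3), (true, 3), (true, 3), (true, 3), (true, 4), (true, 4), (true, 3)],
  [(false, 1), (false, 0), (true, 3), (true, 3), (true, 3), (false, 5), (false, 4), (true, 4), (true, 4), (false, 2)],
  [(false, 1), (false, 0), (true, 2), (true, 2), (false, 5), (false, 4), (false, 4), (false, 4), (true, 2), (false, 1)],
  [(true, 2), (true, 2), (true, 2), (true, 2), (true, 2), (false, 4), (false, 3), (true, 2), (true, 1), (true, 2)],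
  [(true, 1), (true, 1), (true, 1), (true, 1), (true, 1), (true, 1), (true, 1), (true, 1), (true, 1), (false, 2)],
  [(false, 1), (true, 0), (true, 0), (true, 0), (true, 0), (false, 4), (false, 3), (true, 0), (true, 0), (false, 2)],
  [(false, 1), (false, 0), (true, 0), (true, 0), (false, 5), (false, 4), (false, 3), (false, 3), (false, 2), (false, 2)],
  [(false, 1), (false, 0), (false, 0), (true, 5), (false, 5), (false, 4), (false, 3), (false, 3), (false, 2), (false, 2)],
  [(false, 1), (false, 0), (true, 5), (true, 5), (true, 5), (false, 4), (false, 3), (false, 3), (true, 5), (false, 2)]]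

theorem chkU : ∀ k l : Fin 10, chkT DU tabU k.val l.val = true := by decide +kernel

theorem chkV : ∀ k l : Fin 10, chkT DV tabV k.val l.val = true := by decide +kernel

theorem chkUs : ∀ k l : Fin 10, (k, l) ∈ touchU ∨ chkTs DU tabU k.val l.val = true := by
  decide +kernel

theorem chkVs : ∀ k l : Fin 10, (k, l) ∈ touchV ∨ chkTs DV tabV k.val l.val = true := by
  decide +kernel

section geo

variable (hF : S_F) (hZ : S_Z) (hPT : S_PT) (hHULL : S_HULL) (hSEP : S_SEP)

include hPT in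
theorem Pp_add (p q : Pt) : Pp (addp p q) = Pp p + Pp q := by
  unfold Pp addp
  rw [hPT.1, ev_add, ev_add]

include hPT in
theorem Pp_sub (p q : Pt) : Pp (subp p q) = Pp p - Pp q := by
  unfold Pp subp
  rw [hPT.2.1, ev_sub, ev_sub]

include hF hPT in
theorem Pp_rot (p : Pt) : Pp (rot p) = ze * Pp p := by
  have h := hF.1
  unfold Pp rot
  rw [hPT.2.2.2.1, ev_neg, ev_add]
  congr 1
  unfold ev
  push_cast
  linear_combination (-(p.2.2 : ℝ)) * h

include hF hPT in
theorem crs_Pp (p q : Pt) : crs (Pp p) (Pp q) = ze.im * ev (crz p q) := by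
  unfold Pp crz
  rw [hPT.2.2.2.2.1, ev_sub, ev_mul hF, ev_mul hF]

omit hPT in
theorem V_eq (i : Fin 6) : V i = Pp (TT 0 i.val) := by
  have e0 : TT 0 0 = ((0, 0), (0, 0)) := by decide +kernel
  have e1 : TT 0 1 = ((-55, 44), (0, 0)) := by decide +kernel
  have e2 : TT 0 2 = ((77, -33), (44, -22)) := by decide +kernel
  have e3 : TT 0 3 = ((22, 0), (22, 0)) := by decide +kernel
  have e4 : TT 0 4 = ((44, -22), (77, -33)) := by decide +kernel
  have e5 : TT 0 5 = ((0, 0), (-55, 44)) := by decide +kernel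
  fin_cases i
  · show pt 0 0 = Pp (TT 0 0)
    rw [e0]
    unfold Pp ev
    norm_num
  · show pt (44 * f - 55) 0 = Pp (TT 0 1)
    rw [e1]
    unfold Pp ev
    congr 1
    · push_cast; ring
    · push_cast; ring
  · show pt (77 - 33 * f) (44 - 22 * f) = Pp (TT 0 2)
    rw [e2]
    unfold Pp ev
    congr 1
    · push_cast; ring
    · push_cast; ring
  · show pt 22 22 = Pp (TT 0 3)
    rw [e3]
    unfold Pp ev
    congr 1
    · push_cast; ring
    · push_cast; ring
  · show pt (44 - 22 * f) (77 - 33 * f) = Pp (TT 0 4)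
    rw [e4]
    unfold Pp ev
    congr 1
    · push_cast; ring
    · push_cast; ring
  · show pt 0 (44 * f - 55) = Pp (TT 0 5)
    rw [e5]
    unfold Pp ev
    congr 1
    · push_cast; ring
    · push_cast; ring

include hF hPT in
theorem zV (k : ℕ) (hk : k < 10) (i : Fin 6) : ze ^ k * V i = Pp (TT k i.val) := by
  induction k with
  | zero => rw [pow_zero, one_mul, V_eq]
  | succ k ih =>
    have h1 := TT_rot ⟨k, by omega⟩ i
    have h2 : TT (k + 1) i.val = rot (TT k i.val) := h1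
    rw [h2, Pp_rot hF hPT, ← ih (by omega), pow_succ]
    ring

include hF hPT in
/-- position of a vertex relative to the base point of a separating edge -/
theorem rel (c0 : ℂ) (k k1 : ℕ) (hk : k < 10) (P : ℤ × ℤ) (d d1 : Pt) (hP : cen P = c0 + Pp d)
    (i : ℕ) (j : Fin 6) :
    cen P + ze ^ k * V j - (c0 + Pp (vt k1 d1 i)) = Pp (subp (vt k d j.val) (vt k1 d1 i)) := by
  rw [Pp_sub hPT, hP, zV hF hPT k hk j]
  have : Pp (vt k d j.val) = Pp d + Pp (TT k j.val) := by
    unfold vt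
    rw [Pp_add hPT]
  rw [this]
  ring

omit hPT in
theorem crs_neg (z w : ℂ) : crs (-z) w = -crs z w := by
  unfold crs
  simp only [Complex.neg_re, Complex.neg_im]
  ring

omit hPT in
theorem hull_lt (k : Fin 10) (P : ℤ × ℤ) (e q : ℂ)
    (h : ∀ i : Fin 6, crs e (cen P + ze ^ (k : ℕ) * V i - q) < 0) :
    ∀ z ∈ tile k P, crs e (z - q) < 0 := by
  have hconv : Convex ℝ {z : ℂ | crs e (cen P + ze ^ (k : ℕ) * z - q) < 0} := by
    intro x hx y hy a b ha hb hab
    have hx' : crs e (cen P + ze ^ (k : ℕ) * x - q) < 0 := hx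
    have hy' : crs e (cen P + ze ^ (k : ℕ) * y - q) < 0 := hy
    show crs e (cen P + ze ^ (k : ℕ) * (a • x + b • y) - q) < 0
    have e1 : crs e (cen P + ze ^ (k : ℕ) * (a • x + b • y) - q)
        = a * crs e (cen P + ze ^ (k : ℕ) * x - q) + b * crs e (cen P + ze ^ (k : ℕ) * y - q) := by
      have e2 : cen P + ze ^ (k : ℕ) * (a • x + b • y) - q
          = (a : ℂ) * (cen P + ze ^ (k : ℕ) * x - q) + (b : ℂ) * (cen P + ze ^ (k : ℕ) * y - q) := by
        have hab' : (a : ℂ) + (b : ℂ) = 1 := by exact_mod_cast hab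
        rw [Complex.real_smul, Complex.real_smul]
        linear_combination (q - cen P) * hab'
      rw [e2]
      unfold crs
      simp only [Complex.add_re, Complex.add_im, Complex.mul_re, Complex.mul_im,
        Complex.ofReal_re, Complex.ofReal_im]
      ring
    rw [e1]
    rcases eq_or_lt_of_le ha with h0 | h0
    · have hb1 : b = 1 := by linarith
      rw [← h0, hb1]
      linarith
    · have h1 := mul_neg_of_pos_of_neg h0 hx'
      have h2 := mul_nonpos_of_nonneg_of_nonpos hb hy'.le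
      linarith
  rintro _ ⟨z, hz, rfl⟩
  have hsub : K ⊆ {z : ℂ | crs e (cen P + ze ^ (k : ℕ) * z - q) < 0} := by
    apply convexHull_min _ hconv
    rintro _ ⟨i, rfl⟩
    exact h i
  exact hsub hz

include hF hZ hPT hHULL hSEP in
theorem sep (c0 : ℂ) (k1 k2 : Fin 10) (P1 P2 : ℤ × ℤ) (d1 d2 : Pt) (h1 : cen P1 = c0 + Pp d1)
    (h2 : cen P2 = c0 + Pp d2) (i : ℕ) (hc : chk k1.val d1 i k2.val d2 = true) :
    Disjoint (interior (tile k1 P1)) (interior (tile k2 P2)) := by
  unfold chk at hc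
  simp only [Bool.and_eq_true, List.all_eq_true, List.any_eq_true, List.mem_range] at hc
  obtain ⟨hA, hB, j0, hj0, hC⟩ := hc
  have hz := hZ.2.2.1
  apply hSEP _ _ (Pp (subp (vt k1.val d1 ((i + 1) % 6)) (vt k1.val d1 i)))
    (c0 + Pp (vt k1.val d1 i))
  · intro he
    have h3 : crs (Pp (subp (vt k1.val d1 ((i + 1) % 6)) (vt k1.val d1 i)))
        (Pp (subp (vt k1.val d1 j0) (vt k1.val d1 i))) = 0 := by
      rw [he]
      unfold crs
      simp
    rw [crs_Pp hF hPT] at h3
    have h4 := mul_pos hz (pp_ev hF hC)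
    linarith
  · apply hHULL
    intro j
    rw [rel hF hPT c0 k1.val k1.val k1.isLt P1 d1 d1 h1 i j, crs_Pp hF hPT]
    exact mul_nonneg hz.le (nn_ev hF (hA j.val j.isLt))
  · have h5 := hHULL k2 P2 (-(Pp (subp (vt k1.val d1 ((i + 1) % 6)) (vt k1.val d1 i))))
      (c0 + Pp (vt k1.val d1 i)) (by
        intro j
        rw [rel hF hPT c0 k2.val k1.val k2.isLt P2 d2 d1 h2 i j, crs_neg, crs_Pp hF hPT]
        have h6 := nn_ev hF (hB j.val j.isLt)
        rw [ev_neg] at h6
        have h7 := mul_nonneg hz.le h6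
        linarith)
    intro z hz'
    have h8 := h5 z hz'
    rw [crs_neg] at h8
    linarith

include hF hZ hPT hHULL in
theorem seps (c0 : ℂ) (k1 k2 : Fin 10) (P1 P2 : ℤ × ℤ) (d1 d2 : Pt) (h1 : cen P1 = c0 + Pp d1)
    (h2 : cen P2 = c0 + Pp d2) (i : ℕ) (hc : chks k1.val d1 i k2.val d2 = true) :
    Disjoint (tile k1 P1) (tile k2 P2) := by
  unfold chks at hc
  simp only [Bool.and_eq_true, List.all_eq_true, List.mem_range] at hc
  obtain ⟨hA, hB⟩ := hc
  have hz := hZ.2.2.1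
  rw [Set.disjoint_left]
  intro z hz1 hz2
  have h3 := hHULL k1 P1 (Pp (subp (vt k1.val d1 ((i + 1) % 6)) (vt k1.val d1 i)))
    (c0 + Pp (vt k1.val d1 i)) (by
      intro j
      rw [rel hF hPT c0 k1.val k1.val k1.isLt P1 d1 d1 h1 i j, crs_Pp hF hPT]
      exact mul_nonneg hz.le (nn_ev hF (hA j.val j.isLt))) z hz1
  have h4 := hull_lt k2 P2 (Pp (subp (vt k1.val d1 ((i + 1) % 6)) (vt k1.val d1 i)))
    (c0 + Pp (vt k1.val d1 i)) (by
      intro j
      rw [rel hF hPT c0 k2.val k1.val k2.isLt P2 d2 d1 h2 i j, crs_Pp hF hPT]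
      have h6 := pp_ev hF (hB j.val j.isLt)
      rw [ev_neg] at h6
      have h7 := mul_pos hz h6
      linarith) z hz2
  linarith

include hPT in
theorem Z0_eq (c : ℂ) : c = c + Pp Z0 := by
  have h := hPT.1 0 0 0 0
  have : Pp Z0 = 0 := by
    unfold Pp Z0 ev pt
    norm_num
  rw [this, add_zero]

include hF hZ hPT hHULL hSEP in
theorem gen (D : Pt) (Q : ℤ × ℤ) (hQ : ∀ P, cen (P + Q) = cen P + Pp D)
    (tab : List (List (Bool × ℕ))) (hc : ∀ k l : Fin 10, chkT D tab k.val l.val = true)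
    (k l : Fin 10) (P : ℤ × ℤ) :
    Disjoint (interior (tile k P)) (interior (tile l (P + Q))) := by
  have h := hc k l
  unfold chkT at h
  split_ifs at h with h1
  · exact sep hF hZ hPT hHULL hSEP (cen P) k l P (P + Q) Z0 D (Z0_eq hPT _) (hQ P) _ h
  · exact (sep hF hZ hPT hHULL hSEP (cen P) l k (P + Q) P D Z0 (hQ P) (Z0_eq hPT _) _ h).symm

include hF hZ hPT hHULL in
theorem gens (D : Pt) (Q : ℤ × ℤ) (hQ : ∀ P, cen (P + Q) = cen P + Pp D)
    (tab : List (List (Bool × ℕ))) (k l : Fin 10) (hc : chkTs D tab k.val l.val = true)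
    (P : ℤ × ℤ) : Disjoint (tile k P) (tile l (P + Q)) := by
  unfold chkTs at hc
  split_ifs at hc with h1
  · exact seps hF hZ hPT hHULL (cen P) k l P (P + Q) Z0 D (Z0_eq hPT _) (hQ P) _ hc
  · exact (seps hF hZ hPT hHULL (cen P) l k (P + Q) P D Z0 (hQ P) (Z0_eq hPT _) _ hc).symm

include hPT in
theorem cenU (P : ℤ × ℤ) : cen (P + (1, 0)) = cen P + Pp DU := by
  rw [hPT.2.2.2.2.2.2.2.2.2]
  congr 1
  unfold cen uu Pp DU ev
  simp only [Int.cast_one, Int.cast_zero, one_mul, zero_mul, add_zero]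
  congr 1
  · push_cast; ring

include hPT in
theorem cenV (P : ℤ × ℤ) : cen (P + (0, 1)) = cen P + Pp DV := by
  rw [hPT.2.2.2.2.2.2.2.2.2]
  congr 1
  unfold cen vv Pp DV ev
  simp only [Int.cast_one, Int.cast_zero, one_mul, zero_mul, zero_add]
  congr 1
  · push_cast; ring

end geo

end NBaux

open NBaux in
theorem t_NB (hF : S_F) (hZ : S_Z) (hPT : S_PT) (_hCRS : S_CRS) (hHULL : S_HULL)
    (hSEP : S_SEP) : S_NU1 ∧ S_NU2 ∧ S_NV1 ∧ S_NV2 := by
  refine ⟨?_, ?_, ?_, ?_⟩
  · intro k l P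
    exact gen hF hZ hPT hHULL hSEP DU (1, 0) (cenU hPT) tabU chkU k l P
  · intro k l P hkl
    rcases chkUs k l with h | h
    · exact absurd h hkl
    · exact gens hF hZ hPT hHULL DU (1, 0) (cenU hPT) tabU k l h P
  · intro k l P
    exact gen hF hZ hPT hHULL hSEP DV (0, 1) (cenV hPT) tabV chkV k l P
  · intro k l P hkl
    rcases chkVs k l with h | h
    · exact absurd h hkl
    · exact gens hF hZ hPT hHULL DV (0, 1) (cenV hPT) tabV k l h P

end Pool.Agent.H113R4.EN
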