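import Mathlib
import Pool.Agent.H113R4.EN.Stubs

set_option autoImplicit false

namespace Pool.Agent.H113R4.EN

namespace ROTaux

lemma rho_norm (hf2 : f ^ 2 = f + 1) (k : Fin 10) :
    (rho k).1 ^ 2 + f * (rho k).1 * (rho k).2 + (rho k).2 ^ 2 = 1 := by
  fin_cases k <;> simp [rho] <;> nlinarith [hf2]

lemma HG (X : Fin 10 → ℤ × ℤ → ℝ × ℝ × ℝ) (k : Fin 10) (P : ℤ × ℤ) :
    H X k P - G X k P = 2 * (44 * f - 55) * ((X k P).2.2 - (X (k - 1) P).2.2) *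
      ((rho k).1 ^ 2 + f * (rho k).1 * (rho k).2 + (rho k).2 ^ 2) := by
  simp only [H, G, dt, velc, Prod.fst_sub, Prod.snd_sub, Prod.smul_fst, Prod.smul_snd, smul_eq_mul]
  ring

lemma step (hF : S_F) (X : Fin 10 → ℤ × ℤ → ℝ × ℝ × ℝ) (hG : ∀ k P, G X k P = 0)
    (hH : ∀ k P, H X k P = 0) (k : Fin 10) (P : ℤ × ℤ) : (X k P).2.2 = (X (k - 1) P).2.2 := by
  obtain ⟨hf2, hf3, hf4⟩ := hF
  have h := HG X k P
  rw [hG, hH, rho_norm hf2, mul_one, sub_zero] at h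
  have hpos : (2 * (44 * f - 55)) ≠ 0 := by nlinarith
  have := (mul_eq_zero.1 h.symm).resolve_left hpos
  linarith

lemma all_eq (hF : S_F) (X : Fin 10 → ℤ × ℤ → ℝ × ℝ × ℝ) (hG : ∀ k P, G X k P = 0)
    (hH : ∀ k P, H X k P = 0) (k : Fin 10) (P : ℤ × ℤ) : (X k P).2.2 = (X 0 P).2.2 := by
  have h := fun k => step hF X hG hH k P
  have h1 : (X 1 P).2.2 = (X 0 P).2.2 := h 1
  have h2 : (X 2 P).2.2 = (X 0 P).2.2 := (h 2).trans h1
  have h3 : (X 3 P).2.2 = (X 0 P).2.2 := (h 3).trans h2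
  have h4 : (X 4 P).2.2 = (X 0 P).2.2 := (h 4).trans h3
  have h5 : (X 5 P).2.2 = (X 0 P).2.2 := (h 5).trans h4
  have h6 : (X 6 P).2.2 = (X 0 P).2.2 := (h 6).trans h5
  have h7 : (X 7 P).2.2 = (X 0 P).2.2 := (h 7).trans h6
  have h8 : (X 8 P).2.2 = (X 0 P).2.2 := (h 8).trans h7
  have h9 : (X 9 P).2.2 = (X 0 P).2.2 := (h 9).trans h8
  fin_cases k <;> first | rfl | assumption

lemma Odiff (X : Fin 10 → ℤ × ℤ → ℝ × ℝ × ℝ) (P : ℤ × ℤ) :
    O X 0 P - O X 1 P = ((X 5 (P + (1, 0))).2.2 - (X 0 P).2.2) *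
      (2 * (-22 + 22 * f) * (76 - 48 * f) + f * (-22 + 22 * f) * (162 - 100 * f) +
        f * (-55 + 33 * f) * (76 - 48 * f) + 2 * (-55 + 33 * f) * (162 - 100 * f)) := by
  simp only [O, dt, velc, kA, kB, dA, dB, e1, e2, p1, p2, lat, Matrix.cons_val_zero,
    Matrix.cons_val_one, Prod.fst_sub, Prod.snd_sub]
  have h0 : P + ((0, 0) : ℤ × ℤ) = P := by
    ext <;> simp
  rw [h0]
  push_cast
  ring

lemma key (hF : S_F) (X : Fin 10 → ℤ × ℤ → ℝ × ℝ × ℝ) (hO : ∀ c P, O X c P = 0) (P : ℤ × ℤ) :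
    (X 5 (P + (1, 0))).2.2 = (X 0 P).2.2 := by
  obtain ⟨hf2, hf3, hf4⟩ := hF
  have h := Odiff X P
  rw [hO, hO, sub_zero] at h
  have hne : (2 * (-22 + 22 * f) * (76 - 48 * f) + f * (-22 + 22 * f) * (162 - 100 * f) +
        f * (-55 + 33 * f) * (76 - 48 * f) + 2 * (-55 + 33 * f) * (162 - 100 * f)) ≠ 0 := by
    have hf3' : f ^ 3 = 2 * f + 1 := by
      have : f ^ 3 = f * f ^ 2 := by ring
      rw [this, hf2]
      nlinarith
    have : (2 * (-22 + 22 * f) * (76 - 48 * f) + f * (-22 + 22 * f) * (162 - 100 * f) +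
        f * (-55 + 33 * f) * (76 - 48 * f) + 2 * (-55 + 33 * f) * (162 - 100 * f)) < 0 := by
      ring_nf
      rw [hf3', hf2]
      nlinarith
    exact this.ne
  have := (mul_eq_zero.1 h.symm).resolve_right hne
  linarith

end ROTaux

open ROTaux in
theorem t_ROT (hF : S_F) : S_ROT := by
  intro X hfin hG hH hO
  have hall := all_eq hF X hG hH
  have hstep : ∀ P, (X 0 (P + (1, 0))).2.2 = (X 0 P).2.2 := by
    intro P
    rw [← hall 5 (P + (1, 0))]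
    exact key hF X hO P
  have hn : ∀ (P : ℤ × ℤ) (n : ℕ), (X 0 (P + ((n : ℤ), 0))).2.2 = (X 0 P).2.2 := by
    intro P n
    induction n with
    | zero =>
      have : P + (((0 : ℕ) : ℤ), 0) = P := by ext <;> simp
      rw [this]
    | succ n ih =>
      have : P + (((n + 1 : ℕ) : ℤ), 0) = (P + ((n : ℤ), 0)) + (1, 0) := by
        ext <;> simp [add_assoc]
      rw [this, hstep, ih]
  intro k P
  rw [hall k P]
  by_contra hne
  have hinj : Function.Injective fun n : ℕ => P + ((n : ℤ), (0 : ℤ)) := by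
    intro a b hab
    have := congrArg Prod.fst hab
    simpa using this
  have hsub : Set.range (fun n : ℕ => P + ((n : ℤ), (0 : ℤ))) ⊆ {P : ℤ × ℤ | ∃ k, X k P ≠ 0} := by
    rintro _ ⟨n, rfl⟩
    refine ⟨0, fun h => hne ?_⟩
    rw [← hn P n]
    change (X 0 (P + ((n : ℤ), 0))).2.2 = 0
    have h' : X 0 (P + ((n : ℤ), 0)) = 0 := h
    rw [h']
    rfl
  exact (Set.infinite_range_of_injective hinj) (hfin.subset hsub)

end Pool.Agent.H113R4.EN
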