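import Mathlib
import Pool.Agent.H113R4.EN.Stubs

/-!
# Task SEC: six sectors of an extreme star are fixed
-/

namespace Pool.Agent.H113R4.EN

namespace SECaux

theorem two_eq {a b c d x y : ℝ} (h1 : a * y - b * x = 0) (h2 : c * y - d * x = 0)
    (hd : a * d - b * c ≠ 0) : x = 0 ∧ y = 0 := by
  constructor
  · have : (a * d - b * c) * x = 0 := by linear_combination c * h1 - a * h2
    exact (mul_eq_zero.1 this).resolve_left hd
  · have : (a * d - b * c) * y = 0 := by linear_combination d * h1 - b * h2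
    exact (mul_eq_zero.1 this).resolve_left hd

theorem zero_of (x : ℝ × ℝ × ℝ) (h1 : x.1 = 0) (h2 : x.2.1 = 0) (h3 : x.2.2 = 0) : x = 0 := by
  ext
  · exact h1
  · exact h2
  · exact h3

theorem velc0 (x : ℝ × ℝ × ℝ) (p : ℝ × ℝ) (h : x.2.2 = 0) : velc x p = (x.1, x.2.1) := by
  unfold velc
  rw [h]
  simp

end SECaux

open SECaux in
theorem t_SEC (hF : S_F) : S_SEC := by
  intro X P hG hO hw hu hv
  obtain ⟨hf, hf1, hf2⟩ := hF
  have hPP : P + (0, 0) = P := by
    ext <;> simp
  have hO' : ∀ c : Fin 12, dt (e1 c, e2 c)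
      ((((X (kA c) (P + dA c)).1, (X (kA c) (P + dA c)).2.1) : ℝ × ℝ) -
        ((X (kB c) (P + dB c)).1, (X (kB c) (P + dB c)).2.1)) = 0 := by
    intro c
    have h := hO c P
    unfold O at h
    rw [velc0 _ _ (hw _ _), velc0 _ _ (hw _ _)] at h
    exact neg_eq_zero.1 h
  have hG' : ∀ k : Fin 10, dt (rho k)
      ((((X k P).1, (X k P).2.1) : ℝ × ℝ) - ((X (k - 1) P).1, (X (k - 1) P).2.1)) = 0 := by
    intro k
    have h := hG k P
    unfold G at h
    rw [velc0 _ _ (hw _ _), velc0 _ _ (hw _ _)] at h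
    exact h
  have c0 := hO' 0
  have c2 := hO' 2
  have c3 := hO' 3
  have c4 := hO' 4
  have c5 := hO' 5
  have c6 := hO' 6
  have c8 := hO' 8
  have c9 := hO' 9
  have c10 := hO' 10
  have c11 := hO' 11
  have g0 := hG' 0
  have g4 := hG' 4
  simp [dt, kA, kB, dA, dB, e1, e2, hPP, hu, hv] at c0 c2 c3 c4 c5 c6 c8 c9 c10 c11
  simp [dt, rho] at g0 g4
  have e9 : X (-1) P = X 9 P := rfl
  rw [e9] at g0
  have q0 := two_eq (a := -22 + 22 * f) (b := -55 + 33 * f) (c := 44 - 22 * f)
    (d := -110 + 55 * f) c0 c4 (by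
      intro h
      nlinarith)
  have q1 := two_eq (a := -33 + 33 * f) (b := 22 - 22 * f) (c := -44 + 22 * f)
    (d := 110 - 55 * f) c3 (by linear_combination -c5) (by
      intro h
      nlinarith)
  have q3 := two_eq (a := 55 - 22 * f) (b := -11) (c := 33 - 33 * f)
    (d := -99 + 77 * f) (by linear_combination c6) c10 (by
      intro h
      nlinarith)
  have q2 := two_eq (a := 11) (b := 55 - 33 * f) (c := -33 + 33 * f)
    (d := 99 - 77 * f) c9 (by linear_combination -c11) (by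
      intro h
      nlinarith)
  have q9b : (X 9 P).2.1 = 0 := by linarith [q0.2]
  have q9a : (X 9 P).1 = 0 := by
    rw [q9b] at c2
    have h : (-22 + 22 * f) * (X 9 P).1 = 0 := by linarith
    refine (mul_eq_zero.1 h).resolve_left ?_
    intro h'
    linarith
  rw [q3.1, q3.2] at g4
  have q4 := two_eq (a := 11) (b := 55 - 33 * f) (c := -f) (d := 1)
    (x := (X 4 P).1) (y := (X 4 P).2.1) (by linear_combination c8) (by linear_combination g4) (by
      intro h
      nlinarith)
  exact ⟨zero_of _ q9a q9b (hw _ _), zero_of _ q0.1 q0.2 (hw _ _), zero_of _ q1.1 q1.2 (hw _ _),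
    zero_of _ q2.1 q2.2 (hw _ _), zero_of _ q3.1 q3.2 (hw _ _), zero_of _ q4.1 q4.2 (hw _ _)⟩

end Pool.Agent.H113R4.EN
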