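import Mathlib
import Pool.Agent.H113R4.EN.Stubs

/-! Project EN (helper113), task STRL (helper605): the local identity of the equilibrium stress. -/

set_option autoImplicit false

namespace Pool.Agent.H113R4.EN

namespace STRLaux

theorem sum10 (F : Fin 10 → ℝ) : ∑ k, F k =
    F 0 + F 1 + F 2 + F 3 + F 4 + F 5 + F 6 + F 7 + F 8 + F 9 := by
  simp only [Fin.sum_univ_succ, Fin.sum_univ_zero]
  simp only [add_zero, ← add_assoc]
  rfl

theorem sum12 (F : Fin 12 → ℝ) : ∑ k, F k =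
    F 0 + F 1 + F 2 + F 3 + F 4 + F 5 + F 6 + F 7 + F 8 + F 9 + F 10 + F 11 := by
  simp only [Fin.sum_univ_succ, Fin.sum_univ_zero]
  simp only [add_zero, ← add_assoc]
  rfl

theorem GH_eq (x : Fin 10 → ℝ × ℝ × ℝ) (k j : Fin 10) (hj : k - 1 = j) (r1 r2 : ℝ)
    (hr : rho k = (r1, r2)) :
    G (fun k _ => x k) k (0, 0) = r1 * ((x k).2.1 - (x j).2.1) - r2 * ((x k).1 - (x j).1) ∧
    H (fun k _ => x k) k (0, 0) =
      r1 * ((x k).2.1 + (x k).2.2 * (2 * ((44 * f - 55) * r1) + f * ((44 * f - 55) * r2)) -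
        ((x j).2.1 + (x j).2.2 * (2 * ((44 * f - 55) * r1) + f * ((44 * f - 55) * r2)))) -
      r2 * ((x k).1 + (x k).2.2 * (-f * ((44 * f - 55) * r1) - 2 * ((44 * f - 55) * r2)) -
        ((x j).1 + (x j).2.2 * (-f * ((44 * f - 55) * r1) - 2 * ((44 * f - 55) * r2)))) := by
  subst hj
  refine ⟨?_, ?_⟩
  · simp only [G, dt, velc, hr, Prod.fst_sub, Prod.snd_sub]
    ring
  · simp only [H, dt, velc, hr, Prod.fst_sub, Prod.snd_sub, Prod.smul_fst, Prod.smul_snd,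
      smul_eq_mul]

theorem O_eq (x : Fin 10 → ℝ × ℝ × ℝ) (c : Fin 12) (a b : Fin 10) (ha : kA c = a) (hb : kB c = b)
    (P1 P2 E1 E2 a1 a2 b1 b2 : ℝ) (h1 : p1 c = P1) (h2 : p2 c = P2) (h3 : e1 c = E1)
    (h4 : e2 c = E2) (h5 : lat (dA c) = (a1, a2)) (h6 : lat (dB c) = (b1, b2)) :
    O (fun k _ => x k) c (0, 0) =
      -(E1 * ((x a).2.1 + (x a).2.2 * (2 * (P1 - a1) + f * (P2 - a2)) -
        ((x b).2.1 + (x b).2.2 * (2 * (P1 - b1) + f * (P2 - b2)))) -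
      E2 * ((x a).1 + (x a).2.2 * (-f * (P1 - a1) - 2 * (P2 - a2)) -
        ((x b).1 + (x b).2.2 * (-f * (P1 - b1) - 2 * (P2 - b2))))) := by
  simp only [O, dt, velc, ha, hb, h1, h2, h3, h4, h5, h6, Prod.fst_sub, Prod.snd_sub]

theorem lat00 : lat (0, 0) = (0, 0) := by simp [lat]

theorem lat10 : lat (1, 0) = (12 + 4 * f, 34 * f - 8) := by simp [lat]

theorem lat01 : lat (0, 1) = (-38 - 42 * f, 46 + 30 * f) := by simp [lat]


theorem gh0 (hf : f ^ 2 = f + 1) (x : Fin 10 → ℝ × ℝ × ℝ) :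
    wg 0 * G (fun k _ => x k) 0 (0, 0) + wh 0 * H (fun k _ => x k) 0 (0, 0) =
      ((8052) + (-3674) * f) * (x 0).2.1 +
      ((863808) + (-526196) * f) * (x 0).2.2 +
      ((-8052) + (3674) * f) * (x 9).2.1 +
      ((-863808) + (526196) * f) * (x 9).2.2 := by
  obtain ⟨h1, h2⟩ := GH_eq x 0 9 rfl (1) (0) rfl
  rw [h1, h2, show wg 0 = 13180 - 7080 * f from rfl, show wh 0 = -5128 + 3406 * f from rfl]
  linear_combination (((299728)) * (x 0).2.2 +
      ((-299728)) * (x 9).2.2) * hf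


theorem gh1 (hf : f ^ 2 = f + 1) (x : Fin 10 → ℝ × ℝ × ℝ) :
    wg 1 * G (fun k _ => x k) 1 (0, 0) + wh 1 * H (fun k _ => x k) 1 (0, 0) =
      ((1870) + (99) * f) * (x 0).1 +
      ((-1224146) + (735042) * f) * (x 0).2.2 +
      ((-1870) + (-99) * f) * (x 1).1 +
      ((1224146) + (-735042) * f) * (x 1).2.2 := by
  obtain ⟨h1, h2⟩ := GH_eq x 1 0 rfl (0) (1) rfl
  rw [h1, h2, show wg 1 = 8961 - 4948 * f from rfl, show wh 1 = -7091 + 5047 * f from rfl]
  linear_combination (((-444136)) * (x 0).2.2 +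
      ((444136)) * (x 1).2.2) * hf


theorem gh2 (hf : f ^ 2 = f + 1) (x : Fin 10 → ℝ × ℝ × ℝ) :
    wg 2 * G (fun k _ => x k) 2 (0, 0) + wh 2 * H (fun k _ => x k) 2 (0, 0) =
      ((5500) + (176) * f) * (x 1).1 +
      ((-5324) + (5500) * f) * (x 1).2.1 +
      ((352000) + (-281600) * f) * (x 1).2.2 +
      ((-5500) + (-176) * f) * (x 2).1 +
      ((5324) + (-5500) * f) * (x 2).2.1 +
      ((-352000) + (281600) * f) * (x 2).2.2 := by
  obtain ⟨h1, h2⟩ := GH_eq x 2 1 rfl (-1) (f) rfl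
  rw [h1, h2, show wg 2 = -8524 + 5500 * f from rfl, show wh 2 = 3200 from rfl]
  linear_combination (((5500)) * (x 1).1 +
      ((-5500)) * (x 2).1) * hf


theorem gh3 (hf : f ^ 2 = f + 1) (x : Fin 10 → ℝ × ℝ × ℝ) :
    wg 3 * G (fun k _ => x k) 3 (0, 0) + wh 3 * H (fun k _ => x k) 3 (0, 0) =
      ((99) + (1969) * f) * (x 2).1 +
      ((99) + (1969) * f) * (x 2).2.1 +
      ((-1224146) + (735042) * f) * (x 2).2.2 +
      ((-99) + (-1969) * f) * (x 3).1 +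
      ((-99) + (-1969) * f) * (x 3).2.1 +
      ((1224146) + (-735042) * f) * (x 3).2.2 := by
  obtain ⟨h1, h2⟩ := GH_eq x 3 2 rfl (-f) (f) rfl
  rw [h1, h2, show wg 3 = 8961 - 4948 * f from rfl, show wh 3 = -7091 + 5047 * f from rfl]
  linear_combination (((99)) * (x 2).1 +
      ((99)) * (x 2).2.1 +
      ((-1224146) + (1959188) * f + (-1623314) * f ^ 2 + (444136) * f ^ 3) * (x 2).2.2 +
      ((-99)) * (x 3).1 +
      ((-99)) * (x 3).2.1 +
      ((1224146) + (-1959188) * f + (1623314) * f ^ 2 + (-444136) * f ^ 3) * (x 3).2.2) * hf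


theorem gh4 (hf : f ^ 2 = f + 1) (x : Fin 10 → ℝ × ℝ × ℝ) :
    wg 4 * G (fun k _ => x k) 4 (0, 0) + wh 4 * H (fun k _ => x k) 4 (0, 0) =
      ((8052) + (-3674) * f) * (x 3).1 +
      ((-3674) + (4378) * f) * (x 3).2.1 +
      ((-863808) + (526196) * f) * (x 3).2.2 +
      ((-8052) + (3674) * f) * (x 4).1 +
      ((3674) + (-4378) * f) * (x 4).2.1 +
      ((863808) + (-526196) * f) * (x 4).2.2 := by
  obtain ⟨h1, h2⟩ := GH_eq x 4 3 rfl (-f) (1) rfl
  rw [h1, h2, show wg 4 = 13180 - 7080 * f from rfl, show wh 4 = -5128 + 3406 * f from rfl]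
  linear_combination (((-3674)) * (x 3).2.1 +
      ((-299728)) * (x 3).2.2 +
      ((3674)) * (x 4).2.1 +
      ((299728)) * (x 4).2.2) * hf


theorem gh5 (hf : f ^ 2 = f + 1) (x : Fin 10 → ℝ × ℝ × ℝ) :
    wg 5 * G (fun k _ => x k) 5 (0, 0) + wh 5 * H (fun k _ => x k) 5 (0, 0) =
      ((8052) + (-3674) * f) * (x 4).2.1 +
      ((-863808) + (526196) * f) * (x 4).2.2 +
      ((-8052) + (3674) * f) * (x 5).2.1 +
      ((863808) + (-526196) * f) * (x 5).2.2 := by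
  obtain ⟨h1, h2⟩ := GH_eq x 5 4 rfl (-1) (0) rfl
  rw [h1, h2, show wg 5 = 13180 - 7080 * f from rfl, show wh 5 = -5128 + 3406 * f from rfl]
  linear_combination (((-299728)) * (x 4).2.2 +
      ((299728)) * (x 5).2.2) * hf


theorem gh6 (hf : f ^ 2 = f + 1) (x : Fin 10 → ℝ × ℝ × ℝ) :
    wg 6 * G (fun k _ => x k) 6 (0, 0) + wh 6 * H (fun k _ => x k) 6 (0, 0) =
      ((-1870) + (-99) * f) * (x 5).1 +
      ((-1224146) + (735042) * f) * (x 5).2.2 +
      ((1870) + (99) * f) * (x 6).1 +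
      ((1224146) + (-735042) * f) * (x 6).2.2 := by
  obtain ⟨h1, h2⟩ := GH_eq x 6 5 rfl (0) (-1) rfl
  rw [h1, h2, show wg 6 = 8961 - 4948 * f from rfl, show wh 6 = -7091 + 5047 * f from rfl]
  linear_combination (((-444136)) * (x 5).2.2 +
      ((444136)) * (x 6).2.2) * hf


theorem gh7 (hf : f ^ 2 = f + 1) (x : Fin 10 → ℝ × ℝ × ℝ) :
    wg 7 * G (fun k _ => x k) 7 (0, 0) + wh 7 * H (fun k _ => x k) 7 (0, 0) =
      ((-5500) + (-176) * f) * (x 6).1 +
      ((5324) + (-5500) * f) * (x 6).2.1 +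
      ((352000) + (-281600) * f) * (x 6).2.2 +
      ((5500) + (176) * f) * (x 7).1 +
      ((-5324) + (5500) * f) * (x 7).2.1 +
      ((-352000) + (281600) * f) * (x 7).2.2 := by
  obtain ⟨h1, h2⟩ := GH_eq x 7 6 rfl (1) (-f) rfl
  rw [h1, h2, show wg 7 = -8524 + 5500 * f from rfl, show wh 7 = 3200 from rfl]
  linear_combination (((-5500)) * (x 6).1 +
      ((5500)) * (x 7).1) * hf


theorem gh8 (hf : f ^ 2 = f + 1) (x : Fin 10 → ℝ × ℝ × ℝ) :
    wg 8 * G (fun k _ => x k) 8 (0, 0) + wh 8 * H (fun k _ => x k) 8 (0, 0) =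
      ((-99) + (-1969) * f) * (x 7).1 +
      ((-99) + (-1969) * f) * (x 7).2.1 +
      ((-1224146) + (735042) * f) * (x 7).2.2 +
      ((99) + (1969) * f) * (x 8).1 +
      ((99) + (1969) * f) * (x 8).2.1 +
      ((1224146) + (-735042) * f) * (x 8).2.2 := by
  obtain ⟨h1, h2⟩ := GH_eq x 8 7 rfl (f) (-f) rfl
  rw [h1, h2, show wg 8 = 8961 - 4948 * f from rfl, show wh 8 = -7091 + 5047 * f from rfl]
  linear_combination (((-99)) * (x 7).1 +
      ((-99)) * (x 7).2.1 +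
      ((-1224146) + (1959188) * f + (-1623314) * f ^ 2 + (444136) * f ^ 3) * (x 7).2.2 +
      ((99)) * (x 8).1 +
      ((99)) * (x 8).2.1 +
      ((1224146) + (-1959188) * f + (1623314) * f ^ 2 + (-444136) * f ^ 3) * (x 8).2.2) * hf


theorem gh9 (hf : f ^ 2 = f + 1) (x : Fin 10 → ℝ × ℝ × ℝ) :
    wg 9 * G (fun k _ => x k) 9 (0, 0) + wh 9 * H (fun k _ => x k) 9 (0, 0) =
      ((-8052) + (3674) * f) * (x 8).1 +
      ((3674) + (-4378) * f) * (x 8).2.1 +
      ((-863808) + (526196) * f) * (x 8).2.2 +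
      ((8052) + (-3674) * f) * (x 9).1 +
      ((-3674) + (4378) * f) * (x 9).2.1 +
      ((863808) + (-526196) * f) * (x 9).2.2 := by
  obtain ⟨h1, h2⟩ := GH_eq x 9 8 rfl (f) (-1) rfl
  rw [h1, h2, show wg 9 = 13180 - 7080 * f from rfl, show wh 9 = -5128 + 3406 * f from rfl]
  linear_combination (((3674)) * (x 8).2.1 +
      ((-299728)) * (x 8).2.2 +
      ((-3674)) * (x 9).2.1 +
      ((299728)) * (x 9).2.2) * hf


theorem o0 (hf : f ^ 2 = f + 1) (x : Fin 10 → ℝ × ℝ × ℝ) :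
    wo 0 * O (fun k _ => x k) 0 (0, 0) =
      ((3960) + (-2497) * f) * (x 0).1 +
      ((-2068) + (858) * f) * (x 0).2.1 +
      ((-746328) + (441166) * f) * (x 0).2.2 +
      ((-3960) + (2497) * f) * (x 5).1 +
      ((2068) + (-858) * f) * (x 5).2.1 +
      ((912824) + (-585398) * f) * (x 5).2.2 := by
  rw [O_eq x 0 0 5 rfl rfl (44 - 22 * f) (77 - 33 * f) (-22 + 22 * f) (-55 + 33 * f) (0) (0) (12 + 4 * f) (34 * f - 8) rfl rfl rfl rfl
    lat00 lat10, show wo 0 = -39 + 55 * f from rfl]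
  linear_combination (((1815)) * (x 0).1 +
      ((-1210)) * (x 0).2.1 +
      ((-340494) + (-83248) * f + (79860) * f ^ 2) * (x 0).2.2 +
      ((-1815)) * (x 5).1 +
      ((1210)) * (x 5).2.1 +
      ((493262) + (-22792) * f + (-128260) * f ^ 2) * (x 5).2.2) * hf


theorem o1 (hf : f ^ 2 = f + 1) (x : Fin 10 → ℝ × ℝ × ℝ) :
    wo 1 * O (fun k _ => x k) 1 (0, 0) =
      ((3960) + (-2497) * f) * (x 0).1 +
      ((-2068) + (858) * f) * (x 0).2.1 +
      ((912824) + (-585398) * f) * (x 0).2.2 +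
      ((-3960) + (2497) * f) * (x 5).1 +
      ((2068) + (-858) * f) * (x 5).2.1 +
      ((-746328) + (441166) * f) * (x 5).2.2 := by
  rw [O_eq x 1 5 0 rfl rfl (-32 + 26 * f) (-85 + 67 * f) (22 - 22 * f) (55 - 33 * f) (12 + 4 * f) (34 * f - 8) (0) (0) rfl rfl rfl rfl
    lat10 lat00, show wo 1 = -39 + 55 * f from rfl]
  linear_combination (((1815)) * (x 0).1 +
      ((-1210)) * (x 0).2.1 +
      ((493262) + (-22792) * f + (-128260) * f ^ 2) * (x 0).2.2 +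
      ((-1815)) * (x 5).1 +
      ((1210)) * (x 5).2.1 +
      ((-340494) + (-83248) * f + (79860) * f ^ 2) * (x 5).2.2) * hf


theorem o2 (hf : f ^ 2 = f + 1) (x : Fin 10 → ℝ × ℝ × ℝ) :
    wo 2 * O (fun k _ => x k) 2 (0, 0) =
      ((-6160) + (4972) * f) * (x 6).1 +
      ((-9240) + (7458) * f) * (x 6).2.1 +
      ((-693088) + (435116) * f) * (x 6).2.2 +
      ((6160) + (-4972) * f) * (x 9).1 +
      ((9240) + (-7458) * f) * (x 9).2.1 +
      ((1467004) + (-966548) * f) * (x 9).2.2 := by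
  rw [O_eq x 2 6 9 rfl rfl (34 + 4 * f) (-30 + 12 * f) (33 - 33 * f) (-22 + 22 * f) (12 + 4 * f) (34 * f - 8) (0) (0) rfl rfl rfl rfl
    lat10 lat00, show wo 2 = 226 - 54 * f from rfl]
  linear_combination (((-1188)) * (x 6).1 +
      ((-1782)) * (x 6).2.1 +
      ((-146168) + (-151008) * f + (39204) * f ^ 2) * (x 6).2.2 +
      ((1188)) * (x 9).1 +
      ((1782)) * (x 9).2.1 +
      ((661540) + (-177716) * f + (16632) * f ^ 2) * (x 9).2.2) * hf


theorem o3 (hf : f ^ 2 = f + 1) (x : Fin 10 → ℝ × ℝ × ℝ) :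
    wo 3 * O (fun k _ => x k) 3 (0, 0) =
      ((6160) + (-4972) * f) * (x 1).1 +
      ((9240) + (-7458) * f) * (x 1).2.1 +
      ((-693088) + (435116) * f) * (x 1).2.2 +
      ((-6160) + (4972) * f) * (x 4).1 +
      ((-9240) + (7458) * f) * (x 4).2.1 +
      ((1467004) + (-966548) * f) * (x 4).2.2 := by
  rw [O_eq x 3 1 4 rfl rfl (-22) (22 + 22 * f) (-33 + 33 * f) (22 - 22 * f) (0) (0) (12 + 4 * f) (34 * f - 8) rfl rfl rfl rfl
    lat00 lat10, show wo 3 = 226 - 54 * f from rfl]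
  linear_combination (((1188)) * (x 1).1 +
      ((1782)) * (x 1).2.1 +
      ((-146168) + (-151008) * f + (39204) * f ^ 2) * (x 1).2.2 +
      ((-1188)) * (x 4).1 +
      ((-1782)) * (x 4).2.1 +
      ((661540) + (-177716) * f + (16632) * f ^ 2) * (x 4).2.2) * hf


theorem o4 (hf : f ^ 2 = f + 1) (x : Fin 10 → ℝ × ℝ × ℝ) :
    wo 4 * O (fun k _ => x k) 4 (0, 0) =
      ((-9790) + (4895) * f) * (x 0).1 +
      ((-3916) + (1958) * f) * (x 0).2.1 +
      ((193842) + (-64614) * f) * (x 0).2.2 +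
      ((9790) + (-4895) * f) * (x 6).1 +
      ((3916) + (-1958) * f) * (x 6).2.1 +
      ((-883058) + (581526) * f) * (x 6).2.2 := by
  rw [O_eq x 4 0 6 rfl rfl (22) (22) (44 - 22 * f) (-110 + 55 * f) (0) (0) (12 + 4 * f) (34 * f - 8) rfl rfl rfl rfl
    lat00 lat10, show wo 4 = 89 from rfl]
  linear_combination (((-64614)) * (x 0).2.2 +
      ((-373978) + (46992) * f) * (x 6).2.2) * hf


theorem o5 (hf : f ^ 2 = f + 1) (x : Fin 10 → ℝ × ℝ × ℝ) :
    wo 5 * O (fun k _ => x k) 5 (0, 0) =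
      ((-9790) + (4895) * f) * (x 1).1 +
      ((-3916) + (1958) * f) * (x 1).2.1 +
      ((-883058) + (581526) * f) * (x 1).2.2 +
      ((9790) + (-4895) * f) * (x 5).1 +
      ((3916) + (-1958) * f) * (x 5).2.1 +
      ((193842) + (-64614) * f) * (x 5).2.2 := by
  rw [O_eq x 5 5 1 rfl rfl (-10 + 4 * f) (-30 + 34 * f) (-44 + 22 * f) (110 - 55 * f) (12 + 4 * f) (34 * f - 8) (0) (0) rfl rfl rfl rfl
    lat10 lat00, show wo 5 = 89 from rfl]
  linear_combination (((-373978) + (46992) * f) * (x 1).2.2 +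
      ((-64614)) * (x 5).2.2) * hf


theorem o6 (hf : f ^ 2 = f + 1) (x : Fin 10 → ℝ × ℝ × ℝ) :
    wo 6 * O (fun k _ => x k) 6 (0, 0) =
      ((429) + (-605) * f) * (x 3).1 +
      ((3355) + (-2673) * f) * (x 3).2.1 +
      ((746328) + (-441166) * f) * (x 3).2.2 +
      ((-429) + (605) * f) * (x 8).1 +
      ((-3355) + (2673) * f) * (x 8).2.1 +
      ((-912824) + (585398) * f) * (x 8).2.2 := by
  rw [O_eq x 6 3 8 rfl rfl (55 - 66 * f) (11 + 22 * f) (55 - 22 * f) (-11) (0) (0) (-38 - 42 * f) (46 + 30 * f) rfl rfl rfl rfl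
    lat00 lat01, show wo 6 = -39 + 55 * f from rfl]
  linear_combination (((1210)) * (x 3).2.1 +
      ((519816) + (-245146) * f + (26620) * f ^ 2) * (x 3).2.2 +
      ((-1210)) * (x 8).2.1 +
      ((-483824) + (93566) * f + (9680) * f ^ 2) * (x 8).2.2) * hf


theorem o7 (hf : f ^ 2 = f + 1) (x : Fin 10 → ℝ × ℝ × ℝ) :
    wo 7 * O (fun k _ => x k) 7 (0, 0) =
      ((429) + (-605) * f) * (x 3).1 +
      ((3355) + (-2673) * f) * (x 3).2.1 +
      ((-912824) + (585398) * f) * (x 3).2.2 +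
      ((-429) + (605) * f) * (x 8).1 +
      ((-3355) + (2673) * f) * (x 8).2.1 +
      ((746328) + (-441166) * f) * (x 8).2.2 := by
  rw [O_eq x 7 8 3 rfl rfl (-93 + 24 * f) (35 + 8 * f) (-55 + 22 * f) (11) (-38 - 42 * f) (46 + 30 * f) (0) (0) rfl rfl rfl rfl
    lat01 lat00, show wo 7 = -39 + 55 * f from rfl]
  linear_combination (((1210)) * (x 3).2.1 +
      ((-483824) + (93566) * f + (9680) * f ^ 2) * (x 3).2.2 +
      ((-1210)) * (x 8).2.1 +
      ((519816) + (-245146) * f + (26620) * f ^ 2) * (x 8).2.2) * hf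


theorem o8 (hf : f ^ 2 = f + 1) (x : Fin 10 → ℝ × ℝ × ℝ) :
    wo 8 * O (fun k _ => x k) 8 (0, 0) =
      ((14212) + (-8646) * f) * (x 4).1 +
      ((-2486) + (594) * f) * (x 4).2.1 +
      ((-1467004) + (966548) * f) * (x 4).2.2 +
      ((-14212) + (8646) * f) * (x 7).1 +
      ((2486) + (-594) * f) * (x 7).2.1 +
      ((693088) + (-435116) * f) * (x 7).2.2 := by
  rw [O_eq x 8 7 4 rfl rfl (-16 - 20 * f) (46 - 14 * f) (-11) (-55 + 33 * f) (-38 - 42 * f) (46 + 30 * f) (0) (0) rfl rfl rfl rfl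
    lat01 lat00, show wo 8 = 226 - 54 * f from rfl]
  linear_combination (((1782)) * (x 4).1 +
      ((-402996) + (-102828) * f + (35640) * f ^ 2) * (x 4).2.2 +
      ((-1782)) * (x 7).1 +
      ((583704) + (-281688) * f + (39204) * f ^ 2) * (x 7).2.2) * hf


theorem o9 (hf : f ^ 2 = f + 1) (x : Fin 10 → ℝ × ℝ × ℝ) :
    wo 9 * O (fun k _ => x k) 9 (0, 0) =
      ((14212) + (-8646) * f) * (x 2).1 +
      ((-2486) + (594) * f) * (x 2).2.1 +
      ((693088) + (-435116) * f) * (x 2).2.2 +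
      ((-14212) + (8646) * f) * (x 9).1 +
      ((2486) + (-594) * f) * (x 9).2.1 +
      ((-1467004) + (966548) * f) * (x 9).2.2 := by
  rw [O_eq x 9 2 9 rfl rfl (-22 - 22 * f) (44 * f) (11) (55 - 33 * f) (0) (0) (-38 - 42 * f) (46 + 30 * f) rfl rfl rfl rfl
    lat00 lat01, show wo 9 = 226 - 54 * f from rfl]
  linear_combination (((1782)) * (x 2).1 +
      ((583704) + (-281688) * f + (39204) * f ^ 2) * (x 2).2.2 +
      ((-1782)) * (x 9).1 +
      ((-402996) + (-102828) * f + (35640) * f ^ 2) * (x 9).2.2) * hf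


theorem o10 (hf : f ^ 2 = f + 1) (x : Fin 10 → ℝ × ℝ × ℝ) :
    wo 10 * O (fun k _ => x k) 10 (0, 0) =
      ((-8811) + (6853) * f) * (x 3).1 +
      ((-2937) + (2937) * f) * (x 3).2.1 +
      ((-193842) + (64614) * f) * (x 3).2.2 +
      ((8811) + (-6853) * f) * (x 7).1 +
      ((2937) + (-2937) * f) * (x 7).2.1 +
      ((883058) + (-581526) * f) * (x 7).2.2 := by
  rw [O_eq x 10 3 7 rfl rfl (-44 * f) (22 + 22 * f) (33 - 33 * f) (-99 + 77 * f) (0) (0) (-38 - 42 * f) (46 + 30 * f) rfl rfl rfl rfl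
    lat00 lat01, show wo 10 = 89 from rfl]
  linear_combination (((-581526) + (366146) * f) * (x 3).2.2 +
      ((236918) + (9790) * f) * (x 7).2.2) * hf


theorem o11 (hf : f ^ 2 = f + 1) (x : Fin 10 → ℝ × ℝ × ℝ) :
    wo 11 * O (fun k _ => x k) 11 (0, 0) =
      ((-8811) + (6853) * f) * (x 2).1 +
      ((-2937) + (2937) * f) * (x 2).2.1 +
      ((883058) + (-581526) * f) * (x 2).2.2 +
      ((8811) + (-6853) * f) * (x 8).1 +
      ((2937) + (-2937) * f) * (x 8).2.1 +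
      ((-193842) + (64614) * f) * (x 8).2.2 := by
  rw [O_eq x 11 8 2 rfl rfl (-38 + 2 * f) (24 + 8 * f) (-33 + 33 * f) (99 - 77 * f) (-38 - 42 * f) (46 + 30 * f) (0) (0) rfl rfl rfl rfl
    lat01 lat00, show wo 11 = 89 from rfl]
  linear_combination (((236918) + (9790) * f) * (x 2).2.2 +
      ((-581526) + (366146) * f) * (x 8).2.2) * hf


end STRLaux

open STRLaux in
theorem t_STRL (hF : S_F) : ∀ x : Fin 10 → ℝ × ℝ × ℝ,
    (Finset.univ.sum fun k => wg k * G (fun k _ => x k) k (0, 0) +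
      wh k * H (fun k _ => x k) k (0, 0)) +
    Finset.univ.sum (fun c => wo c * O (fun k _ => x k) c (0, 0)) = 0 := by
  intro x
  have hf : f ^ 2 = f + 1 := hF.1
  rw [sum10, sum12, gh0 hf, gh1 hf, gh2 hf, gh3 hf, gh4 hf, gh5 hf, gh6 hf, gh7 hf, gh8 hf, gh9 hf,
    o0 hf, o1 hf, o2 hf, o3 hf, o4 hf, o5 hf, o6 hf, o7 hf, o8 hf, o9 hf, o10 hf, o11 hf]
  ring

end Pool.Agent.H113R4.EN
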